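import Pool.Agent.Run7.h437.Basic

/-!
# The greedy consecutive-sum sequence is a closed sequence
-/

set_option autoImplicit false

namespace Run7.h437

open Finset

lemma S_sub (b : ℕ → ℕ) {p q : ℕ} (h : p ≤ q) : S b q - S b p = ∑ k ∈ Ico p q, b k := by
  unfold S
  have := Finset.sum_range_add_sum_Ico b h
  omega

lemma S_sub_shift (a : ℕ → ℕ) {p q : ℕ} (h : p ≤ q) :
    S (fun k => a (k + 1)) q - S (fun k => a (k + 1)) p = ∑ i ∈ Icc (p + 1) q, a i := by
  rw [S_sub _ h, Finset.sum_Ico_add' (fun i => a i) p q 1]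
  apply Finset.sum_congr _ (fun _ _ => rfl)
  ext i
  simp only [mem_Ico, mem_Icc]
  omega

theorem closed_of_rule (a : ℕ → ℕ) (h1 : a 1 = 1) (h2 : a 2 = 2)
    (h : ∀ n : ℕ, 3 ≤ n →
        IsLeast {m : ℕ | a (n - 1) < m ∧
          ∃ i j : ℕ, 1 ≤ i ∧ i < j ∧ j < n ∧ m = ∑ k ∈ Finset.Icc i j, a k} (a n)) :
    Closed (fun k => a (k + 1)) := by
  have hstep : ∀ k, a (k + 1) < a (k + 1 + 1) := by
    intro k
    rcases Nat.eq_zero_or_pos k with h0 | h0
    · subst h0
      change a 1 < a 2
      omega
    · have := (h (k + 1 + 1) (by omega)).1.1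
      simpa using this
  have hmono : StrictMono (fun k => a (k + 1)) := strictMono_nat_of_lt_succ hstep
  refine ⟨hmono, by simp [h1], ?_⟩
  intro p q hpq
  rw [S_sub_shift a hpq.le]
  rcases Nat.eq_or_lt_of_le (Nat.succ_le_of_lt hpq) with hq | hq
  · refine ⟨p, ?_⟩
    rw [← hq]
    simp
  · set m := ∑ i ∈ Icc (p + 1) q, a i with hm
    -- `m` is larger than `a q`
    have hpos : ∀ i, 1 ≤ i → 0 < a i := by
      intro i hi
      obtain ⟨k, rfl⟩ : ∃ k, i = k + 1 := ⟨i - 1, by omega⟩
      have := hmono.monotone (Nat.zero_le k)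
      simp only [Nat.zero_add] at this
      omega
    have hmq : a q < m := by
      have hsub : ({p + 1, q} : Finset ℕ) ⊆ Icc (p + 1) q := by
        intro x hx
        simp only [mem_insert, mem_singleton] at hx
        rw [mem_Icc]
        omega
      have h3 : ∑ i ∈ ({p + 1, q} : Finset ℕ), a i ≤ m := Finset.sum_le_sum_of_subset hsub
      rw [Finset.sum_pair (by omega)] at h3
      have := hpos (p + 1) (by omega)
      omega
    have hex : ∃ n, m ≤ a (n + 1) := by
      refine ⟨m, ?_⟩
      have : m ≤ (fun k => a (k + 1)) m := hmono.le_apply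
      exact this
    classical
    set n := Nat.find hex with hn
    have hn1 : m ≤ a (n + 1) := Nat.find_spec hex
    have hnq : q < n + 1 := by
      by_contra hcon
      push Not at hcon
      have : a (n + 1) ≤ a (q - 1 + 1) := hmono.monotone (show n ≤ q - 1 by omega)
      rw [show q - 1 + 1 = q by omega] at this
      omega
    have hn2 : a n < m := by
      have := Nat.find_min hex (m := n - 1) (by omega)
      rw [show n - 1 + 1 = n by omega] at this
      omega
    refine ⟨n, ?_⟩
    have hleast := (h (n + 1) (by omega)).2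
    have : a (n + 1) ≤ m := by
      apply hleast
      refine ⟨by simpa using hn2, p + 1, q, by omega, by omega, hnq, hm⟩
    change a (n + 1) = m
    omega

end Run7.h437
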