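import Pool.Agent.Run7.h437.LbKey
import Pool.Agent.Run7.h437.Bridge

/-!
# The greedy consecutive-sum sequence and its missing numbers
-/

set_option autoImplicit false

namespace Run7.h437

open Finset

theorem rep_of_rule (a : ℕ → ℕ) (h1 : a 1 = 1) (h2 : a 2 = 2)
    (h : ∀ n : ℕ, 3 ≤ n →
        IsLeast {m : ℕ | a (n - 1) < m ∧
          ∃ i j : ℕ, 1 ≤ i ∧ i < j ∧ j < n ∧ m = ∑ k ∈ Finset.Icc i j, a k} (a n)) :
    Rep {t : ℕ | ∃ i, 1 ≤ i ∧ a i = t} ∧
      ∀ n, 1 ≤ n → a n = n + (miss {t : ℕ | ∃ i, 1 ≤ i ∧ a i = t} 1 (a n)).card := by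
  classical
  have hb := closed_of_rule a h1 h2 h
  have hmono : ∀ i j, 1 ≤ i → i < j → a i < a j := by
    intro i j hi hij
    have h4 : a (i - 1 + 1) < a (j - 1 + 1) := hb.mono (show i - 1 < j - 1 by omega)
    rwa [show i - 1 + 1 = i by omega, show j - 1 + 1 = j by omega] at h4
  have hmono' : ∀ i j, 1 ≤ i → i ≤ j → a i ≤ a j := by
    intro i j hi hij
    rcases Nat.eq_or_lt_of_le hij with h' | h'
    · rw [h']
    · exact (hmono i j hi h').le
  have hpos : ∀ i, 1 ≤ i → 1 ≤ a i := by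
    intro i hi
    have := hmono' 1 i le_rfl hi
    omega
  set T : Set ℕ := {t : ℕ | ∃ i, 1 ≤ i ∧ a i = t} with hT
  -- the elements of `T` between two terms
  have helts : ∀ i j, 1 ≤ i → i ≤ j → elts T (a i) (a j) = (Icc i j).image a := by
    intro i j hi hij
    ext t
    rw [mem_elts, mem_image]
    constructor
    · rintro ⟨⟨b1, b2⟩, k, hk1, rfl⟩
      refine ⟨k, ?_, rfl⟩
      rw [mem_Icc]
      constructor
      · by_contra hc
        push Not at hc
        have := hmono k i hk1 hc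
        omega
      · by_contra hc
        push Not at hc
        have := hmono j k (by omega) hc
        omega
    · rintro ⟨k, hk, rfl⟩
      rw [mem_Icc] at hk
      exact ⟨⟨hmono' i k hi hk.1, hmono' k j (by omega) hk.2⟩, k, by omega, rfl⟩
  have hinj : ∀ i j, 1 ≤ i → Set.InjOn a ((Icc i j : Finset ℕ) : Set ℕ) := by
    intro i j hi x hx y hy hxy
    rw [Finset.mem_coe, mem_Icc] at hx hy
    rcases lt_trichotomy x y with h' | h' | h'
    · have := hmono x y (by omega) h'; omega
    · exact h'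
    · have := hmono y x (by omega) h'; omega
  refine ⟨⟨?_, ?_⟩, ?_⟩
  · rintro ⟨i, hi, h0⟩
    have := hpos i hi
    omega
  · rintro N ⟨n, hn, rfl⟩ hN
    have hn3 : 3 ≤ n := by
      by_contra hc
      push Not at hc
      have : a n ≤ a 2 := hmono' n 2 hn (by omega)
      omega
    obtain ⟨i, j, hi, hij, hjn, hsum⟩ := (h n hn3).1.2
    refine ⟨a i, a j, ⟨i, hi, rfl⟩, ⟨j, by omega, rfl⟩, hmono i j hi hij, ?_⟩
    rw [helts i j hi hij.le, Finset.sum_image (hinj i j hi), hsum]
  · intro n hn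
    have hc := card_elts_add_miss T 1 (a n)
    have h3 : elts T 1 (a n) = (Icc 1 n).image a := by
      have := helts 1 n le_rfl hn
      rw [h1] at this
      exact this
    rw [h3, Finset.card_image_of_injOn (hinj 1 n le_rfl), Nat.card_Icc] at hc
    have := hpos n hn
    omega

end Run7.h437
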