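import Pool.Agent.Run7.h437.Incidence

/-!
# The a-priori bound `b k ≪ k^(2+δ)`

From the incidence bound the differences of `S_0, …, S_{s²}` take at least `s³/36` values.
-/

set_option autoImplicit false

namespace Run7.h437

open Finset

variable {b : ℕ → ℕ}

/-- the index pairs `p' < p ≤ P` -/
def pairs (P : ℕ) : Finset (ℕ × ℕ) :=
  ((range (P + 1)) ×ˢ (range (P + 1))).filter (fun v => v.1 < v.2)

lemma mem_pairs {P : ℕ} {v : ℕ × ℕ} : v ∈ pairs P ↔ v.1 < v.2 ∧ v.2 ≤ P := by
  unfold pairs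
  simp only [mem_filter, mem_product, mem_range]
  constructor
  · rintro ⟨⟨h1, h2⟩, h3⟩
    exact ⟨h3, by omega⟩
  · rintro ⟨h1, h2⟩
    exact ⟨⟨by omega, by omega⟩, h1⟩

lemma card_pairs (P : ℕ) : P * (P + 1) ≤ (pairs P).card * 2 := by
  have h1 : ((range (P + 1)).sigma (fun p => range p)).card ≤ (pairs P).card := by
    apply card_le_card_of_injOn (fun x => (x.2, x.1))
    · intro x hx
      simp only [coe_sigma, Set.mem_sigma_iff, mem_coe, mem_range] at hx
      rw [mem_coe, mem_pairs]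
      change x.2 < x.1 ∧ x.1 ≤ P
      omega
    · rintro ⟨x1, x2⟩ _ ⟨y1, y2⟩ _ h
      simp only [Prod.mk.injEq] at h
      obtain ⟨rfl, rfl⟩ := h
      rfl
  rw [card_sigma] at h1
  simp only [card_range] at h1
  have h2 := Finset.sum_range_id_mul_two (P + 1)
  simp only [Nat.add_sub_cancel] at h2
  calc P * (P + 1) = (P + 1) * P := by ring
    _ = (∑ i ∈ range (P + 1), i) * 2 := h2.symm
    _ ≤ (pairs P).card * 2 := by gcongr

/-- all positive differences of `S_0, …, S_P` -/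
def Dall (b : ℕ → ℕ) (P : ℕ) : Finset ℕ := (pairs P).image (fun v => S b v.2 - S b v.1)

lemma V_Dall (P : ℕ) : V b P (Dall b P) = pairs P := by
  ext v
  rw [mem_V, mem_pairs]
  constructor
  · rintro ⟨h1, h2, _⟩
    exact ⟨h1, h2⟩
  · rintro ⟨h1, h2⟩
    exact ⟨h1, h2, mem_image.mpr ⟨v, mem_pairs.mpr ⟨h1, h2⟩, rfl⟩⟩

lemma Closed.card_Dall (hb : Closed b) (s : ℕ) (hs : 2 ≤ s) :
    s * s * s ≤ 36 * (Dall b (s * s)).card := by
  set r := (Dall b (s * s)).card with hr
  have h1 := hb.st (s * s) (Dall b (s * s)) s 8 (by omega) (by norm_num)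
  rw [V_Dall, ← hr] at h1
  have h2 := card_pairs (s * s)
  have h3 : r / s * s ≤ r := Nat.div_mul_le_self _ _
  have h4 : s * s / 8 * 8 ≤ s * s := Nat.div_mul_le_self _ _
  have h5 : s * s * (s * s + 1) ≤ 2 * (s * s * (r / s + s * s / 8 + 1) + r * (s * 8)) := by
    omega
  -- multiply by 4
  have h6 : s * s * (r / s) ≤ s * r := by
    calc s * s * (r / s) = s * (r / s * s) := by ring
      _ ≤ s * r := by gcongr
  have h7 : 8 * (s * s * (s * s / 8)) ≤ s * s * (s * s) := by
    calc 8 * (s * s * (s * s / 8)) = s * s * (s * s / 8 * 8) := by ring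
      _ ≤ s * s * (s * s) := by gcongr
  have h8 : 3 * (s * s * s) * s ≤ (4 * s + 72 * r) * s := by nlinarith
  have h9 : 3 * (s * s * s) ≤ 4 * s + 72 * r := le_of_mul_le_mul_right h8 (by omega)
  have h10 : 4 * s ≤ s * s * s := by
    have : 2 * 2 ≤ s * s := Nat.mul_le_mul hs hs
    nlinarith
  omega

lemma Closed.apriori_step (hb : Closed b) (s c : ℕ) (hs : 2 ≤ s) (h : 36 * (c + 1) ≤ s * s * s) :
    b c ≤ S b (s * s) := by
  have h1 := hb.card_Dall s hs
  apply hb.count (Dall b (s * s)) _ _ _ c (by omega)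
  · intro d hd
    obtain ⟨v, hv, rfl⟩ := mem_image.mp hd
    rw [mem_pairs] at hv
    exact hb.closed _ _ hv.1
  · intro d hd
    obtain ⟨v, hv, rfl⟩ := mem_image.mp hd
    rw [mem_pairs] at hv
    have := hb.S_mono hv.2
    omega

/-- a cube root, rounded up -/
lemma exists_cube (m : ℕ) (hm : 36 ≤ m) : ∃ s : ℕ, 2 ≤ s ∧ m ≤ s * s * s ∧ s * s * s < 8 * m := by
  have hex : ∃ s : ℕ, m ≤ s * s * s := ⟨m, by nlinarith [Nat.le_mul_self m]⟩
  classical
  set s := Nat.find hex with hs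
  have h1 : m ≤ s * s * s := Nat.find_spec hex
  have h2 : 4 ≤ s := by
    by_contra hcon
    push Not at hcon
    have : s * s * s ≤ 3 * 3 * 3 := by
      have : s ≤ 3 := by omega
      gcongr
    omega
  have h3 : (s - 1) * (s - 1) * (s - 1) < m := by
    have := Nat.find_min hex (m := s - 1) (by omega)
    omega
  refine ⟨s, by omega, h1, ?_⟩
  have h4 : s ≤ 2 * (s - 1) := by omega
  calc s * s * s ≤ (2 * (s - 1)) * (2 * (s - 1)) * (2 * (s - 1)) := by gcongr
    _ = 8 * ((s - 1) * (s - 1) * (s - 1)) := by ring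
    _ < 8 * m := by omega

/-- **A-priori bound.** -/
theorem Closed.apriori (hb : Closed b) (δ : ℝ) (hδ : 0 < δ) :
    ∃ C : ℝ, 1 ≤ C ∧ ∀ k : ℕ, (b k : ℝ) ≤ C * ((k : ℝ) + 1) ^ (2 + δ) := by
  -- threshold
  obtain ⟨N, hN⟩ : ∃ N : ℕ, (288 : ℝ) ^ (2 + 2 * δ / 3) ≤ ((N : ℝ) + 1) ^ (δ / 3) := by
    have h1 := (tendsto_rpow_atTop (y := δ / 3) (by positivity)).comp
      (tendsto_natCast_atTop_atTop (R := ℝ))
    have h2 := (h1.eventually_ge_atTop ((288 : ℝ) ^ (2 + 2 * δ / 3))).exists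
    obtain ⟨N, hN⟩ := h2
    refine ⟨N, le_trans hN ?_⟩
    simp only [Function.comp]
    apply Real.rpow_le_rpow (by positivity) (by linarith) (by positivity)
  set N' := max N 100000 with hN'
  refine ⟨max 1 (b N' : ℝ), le_max_left _ _, ?_⟩
  set C := max 1 (b N' : ℝ) with hC
  have hC1 : 1 ≤ C := le_max_left _ _
  have hC2 : (b N' : ℝ) ≤ C := le_max_right _ _
  intro k
  induction k using Nat.strong_induction_on with
  | _ c ih =>
    have hc1 : (1 : ℝ) ≤ (c : ℝ) + 1 := by
      have : (0 : ℝ) ≤ (c : ℝ) := Nat.cast_nonneg c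
      linarith
    by_cases hc : c ≤ N'
    · have h1 : (b c : ℝ) ≤ b N' := by exact_mod_cast hb.mono.monotone hc
      have h2 : (1 : ℝ) ≤ ((c : ℝ) + 1) ^ (2 + δ) := Real.one_le_rpow hc1 (by positivity)
      calc (b c : ℝ) ≤ C := by linarith
        _ = C * 1 := by ring
        _ ≤ C * ((c : ℝ) + 1) ^ (2 + δ) := by gcongr
    · push Not at hc
      have hcN : N ≤ c := by omega
      have hc5 : 100000 ≤ c := by omega
      obtain ⟨s, hs2, hs3, hs4⟩ := exists_cube (36 * (c + 1)) (by omega)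
      have h1 := hb.apriori_step s c hs2 hs3
      -- `s * s ≤ c`
      have hsc : s * s ≤ c := by
        by_contra hcon
        push Not at hcon
        have e1 : (s * s * s) * (s * s * s) < (288 * (c + 1)) * (288 * (c + 1)) := by
          have : s * s * s < 288 * (c + 1) := by omega
          exact Nat.mul_lt_mul'' this this
        have e2 : (c + 1) * (c + 1) * (c + 1) ≤ (s * s * s) * (s * s * s) := by
          have : c + 1 ≤ s * s := hcon
          calc (c + 1) * (c + 1) * (c + 1) ≤ (s * s) * (s * s) * (s * s) := by gcongr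
            _ = (s * s * s) * (s * s * s) := by ring
        have e3 : 82944 * ((c + 1) * (c + 1)) ≤ (c + 1) * ((c + 1) * (c + 1)) := by
          gcongr
          omega
        have e4 : (c + 1) * ((c + 1) * (c + 1)) = (c + 1) * (c + 1) * (c + 1) := by ring
        have e5 : (288 * (c + 1)) * (288 * (c + 1)) = 82944 * ((c + 1) * (c + 1)) := by ring
        rw [e4] at e3
        rw [e5] at e1
        exact absurd (lt_of_le_of_lt e2 e1) (not_lt.mpr e3)
      have hss : 1 ≤ s * s := by nlinarith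
      have h2 : S b (s * s) ≤ s * s * b (s * s - 1) := hb.S_le _ _ (by omega)
      have h3 := ih (s * s - 1) (by omega)
      have hs0 : (0 : ℝ) < (s : ℝ) := by
        have : 0 < s := by omega
        exact_mod_cast this
      have e4 : ((s * s - 1 : ℕ) : ℝ) + 1 = (s : ℝ) * s := by
        have : ((s * s - 1 : ℕ) : ℝ) = ((s * s : ℕ) : ℝ) - 1 := by
          rw [Nat.cast_sub hss]; simp
        rw [this]; push_cast; ring
      rw [e4] at h3
      have h4 : (b c : ℝ) ≤ (s : ℝ) * s * b (s * s - 1) := by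
        have : b c ≤ s * s * b (s * s - 1) := le_trans h1 h2
        exact_mod_cast this
      have h5 : (s : ℝ) * s * ((s : ℝ) * s) ^ (2 + δ) = ((s : ℝ) * s * s) ^ (2 + 2 * δ / 3) := by
        have g1 : (s : ℝ) * s = (s : ℝ) ^ (2 : ℝ) := by
          rw [Real.rpow_two]; ring
        have g2 : (s : ℝ) * s * s = (s : ℝ) ^ (3 : ℝ) := by
          rw [show (3 : ℝ) = ((3 : ℕ) : ℝ) by norm_num, Real.rpow_natCast]; ring
        rw [g2, g1, ← Real.rpow_mul hs0.le, ← Real.rpow_mul hs0.le, ← Real.rpow_add hs0]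
        congr 1
        ring
      have h6 : ((s : ℝ) * s * s) ≤ 288 * ((c : ℝ) + 1) := by
        have : s * s * s ≤ 288 * (c + 1) := by omega
        exact_mod_cast this
      calc (b c : ℝ) ≤ (s : ℝ) * s * b (s * s - 1) := h4
        _ ≤ (s : ℝ) * s * (C * ((s : ℝ) * s) ^ (2 + δ)) := by gcongr
        _ = C * ((s : ℝ) * s * ((s : ℝ) * s) ^ (2 + δ)) := by ring
        _ = C * ((s : ℝ) * s * s) ^ (2 + 2 * δ / 3) := by rw [h5]
        _ ≤ C * (288 * ((c : ℝ) + 1)) ^ (2 + 2 * δ / 3) := by gcongr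
        _ = C * ((288 : ℝ) ^ (2 + 2 * δ / 3) * ((c : ℝ) + 1) ^ (2 + 2 * δ / 3)) := by
            rw [Real.mul_rpow (by norm_num) (by positivity)]
        _ ≤ C * (((N : ℝ) + 1) ^ (δ / 3) * ((c : ℝ) + 1) ^ (2 + 2 * δ / 3)) := by gcongr
        _ ≤ C * (((c : ℝ) + 1) ^ (δ / 3) * ((c : ℝ) + 1) ^ (2 + 2 * δ / 3)) := by gcongr
        _ = C * ((c : ℝ) + 1) ^ (2 + δ) := by
            rw [← Real.rpow_add (by positivity)]
            congr 2
            ring

end Run7.h437
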