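import Mathlib

/-!
# Strictly increasing sequences closed under sums of consecutive terms

`b : ℕ → ℕ` is a strictly increasing sequence of positive integers; `S b n` is the sum of its first
`n` terms, so that the sums of consecutive terms are exactly the differences `S b q - S b p`.
-/

set_option autoImplicit false

namespace Run7.h437

/-- Partial sums. -/
def S (b : ℕ → ℕ) (n : ℕ) : ℕ := ∑ k ∈ Finset.range n, b k

/-- `b` is strictly increasing with positive terms, and every sum of consecutive terms is a term. -/
structure Closed (b : ℕ → ℕ) : Prop where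
  mono : StrictMono b
  pos : 0 < b 0
  closed : ∀ p q : ℕ, p < q → ∃ k : ℕ, b k = S b q - S b p

variable {b : ℕ → ℕ}

lemma S_zero : S b 0 = 0 := by simp [S]

lemma S_succ (n : ℕ) : S b (n + 1) = S b n + b n := by
  simp [S, Finset.sum_range_succ]

lemma Closed.b_pos (hb : Closed b) (n : ℕ) : 0 < b n :=
  lt_of_lt_of_le hb.pos (hb.mono.monotone (Nat.zero_le n))

lemma Closed.lt_b (hb : Closed b) (n : ℕ) : n < b n := by
  induction n with
  | zero => exact hb.pos
  | succ n ih =>
    have : b n < b (n + 1) := hb.mono (Nat.lt_succ_self n)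
    omega

lemma Closed.S_lt_succ (hb : Closed b) (n : ℕ) : S b n < S b (n + 1) := by
  rw [S_succ]
  have := hb.b_pos n
  omega

lemma Closed.S_strictMono (hb : Closed b) : StrictMono (S b) :=
  strictMono_nat_of_lt_succ hb.S_lt_succ

lemma Closed.S_mono (hb : Closed b) : Monotone (S b) := hb.S_strictMono.monotone

/-- Strict convexity, one step. -/
lemma Closed.window_succ (hb : Closed b) (l p : ℕ) (hl : 1 ≤ l) :
    S b (p + l) + S b (p + 1) < S b (p + 1 + l) + S b p := by
  have h1 : p + 1 + l = (p + l) + 1 := by ring
  rw [h1, S_succ, S_succ]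
  have : b p < b (p + l) := hb.mono (by omega)
  omega

/-- Strict convexity: windows of a fixed length have strictly increasing sums. -/
lemma Closed.window_lt (hb : Closed b) (l : ℕ) (hl : 1 ≤ l) {p p' : ℕ} (h : p < p') :
    S b (p + l) + S b p' < S b (p' + l) + S b p := by
  induction p', h using Nat.le_induction with
  | base => exact hb.window_succ l p hl
  | succ n hn ih =>
    have h2 := hb.window_succ l n hl
    omega

/-- a window of length `l` starting at or after `K` has sum at least `l * b K` -/
lemma Closed.le_window (hb : Closed b) (K l q : ℕ) (hq : K ≤ q) :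
    S b q + l * b K ≤ S b (q + l) := by
  induction l with
  | zero => simp
  | succ l ih =>
    rw [← Nat.add_assoc, S_succ, Nat.succ_mul]
    have : b K ≤ b (q + l) := hb.mono.monotone (by omega)
    omega

/-- `S n ≤ n * b (n-1)`, in the shifted form. -/
lemma Closed.S_le (hb : Closed b) (n m : ℕ) (h : n ≤ m + 1) : S b n ≤ n * b m := by
  unfold S
  calc ∑ k ∈ Finset.range n, b k ≤ ∑ _k ∈ Finset.range n, b m := by
        apply Finset.sum_le_sum
        intro k hk
        apply hb.mono.monotone
        have := Finset.mem_range.mp hk
        omega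
    _ = n * b m := by simp

/-- Counting principle: a finite set of terms of size `c ≥ 1`, all `≤ y`, forces `b (c-1) ≤ y`. -/
lemma Closed.count (hb : Closed b) (D : Finset ℕ) (y : ℕ) (hD : ∀ d ∈ D, ∃ k, b k = d)
    (hy : ∀ d ∈ D, d ≤ y) (c : ℕ) (hc : c + 1 ≤ D.card) : b c ≤ y := by
  by_contra hcon
  push Not at hcon
  -- every element of D is `b k` with `k < c`
  have hsub : D ⊆ (Finset.range c).image b := by
    intro d hd
    obtain ⟨k, hk⟩ := hD d hd
    have h1 := hy d hd
    have h2 : b k < b c := by omega
    have h3 : k < c := hb.mono.lt_iff_lt.mp h2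
    exact Finset.mem_image.mpr ⟨k, Finset.mem_range.mpr h3, hk⟩
  have := Finset.card_le_card hsub
  have h4 := Finset.card_image_le (s := Finset.range c) (f := b)
  simp at h4
  omega

end Run7.h437
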