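import Pool.Agent.Run7.h437.Incidence

/-!
# Few collisions among the differences `S b q - S b p`

For `q` in a block `(K, K+M]` and small `p ≤ P` the differences `S b q - S b p` are mostly distinct.
-/

set_option autoImplicit false

namespace Run7.h437

open Finset

variable {b : ℕ → ℕ}

/-- sums of the windows of length `i` that start in the block -/
def Rw (b : ℕ → ℕ) (K M i : ℕ) : Finset ℕ :=
  (range M).image (fun j => S b (K + 1 + j + i) - S b (K + 1 + j))

lemma card_Rw_le (K M i : ℕ) : (Rw b K M i).card ≤ M := by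
  have := card_image_le (s := range M) (f := fun j => S b (K + 1 + j + i) - S b (K + 1 + j))
  simpa [Rw] using this

/-- the differences under consideration -/
def D (b : ℕ → ℕ) (K M P : ℕ) : Finset ℕ :=
  ((Ioc K (K + M)) ×ˢ (range (P + 1))).image (fun x => S b x.1 - S b x.2)

lemma Closed.mem_D_term (hb : Closed b) {K M P : ℕ} (hPK : P ≤ K) {d : ℕ} (hd : d ∈ D b K M P) :
    (∃ k, b k = d) ∧ d ≤ S b (K + M) := by
  unfold D at hd
  obtain ⟨x, hx, rfl⟩ := mem_image.mp hd
  simp only [mem_product, mem_Ioc, mem_range] at hx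
  refine ⟨hb.closed x.2 x.1 (by omega), ?_⟩
  have := hb.S_mono hx.1.2
  omega

theorem Closed.coll (hb : Closed b) (K M P L B : ℕ) (hPK : P ≤ K)
    (hL : S b P < (L + 1) * b K)
    (hB : ∀ i, 1 ≤ i → i ≤ L → (V b P (Rw b K M i)).card ≤ B) :
    M * (P + 1) ≤ (D b K M P).card + L * B := by
  classical
  set X := (Ioc K (K + M)) ×ˢ (range (P + 1)) with hX
  let F : ℕ × ℕ → ℕ := fun x => S b x.1 - S b x.2
  have hsplit := card_filter_add_card_filter_not (s := X)
    (fun x => ∃ y, y ∈ X ∧ y.1 < x.1 ∧ F y = F x)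
  have hcard : X.card = M * (P + 1) := by simp [hX]
  have memX : ∀ x, x ∈ X ↔ K < x.1 ∧ x.1 ≤ K + M ∧ x.2 ≤ P := by
    intro x
    simp only [hX, mem_product, mem_Ioc, mem_range]
    constructor
    · rintro ⟨⟨h1, h2⟩, h3⟩
      exact ⟨h1, h2, by omega⟩
    · rintro ⟨h1, h2, h3⟩
      exact ⟨⟨h1, h2⟩, by omega⟩
  -- if `p ≤ P` and `K < q` then `S p < S q`
  have hlt : ∀ x, x ∈ X → S b x.2 < S b x.1 := by
    intro x hx
    have := (memX x).mp hx
    exact hb.S_strictMono (by omega)
  have h0 : (X.filter (fun x => ¬ ∃ y, y ∈ X ∧ y.1 < x.1 ∧ F y = F x)).card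
      ≤ (D b K M P).card := by
    apply card_le_card_of_injOn F
    · intro x hx
      have hx' := (mem_filter.mp (mem_coe.mp hx)).1
      exact mem_coe.mpr (mem_image.mpr ⟨x, hx', rfl⟩)
    · intro x hx y hy hxy
      have hx' := mem_filter.mp (mem_coe.mp hx)
      have hy' := mem_filter.mp (mem_coe.mp hy)
      have e1 : x.1 = y.1 := by
        rcases lt_trichotomy x.1 y.1 with h | h | h
        · exact absurd ⟨x, hx'.1, h, hxy⟩ hy'.2
        · exact h
        · exact absurd ⟨y, hy'.1, h, hxy.symm⟩ hx'.2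
      have l1 := hlt x hx'.1
      have l2 := hlt y hy'.1
      have hxy' : S b x.1 - S b x.2 = S b y.1 - S b y.2 := hxy
      rw [e1] at hxy' l1
      have e2 : S b x.2 = S b y.2 := by omega
      exact Prod.ext e1 (hb.S_strictMono.injective e2)
  have h1 : (X.filter (fun x => ∃ y, y ∈ X ∧ y.1 < x.1 ∧ F y = F x)).card ≤ L * B := by
    set X1 := X.filter (fun x => ∃ y, y ∈ X ∧ y.1 < x.1 ∧ F y = F x) with hX1
    have hex : ∀ x, x ∈ X1 → ∃ y, y ∈ X ∧ y.1 < x.1 ∧ F y = F x := by
      intro x hx
      exact (mem_filter.mp hx).2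
    choose! y hy using hex
    have facts : ∀ x, x ∈ X1 → K < (y x).1 ∧ (y x).1 ≤ K + M ∧ (y x).1 < x.1 ∧ (y x).2 < x.2 ∧
        x.2 ≤ P ∧ S b x.1 + S b (y x).2 = S b (y x).1 + S b x.2 := by
      intro x hx
      obtain ⟨hy1, hy2, hy3⟩ := hy x hx
      have hxX : x ∈ X := (mem_filter.mp hx).1
      have l1 := hlt x hxX
      have l2 := hlt _ hy1
      have a1 := (memX x).mp hxX
      have a2 := (memX _).mp hy1
      have hF : S b (y x).1 - S b (y x).2 = S b x.1 - S b x.2 := hy3
      have l3 : S b (y x).1 < S b x.1 := hb.S_strictMono hy2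
      have l4 : S b (y x).2 < S b x.2 := by omega
      exact ⟨a2.1, a2.2.1, hy2, hb.S_strictMono.lt_iff_lt.mp l4, a1.2.2, by omega⟩
    let T : Finset (Σ _ : ℕ, ℕ × ℕ) := (Icc 1 L).sigma (fun i => V b P (Rw b K M i))
    have hT : T.card ≤ L * B := by
      rw [card_sigma]
      calc ∑ i ∈ Icc 1 L, (V b P (Rw b K M i)).card ≤ ∑ _i ∈ Icc 1 L, B := by
            apply sum_le_sum
            intro i hi
            have := mem_Icc.mp hi
            exact hB i this.1 this.2
        _ = L * B := by simp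
    refine le_trans ?_ hT
    apply card_le_card_of_injOn
      (fun x => (⟨x.1 - (y x).1, ((y x).2, x.2)⟩ : Σ _ : ℕ, ℕ × ℕ))
    · intro x hx
      obtain ⟨f1, f2, f3, f4, f5, f6⟩ := facts x (mem_coe.mp hx)
      have l5 : S b x.2 ≤ S b P := hb.S_mono f5
      have l6 := hb.le_window K (x.1 - (y x).1) (y x).1 f1.le
      have e : (y x).1 + (x.1 - (y x).1) = x.1 := by omega
      rw [e] at l6
      have l7 : (x.1 - (y x).1) * b K < (L + 1) * b K := by omega
      have l8 : x.1 - (y x).1 < L + 1 := lt_of_mul_lt_mul_right l7 (Nat.zero_le _)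
      simp only [T, coe_sigma, Set.mem_sigma_iff, mem_coe, mem_Icc]
      refine ⟨⟨by omega, by omega⟩, ?_⟩
      rw [mem_V]
      refine ⟨f4, f5, ?_⟩
      have f7 : S b x.1 - S b (y x).1 = S b x.2 - S b (y x).2 := by omega
      change S b x.2 - S b (y x).2 ∈ Rw b K M (x.1 - (y x).1)
      unfold Rw
      rw [mem_image]
      refine ⟨(y x).1 - (K + 1), by rw [mem_range]; omega, ?_⟩
      have e1 : K + 1 + ((y x).1 - (K + 1)) = (y x).1 := by omega
      rw [e1, e]
      exact f7
    · intro x hx x' hx' hg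
      obtain ⟨f1, f2, f3, f4, f5, f6⟩ := facts x (mem_coe.mp hx)
      obtain ⟨f1', f2', f3', f4', f5', f6'⟩ := facts x' (mem_coe.mp hx')
      simp only [Sigma.mk.injEq, heq_eq_eq, Prod.mk.injEq] at hg
      obtain ⟨g1, g2, g3⟩ := hg
      obtain ⟨l, hl1, hl2⟩ : ∃ l, x.1 = (y x).1 + l ∧ x'.1 = (y x').1 + l :=
        ⟨x.1 - (y x).1, by omega, by omega⟩
      have hl3 : 1 ≤ l := by omega
      rw [hl1, g2, g3] at f6
      rw [hl2] at f6'
      have e1 : (y x).1 = (y x').1 := by
        rcases lt_trichotomy (y x).1 (y x').1 with h | h | h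
        · have := hb.window_lt l hl3 h
          omega
        · exact h
        · have := hb.window_lt l hl3 h
          omega
      exact Prod.ext (by omega) g3
  omega

/-- If collisions are under control we get an upper bound for a term. -/
theorem Closed.term_le (hb : Closed b) (K M P L B c : ℕ) (hPK : P ≤ K)
    (hL : S b P < (L + 1) * b K)
    (hB : ∀ i, 1 ≤ i → i ≤ L → (V b P (Rw b K M i)).card ≤ B)
    (hc : c + 1 + L * B ≤ M * (P + 1)) : b c ≤ S b (K + M) := by
  have h := hb.coll K M P L B hPK hL hB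
  exact hb.count (D b K M P) _ (fun d hd => (hb.mem_D_term hPK hd).1)
    (fun d hd => (hb.mem_D_term hPK hd).2) c (by omega)

/-- Version with the trivial bound for the number of coincidences. -/
theorem Closed.term_le_trivial (hb : Closed b) (K M P c : ℕ) (hPK : P ≤ K)
    (h : 2 * (P * S b P) ≤ M * b K) (hc : 2 * (c + 1) ≤ M * (P + 1)) : b c ≤ S b (K + M) := by
  have hK := hb.b_pos K
  set L := S b P / b K with hLdef
  have h1 : S b P < (L + 1) * b K := by
    have := Nat.lt_div_mul_add hK (a := S b P)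
    rw [Nat.add_mul, one_mul]
    exact this
  have h2 : L * b K ≤ S b P := Nat.div_mul_le_self _ _
  -- `2 * L * P ≤ M`
  have h3 : 2 * (P * L) ≤ M := by
    have h4 : 2 * (P * L) * b K ≤ M * b K := by
      calc 2 * (P * L) * b K = 2 * (P * (L * b K)) := by ring
        _ ≤ 2 * (P * S b P) := by gcongr
        _ ≤ M * b K := h
    exact le_of_mul_le_mul_right h4 hK
  apply hb.term_le K M P L (P * P) c hPK h1 (fun i _ _ => card_V_le P _)
  have h5 : 2 * (L * (P * P)) ≤ M * P := by
    calc 2 * (L * (P * P)) = 2 * (P * L) * P := by ring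
      _ ≤ M * P := by gcongr
  nlinarith

/-- Version with the incidence bound. -/
theorem Closed.term_le_inc (hb : Closed b) (K t P c : ℕ) (ht : 1 ≤ t) (htP : t * t ≤ P)
    (hPK : P ≤ K) (h : 10 * S b P ≤ t * b K) (hc : 2 * (c + 1) ≤ t * t * t * (P + 1)) :
    b c ≤ S b (K + t * t * t) := by
  have hK := hb.b_pos K
  set L := S b P / b K with hLdef
  have h1 : S b P < (L + 1) * b K := by
    have := Nat.lt_div_mul_add hK (a := S b P)
    rw [Nat.add_mul, one_mul]
    exact this
  have h2 : L * b K ≤ S b P := Nat.div_mul_le_self _ _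
  have h3 : 10 * L ≤ t := by
    have h4 : 10 * L * b K ≤ t * b K := by
      calc 10 * L * b K = 10 * (L * b K) := by ring
        _ ≤ 10 * S b P := by gcongr
        _ ≤ t * b K := h
    exact le_of_mul_le_mul_right h4 hK
  have htt : 0 < t * t := by positivity
  set l0 := P / (t * t) with hl0
  have hl0pos : 0 < l0 := Nat.div_pos htP htt
  have hl0a : l0 * (t * t) ≤ P := Nat.div_mul_le_self _ _
  have hl0b : P < l0 * (t * t) + t * t := Nat.lt_div_mul_add htt
  have hl0c : P ≤ l0 * (2 * (t * t)) := by nlinarith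
  have h4 : P / l0 ≤ 2 * (t * t) := by
    apply Nat.div_le_of_le_mul
    exact hl0c
  apply hb.term_le K (t * t * t) P L (5 * (t * t) * P) c hPK h1
  · intro i _ _
    have e1 := hb.st P (Rw b K (t * t * t) i) t l0 (by omega) hl0pos
    have e2 := card_Rw_le (b := b) K (t * t * t) i
    have e3 : (Rw b K (t * t * t) i).card / t ≤ t * t := by
      apply Nat.div_le_of_le_mul
      calc (Rw b K (t * t * t) i).card ≤ t * t * t := e2
        _ = t * (t * t) := by ring
    calc (V b P (Rw b K (t * t * t) i)).card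
        ≤ P * ((Rw b K (t * t * t) i).card / t + P / l0 + 1)
          + (Rw b K (t * t * t) i).card * (t * l0) := e1
      _ ≤ P * (t * t + 2 * (t * t) + 1) + (t * t * t) * (t * l0) := by gcongr
      _ = P * (3 * (t * t) + 1) + (t * t) * (l0 * (t * t)) := by ring
      _ ≤ P * (3 * (t * t) + 1) + (t * t) * P := by gcongr
      _ ≤ 5 * (t * t) * P := by nlinarith
  · have h5 : 2 * (L * (5 * (t * t) * P)) ≤ t * t * t * P := by
      calc 2 * (L * (5 * (t * t) * P)) = (10 * L) * (t * t * P) := by ring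
        _ ≤ t * (t * t * P) := by gcongr
        _ = t * t * t * P := by ring
    nlinarith

end Run7.h437
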