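import Pool.Agent.Run7.h437.Basic

/-!
# An elementary incidence bound for differences of a convex sequence

`V b P R` is the set of pairs `p' < p ≤ P` with `S b p - S b p' ∈ R`.  The main result
`Closed.st` bounds its size; with the best choice of the two parameters it says
`|V| ≪ P |R|^(2/3)`.
-/

set_option autoImplicit false

namespace Run7.h437

open Finset

variable {b : ℕ → ℕ}

/-- the pairs `p' < p ≤ P` whose window sum lies in `R` -/
def V (b : ℕ → ℕ) (P : ℕ) (R : Finset ℕ) : Finset (ℕ × ℕ) :=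
  ((range (P + 1)) ×ˢ (range (P + 1))).filter (fun v => v.1 < v.2 ∧ S b v.2 - S b v.1 ∈ R)

lemma mem_V {P : ℕ} {R : Finset ℕ} {v : ℕ × ℕ} :
    v ∈ V b P R ↔ v.1 < v.2 ∧ v.2 ≤ P ∧ S b v.2 - S b v.1 ∈ R := by
  unfold V
  simp only [mem_filter, mem_product, mem_range]
  constructor
  · rintro ⟨⟨h1, h2⟩, h3, h4⟩
    exact ⟨h3, by omega, h4⟩
  · rintro ⟨h1, h2, h3⟩
    exact ⟨⟨by omega, by omega⟩, h1, h3⟩

/-- rank of `m` in `R` -/
def rk (R : Finset ℕ) (m : ℕ) : ℕ := (R.filter (· < m)).card

lemma rk_mono {R : Finset ℕ} {m m' : ℕ} (h : m ≤ m') : rk R m ≤ rk R m' := by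
  apply card_le_card
  intro x hx
  simp only [mem_filter] at hx ⊢
  exact ⟨hx.1, by omega⟩

lemma rk_lt {R : Finset ℕ} {m m' : ℕ} (hm : m ∈ R) (h : m < m') : rk R m < rk R m' := by
  apply card_lt_card
  rw [Finset.ssubset_iff_of_subset]
  · exact ⟨m, by simp [hm, h], by simp⟩
  · intro x hx
    simp only [mem_filter] at hx ⊢
    exact ⟨hx.1, by omega⟩

lemma rk_lt_card {R : Finset ℕ} {m : ℕ} (hm : m ∈ R) : rk R m < R.card := by
  apply card_lt_card
  rw [Finset.ssubset_iff_of_subset (filter_subset _ _)]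
  exact ⟨m, hm, by simp⟩

lemma rk_inj {R : Finset ℕ} {m m' : ℕ} (hm : m ∈ R) (hm' : m' ∈ R) (h : rk R m = rk R m') :
    m = m' := by
  rcases lt_trichotomy m m' with h1 | h1 | h1
  · have := rk_lt hm h1
    omega
  · exact h1
  · have := rk_lt hm' h1
    omega

/-- two quotients adding up to the same total, with monotone numerators -/
lemma box {x x' y y' k l : ℕ} (hk : 0 < k) (hl : 0 < l) (hx : x ≤ x') (hy : y ≤ y')
    (h : x / k + y / l = x' / k + y' / l) : x' < x + k ∧ y' < y + l := by
  have h1 : x / k ≤ x' / k := Nat.div_le_div_right hx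
  have h2 : y / l ≤ y' / l := Nat.div_le_div_right hy
  have h3 : x / k = x' / k := by omega
  have h4 : y / l = y' / l := by omega
  constructor
  · have e1 := Nat.div_add_mod x k
    have e2 := Nat.div_add_mod x' k
    have e3 := Nat.mod_lt x' hk
    rw [← h3] at e2
    omega
  · have e1 := Nat.div_add_mod y l
    have e2 := Nat.div_add_mod y' l
    have e3 := Nat.mod_lt y' hl
    rw [← h4] at e2
    omega

/-- **Incidence bound.** -/
theorem Closed.st (hb : Closed b) (P : ℕ) (R : Finset ℕ) (k0 l0 : ℕ) (hk : 0 < k0)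
    (hl : 0 < l0) :
    (V b P R).card ≤ P * (R.card / k0 + P / l0 + 1) + R.card * (k0 * l0) := by
  classical
  set W := V b P R with hW
  let f : ℕ × ℕ → ℕ × ℕ := fun v => (v.1, rk R (S b v.2 - S b v.1) / k0 + v.2 / l0)
  have hsplit := card_filter_add_card_filter_not (s := W)
    (fun v => ∃ w, w ∈ W ∧ f w = f v ∧ w.2 < v.2)
  have h0 : (W.filter (fun v => ¬ ∃ w, w ∈ W ∧ f w = f v ∧ w.2 < v.2)).card
      ≤ P * (R.card / k0 + P / l0 + 1) := by
    have : (W.filter (fun v => ¬ ∃ w, w ∈ W ∧ f w = f v ∧ w.2 < v.2)).card ≤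
        ((range P) ×ˢ (range (R.card / k0 + P / l0 + 1))).card := by
      apply card_le_card_of_injOn f
      · intro v hv
        have hv' : v ∈ W := (mem_filter.mp (mem_coe.mp hv)).1
        rw [hW, mem_V] at hv'
        simp only [coe_product, coe_range, Set.mem_prod, Set.mem_Iio, f]
        refine ⟨by omega, ?_⟩
        have h1 : rk R (S b v.2 - S b v.1) / k0 ≤ R.card / k0 :=
          Nat.div_le_div_right (rk_lt_card hv'.2.2).le
        have h2 : v.2 / l0 ≤ P / l0 := Nat.div_le_div_right hv'.2.1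
        omega
      · intro v hv w hw hvw
        have hv' := mem_filter.mp (mem_coe.mp hv)
        have hw' := mem_filter.mp (mem_coe.mp hw)
        have e1 : v.1 = w.1 := (Prod.mk.inj hvw).1
        have e2 : v.2 = w.2 := by
          rcases lt_trichotomy v.2 w.2 with h | h | h
          · exact absurd ⟨v, hv'.1, hvw, h⟩ hw'.2
          · exact h
          · exact absurd ⟨w, hw'.1, hvw.symm, h⟩ hv'.2
        exact Prod.ext e1 e2
    simpa using this
  have h1 : (W.filter (fun v => ∃ w, w ∈ W ∧ f w = f v ∧ w.2 < v.2)).card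
      ≤ R.card * (k0 * l0) := by
    set W1 := W.filter (fun v => ∃ w, w ∈ W ∧ f w = f v ∧ w.2 < v.2) with hW1
    have hex : ∀ v, v ∈ W1 → ∃ w, w ∈ W ∧ f w = f v ∧ w.2 < v.2 := by
      intro v hv
      exact (mem_filter.mp hv).2
    choose! w hw using hex
    -- facts about `v ∈ W1`
    have facts : ∀ v, v ∈ W1 → (w v).1 = v.1 ∧ v.1 < (w v).2 ∧ (w v).2 < v.2 ∧
        S b (w v).2 - S b v.1 ∈ R ∧ S b v.2 - S b v.1 ∈ R ∧
        S b v.1 < S b (w v).2 ∧ S b (w v).2 < S b v.2 ∧
        rk R (S b (w v).2 - S b v.1) < rk R (S b v.2 - S b v.1) ∧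
        rk R (S b v.2 - S b v.1) < rk R (S b (w v).2 - S b v.1) + k0 ∧
        v.2 < (w v).2 + l0 := by
      intro v hv
      obtain ⟨hw1, hw2, hw3⟩ := hw v hv
      have hvW : v ∈ W := (mem_filter.mp hv).1
      rw [hW, mem_V] at hvW hw1
      have e1 : (w v).1 = v.1 := (Prod.mk.inj hw2).1
      have e2 : rk R (S b (w v).2 - S b (w v).1) / k0 + (w v).2 / l0 =
          rk R (S b v.2 - S b v.1) / k0 + v.2 / l0 := (Prod.mk.inj hw2).2
      rw [e1] at e2 hw1
      have s1 : S b v.1 < S b (w v).2 := hb.S_strictMono hw1.1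
      have s2 : S b (w v).2 < S b v.2 := hb.S_strictMono hw3
      have r1 : rk R (S b (w v).2 - S b v.1) < rk R (S b v.2 - S b v.1) :=
        rk_lt hw1.2.2 (by omega)
      obtain ⟨b1, b2⟩ := box hk hl r1.le hw3.le e2
      exact ⟨e1, hw1.1, hw3, hw1.2.2, hvW.2.2, s1, s2, r1, b1, b2⟩
    let g : ℕ × ℕ → ℕ × (ℕ × ℕ) := fun v =>
      (rk R (S b (w v).2 - S b v.1),
        (rk R (S b v.2 - S b v.1) - rk R (S b (w v).2 - S b v.1), v.2 - (w v).2))
    have : W1.card ≤ ((range R.card) ×ˢ ((range k0) ×ˢ (range l0))).card := by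
      apply card_le_card_of_injOn g
      · intro v hv
        obtain ⟨-, -, -, m1, m2, -, -, r1, b1, b2⟩ := facts v (mem_coe.mp hv)
        have := rk_lt_card m1
        simp only [coe_product, coe_range, Set.mem_prod, Set.mem_Iio, g]
        refine ⟨this, ?_, ?_⟩ <;> omega
      · intro v hv v' hv' hg
        obtain ⟨-, a1, a2, m1, m2, s1, s2, r1, b1, b2⟩ := facts v (mem_coe.mp hv)
        obtain ⟨-, a1', a2', m1', m2', s1', s2', r1', b1', b2'⟩ := facts v' (mem_coe.mp hv')
        have g1 : rk R (S b (w v).2 - S b v.1) = rk R (S b (w v').2 - S b v'.1) :=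
          (Prod.mk.inj hg).1
        have g23 := Prod.mk.inj (Prod.mk.inj hg).2
        have g2 : rk R (S b v.2 - S b v.1) - rk R (S b (w v).2 - S b v.1) =
            rk R (S b v'.2 - S b v'.1) - rk R (S b (w v').2 - S b v'.1) := g23.1
        have g3 : v.2 - (w v).2 = v'.2 - (w v').2 := g23.2
        have q1 := rk_inj m1 m1' g1
        have q2 := rk_inj m2 m2' (by omega)
        -- the two short windows have the same length and the same sum
        obtain ⟨l, hl1, hl2⟩ : ∃ l, v.2 = (w v).2 + l ∧ v'.2 = (w v').2 + l :=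
          ⟨v.2 - (w v).2, by omega, by omega⟩
        have hl3 : 1 ≤ l := by omega
        have hsum : S b ((w v).2 + l) + S b (w v').2 = S b ((w v').2 + l) + S b (w v).2 := by
          rw [← hl1, ← hl2]
          omega
        have e1 : (w v).2 = (w v').2 := by
          rcases lt_trichotomy (w v).2 (w v').2 with h | h | h
          · have := hb.window_lt l hl3 h
            omega
          · exact h
          · have := hb.window_lt l hl3 h
            omega
        have e2 : v.2 = v'.2 := by omega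
        have e3 : S b v.1 = S b v'.1 := by
          rw [e1] at s1 q1
          omega
        have e4 : v.1 = v'.1 := hb.S_strictMono.injective e3
        exact Prod.ext e4 e2
    simpa using this
  omega

/-- trivial bound -/
lemma card_V_le (P : ℕ) (R : Finset ℕ) : (V b P R).card ≤ P * P := by
  have : (V b P R).card ≤ ((range P) ×ˢ (range P)).card := by
    apply card_le_card_of_injOn (fun v => (v.1, v.2 - 1))
    · intro v hv
      have := mem_V.mp (mem_coe.mp hv)
      simp only [coe_product, coe_range, Set.mem_prod, Set.mem_Iio]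
      omega
    · intro v hv w hw h
      have h1 := mem_V.mp (mem_coe.mp hv)
      have h2 := mem_V.mp (mem_coe.mp hw)
      simp only [Prod.mk.injEq] at h
      exact Prod.ext h.1 (by omega)
  simpa using this

end Run7.h437
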