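import Pool.Agent.Run7.h437.LbKey

/-!
# A missing number in `(m, 8 m^4]`
-/

set_option autoImplicit false

namespace Run7.h437

open Finset

lemma pow_two_window (j L K : ℕ) (h : L * K = 2 ^ j) (hodd : Odd (L + K)) (h2 : 2 ≤ L)
    (hLK : L < K) : False := by
  obtain ⟨i, _, hi⟩ := (Nat.dvd_prime_pow Nat.prime_two).mp (⟨K, by rw [← h]⟩ : L ∣ 2 ^ j)
  obtain ⟨i', _, hi'⟩ := (Nat.dvd_prime_pow Nat.prime_two).mp
    (⟨L, by rw [← h]; ring⟩ : K ∣ 2 ^ j)
  have h1 : i ≠ 0 := by rintro rfl; simp at hi; omega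
  have h1' : i' ≠ 0 := by rintro rfl; simp at hi'; omega
  have e1 : Even L := by rw [hi]; exact Nat.even_pow.mpr ⟨even_two, h1⟩
  have e2 : Even K := by rw [hi']; exact Nat.even_pow.mpr ⟨even_two, h1'⟩
  exact absurd (e1.add e2) (Nat.not_even_iff_odd.mpr hodd)

theorem pow_gap {T : Set ℕ} (hT : Rep T) (m : ℕ) (hm : 1 ≤ m) :
    ∃ z, z ∉ T ∧ m < z ∧ z ≤ 8 * m ^ 4 := by
  set k := Nat.log 2 (m ^ 2) + 1 with hk
  have hk1 : m ^ 2 < 2 ^ k := Nat.lt_pow_succ_log_self (by norm_num) _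
  have hk2 : 2 ^ k ≤ 2 * m ^ 2 := by
    have : 2 ^ Nat.log 2 (m ^ 2) ≤ m ^ 2 := Nat.pow_log_le_self 2 (by positivity)
    rw [hk, pow_succ]; omega
  set N := 2 ^ (2 * k + 1) with hN
  have hNsq : N = 2 * (2 ^ k) ^ 2 := by rw [hN]; ring
  have hN8 : N ≤ 8 * m ^ 4 := by
    rw [hNsq]
    calc 2 * (2 ^ k) ^ 2 ≤ 2 * (2 * m ^ 2) ^ 2 := by gcongr
      _ = 8 * m ^ 4 := by ring
  have hmm : m ≤ m ^ 2 := Nat.le_self_pow (by norm_num) m
  have hmN : m < N := by
    rw [hNsq]; nlinarith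
  by_contra hcon
  push Not at hcon
  have hall : ∀ t, m < t → t ≤ N → t ∈ T := by
    intro t ht1 ht2
    by_contra h
    have := hcon t h ht1
    omega
  have hk0 : 2 ≤ 2 ^ k := by
    have : 1 ≤ m ^ 2 := Nat.one_le_pow _ _ hm
    omega
  have hN3 : 3 ≤ N := by rw [hNsq]; nlinarith
  obtain ⟨u, v, hu, hv, huv, hsum⟩ := hT.rep N (hall N hmN le_rfl) hN3
  have hvN : v ≤ N := by
    rw [← hsum]
    exact Finset.single_le_sum (f := fun t => t) (fun _ _ => Nat.zero_le _)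
      (mem_elts.mpr ⟨⟨huv.le, le_rfl⟩, hv⟩)
  have hu1 : 1 ≤ u := by
    rcases Nat.eq_zero_or_pos u with h0 | h0
    · exact absurd (h0 ▸ hu) hT.zero
    · exact h0
  have hw := window T u v huv.le
  rw [hsum] at hw
  rcases Nat.lt_or_ge m u with hc | hc
  · have hempty : miss T u v = ∅ := by
      rw [Finset.eq_empty_iff_forall_notMem]
      intro z hz
      have := mem_miss.mp hz
      exact this.2 (hall z (by omega) (by omega))
    rw [hempty, Finset.sum_empty] at hw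
    have h3 : (v + 1 - u) * (u + v) = 2 ^ (2 * k + 2) := by
      rw [hw, hN]; ring
    obtain ⟨l, rfl⟩ := Nat.exists_eq_add_of_le huv.le
    have eL : u + l + 1 - u = l + 1 := by omega
    rw [eL] at h3
    exact pow_two_window _ _ _ h3 ⟨u + l, by ring⟩ (by omega) (by omega)
  · -- `u ≤ m`
    have hM : 2 * ∑ t ∈ miss T u v, t ≤ (m + 1 - u) * (u + m) := by
      rw [← gauss u m hc]
      apply Nat.mul_le_mul_left
      apply Finset.sum_le_sum_of_subset
      intro z hz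
      have := mem_miss.mp hz
      rw [mem_Icc]
      refine ⟨this.1.1, ?_⟩
      by_contra h
      push Not at h
      exact this.2 (hall z h (by omega))
    obtain ⟨l, rfl⟩ := Nat.exists_eq_add_of_le huv.le
    obtain ⟨w, rfl⟩ := Nat.exists_eq_add_of_le hc
    have eL : u + l + 1 - u = l + 1 := by omega
    have eL' : u + w + 1 - u = w + 1 := by omega
    rw [eL] at hw
    rw [eL'] at hM
    set M := ∑ t ∈ miss T u (u + l), t with hMdef
    obtain ⟨y, hy⟩ : ∃ y, y = 2 ^ k := ⟨_, rfl⟩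
    rw [← hy] at hk1 hNsq hk0
    -- in integers
    have i1 : ((l : ℤ) + 1) * (u + (u + l)) = 2 * N + 2 * M := by exact_mod_cast hw
    have i2 : (2 : ℤ) * M ≤ (w + 1) * (u + (u + w)) := by exact_mod_cast hM
    have i3 : (N : ℤ) = 2 * y ^ 2 := by exact_mod_cast hNsq
    have i4 : ((u : ℤ) + w) ^ 2 < y := by exact_mod_cast hk1
    have i5 : (1 : ℤ) ≤ u := by exact_mod_cast hu1
    have i6 : (0 : ℤ) ≤ w := by positivity
    have i7 : (0 : ℤ) ≤ M := by positivity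
    have i8 : (0 : ℤ) ≤ l := by positivity
    have i9 : (2 : ℤ) ≤ y := by exact_mod_cast hk0
    -- R = 2M + u(u-1)
    have j1 : (2 * ((u : ℤ) + l) + 1) ^ 2 = (4 * y) ^ 2 + 4 * (2 * M + u * (u - 1)) + 1 := by
      have : (2 * ((u : ℤ) + l) + 1) ^ 2 = 4 * (((l : ℤ) + 1) * (u + (u + l))) +
          4 * (u * (u - 1)) + 1 := by ring
      rw [this, i1, i3]
      ring
    have j2 : 2 * (M : ℤ) + u * (u - 1) ≤ 2 * (u + w) ^ 2 := by
      have : ((w : ℤ) + 1) * (u + (u + w)) + u * (u - 1) = (u + w) * (u + w + 1) := by ring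
      nlinarith
    have j3 : 0 ≤ 2 * (M : ℤ) + u * (u - 1) := by nlinarith
    have j4 : 4 * (y : ℤ) + 1 ≤ 2 * (u + l) + 1 := by
      by_contra h
      push Not at h
      have h' : 2 * ((u : ℤ) + l) + 1 ≤ 4 * y := by omega
      have : (2 * ((u : ℤ) + l) + 1) ^ 2 ≤ (4 * y) ^ 2 := by
        apply pow_le_pow_left₀ (by positivity) h'
      nlinarith
    have j5 : (4 * (y : ℤ) + 1) ^ 2 ≤ (2 * (u + l) + 1) ^ 2 :=
      pow_le_pow_left₀ (by positivity) j4 2
    nlinarith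

end Run7.h437
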