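import Pool.Agent.Run7.h437.LbGap
import Pool.Agent.Run7.h437.LbPow

/-!
# At least `(1/200) log x / log log x` missing numbers up to `x`
-/

set_option autoImplicit false

namespace Run7.h437

open Finset

/-- the largest missing number up to `y` -/
lemma exists_last_missing {T : Set ℕ} {z y : ℕ} (hz1 : 1 ≤ z) (hzT : z ∉ T) (hzy : z ≤ y) :
    ∃ μ, μ ∉ T ∧ z ≤ μ ∧ μ ≤ y ∧ ∀ t, μ < t → t ≤ y → t ∈ T := by
  classical
  have hne : (miss T 1 y).Nonempty := ⟨z, mem_miss.mpr ⟨⟨hz1, hzy⟩, hzT⟩⟩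
  set μ := (miss T 1 y).max' hne with hμ
  have hmem : μ ∈ miss T 1 y := Finset.max'_mem _ _
  have hmax : ∀ w ∈ miss T 1 y, w ≤ μ := fun w hw => Finset.le_max' _ w hw
  have hmem' := mem_miss.mp hmem
  refine ⟨μ, hmem'.2, hmax z (mem_miss.mpr ⟨⟨hz1, hzy⟩, hzT⟩), hmem'.1.2, ?_⟩
  intro t ht1 ht2
  by_contra h
  have := hmax t (mem_miss.mpr ⟨⟨by omega, ht2⟩, h⟩)
  omega

/-- one step of the chain -/
lemma chain_step (n0 : ℕ)
    (hgap : ∀ T : Set ℕ, Rep T → ∀ μ n : ℕ, μ ∉ T → n0 ≤ n →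
      Real.log μ ≤ n → (n : ℝ) ≤ Real.log μ + 1 →
      (∀ t, μ < t → t ≤ 4 * μ * n ^ 32 → t ∈ T) →
      n < (miss T 1 (4 * μ ^ 2 * n ^ 24)).card)
    {T : Set ℕ} (hT : Rep T) (z y nx X : ℕ) (hz1 : 1 ≤ z) (hzT : z ∉ T) (hzy : z ≤ y)
    (hz0 : (n0 : ℝ) ≤ Real.log z) (hnx : Real.log y + 1 ≤ nx)
    (hX : 4 * y ^ 2 * nx ^ 24 ≤ X) (hcard : ((miss T 1 X).card : ℝ) < Real.log z) :
    ∃ w, w ∉ T ∧ y < w ∧ w ≤ y * (4 * nx ^ 32) := by
  obtain ⟨μ, hμT, hzμ, hμy, hrun⟩ := exists_last_missing hz1 hzT hzy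
  by_contra hcon
  push Not at hcon
  have hzR : (0 : ℝ) < z := by exact_mod_cast hz1
  have hμR : (z : ℝ) ≤ μ := by exact_mod_cast hzμ
  have hyR : (μ : ℝ) ≤ y := by exact_mod_cast hμy
  have hlz : Real.log z ≤ Real.log μ := Real.log_le_log hzR hμR
  have hly : Real.log μ ≤ Real.log y := Real.log_le_log (by linarith) hyR
  have hn0 : (0 : ℝ) ≤ n0 := by positivity
  set n := ⌈Real.log μ⌉₊ with hn
  have h1 : Real.log μ ≤ n := Nat.le_ceil _
  have h2 : (n : ℝ) ≤ Real.log μ + 1 := (Nat.ceil_lt_add_one (by linarith)).le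
  have h3 : n ≤ nx := by
    have : (n : ℝ) ≤ nx := by linarith
    exact_mod_cast this
  have h4 : n0 ≤ n := by
    have : (n0 : ℝ) ≤ n := by linarith
    exact_mod_cast this
  have h5 := hgap T hT μ n hμT h4 h1 h2 (by
    intro t ht1 ht2
    rcases Nat.lt_or_ge y t with hc | hc
    · by_contra h
      have h6 := hcon t h hc
      have h7 : 4 * μ * n ^ 32 ≤ y * (4 * nx ^ 32) := by
        calc 4 * μ * n ^ 32 ≤ 4 * y * nx ^ 32 := by gcongr
          _ = y * (4 * nx ^ 32) := by ring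
      omega
    · exact hrun t ht1 hc)
  have h6 : 4 * μ ^ 2 * n ^ 24 ≤ X := by
    refine le_trans ?_ hX
    gcongr
  have h7 : (miss T 1 (4 * μ ^ 2 * n ^ 24)).card ≤ (miss T 1 X).card :=
    Finset.card_le_card (miss_mono le_rfl h6)
  have h8 : (n : ℝ) < ((miss T 1 X).card : ℝ) := by exact_mod_cast lt_of_lt_of_le h5 h7
  linarith

/-- iterating the step -/
lemma chain_count {T : Set ℕ} (z W K X : ℕ) (hW : 1 ≤ W)
    (hKX : z * W ^ K ≤ X)
    (hstep : ∀ k < K, ∃ w, w ∉ T ∧ z * W ^ k < w ∧ w ≤ z * W ^ (k + 1)) :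
    K ≤ (miss T 1 X).card := by
  classical
  choose! w hw1 hw2 hw3 using hstep
  have hmono : ∀ i j, i ≤ j → z * W ^ i ≤ z * W ^ j := fun i j hij =>
    Nat.mul_le_mul_left _ (Nat.pow_le_pow_right hW hij)
  have : (range K).card ≤ (miss T 1 X).card := by
    apply Finset.card_le_card_of_injOn w
    · intro k hk
      rw [Finset.mem_coe, mem_range] at hk
      rw [Finset.mem_coe, mem_miss]
      have h1 := hw2 k hk
      have h2 := hw3 k hk
      have h3 := hmono (k + 1) K (by omega)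
      exact ⟨⟨by omega, by omega⟩, hw1 k hk⟩
    · intro i hi j hj hij
      rw [Finset.mem_coe, mem_range] at hi hj
      rcases lt_trichotomy i j with h | h | h
      · exfalso
        have h1 := hw3 i hi
        have h2 := hw2 j hj
        have h3 := hmono (i + 1) j (by omega)
        omega
      · exact h
      · exfalso
        have h1 := hw3 j hj
        have h2 := hw2 i hi
        have h3 := hmono (j + 1) i (by omega)
        omega
  simpa using this

lemma growth2 : ∃ s0 : ℝ, ∀ s : ℝ, s0 ≤ s → s ^ 25 ≤ Real.exp s := by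
  have h1 := Real.tendsto_pow_mul_exp_neg_atTop_nhds_zero 25
  have h2 : ∀ᶠ x : ℝ in Filter.atTop, x ^ 25 * Real.exp (-x) < 1 :=
    h1.eventually_lt_const one_pos
  obtain ⟨s0, hs0⟩ := h2.exists_forall_of_atTop
  refine ⟨s0, fun s hs => ?_⟩
  have h4 := hs0 s hs
  have h5 : s ^ 25 * Real.exp (-s) * Real.exp s ≤ 1 * Real.exp s := by
    gcongr
  rw [mul_assoc, ← Real.exp_add] at h5
  simpa using h5

theorem missing_lower : ∃ N0 : ℕ, ∀ T : Set ℕ, Rep T → ∀ x : ℕ, N0 ≤ x →
    1 / 200 * (Real.log x / Real.log (Real.log x)) ≤ ((miss T 1 x).card : ℝ) := by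
  obtain ⟨n0, hgap⟩ := gap_many
  obtain ⟨s0, hs0⟩ := growth2
  set l0 : ℝ := 40 * n0 + 3 * |s0| + 2 ^ 80 with hl0
  refine ⟨⌈Real.exp l0⌉₊, ?_⟩
  intro T hT x hx
  have hxR : Real.exp l0 ≤ x := (Nat.le_ceil _).trans (by exact_mod_cast hx)
  have hxpos : (0 : ℝ) < x := lt_of_lt_of_le (Real.exp_pos _) hxR
  set l := Real.log x with hl
  have hll : l0 ≤ l := by rw [hl, Real.le_log_iff_exp_le hxpos]; exact hxR
  have hexl : Real.exp l = x := Real.exp_log hxpos
  have habs : s0 ≤ |s0| := le_abs_self _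
  have habs0 : 0 ≤ |s0| := abs_nonneg _
  have hn0 : (0 : ℝ) ≤ n0 := by positivity
  have hbig : (2 : ℝ) ^ 80 ≤ l := by rw [hl0] at hll; linarith
  have hlpos : 0 < l := lt_of_lt_of_le (by norm_num) hbig
  -- log l
  have hlogl : 1 ≤ Real.log l := by
    rw [Real.le_log_iff_exp_le hlpos]
    have := Real.exp_one_lt_d9
    have : (2.7182818286 : ℝ) ≤ 2 ^ 80 := by norm_num
    linarith
  have hloglle : Real.log l ≤ 2 * Real.sqrt l := by
    have h1 : Real.log l = 2 * Real.log (Real.sqrt l) := by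
      rw [Real.log_sqrt hlpos.le]; ring
    have h2 := Real.log_le_sub_one_of_pos (Real.sqrt_pos.mpr hlpos)
    rw [h1]; linarith
  have hsqrt : (2 : ℝ) ^ 40 ≤ Real.sqrt l := by
    apply Real.le_sqrt_of_sq_le
    calc ((2 : ℝ) ^ 40) ^ 2 = 2 ^ 80 := by norm_num
      _ ≤ l := hbig
  have hratio : (2 : ℝ) ^ 39 ≤ l / Real.log l := by
    rw [le_div_iff₀ (by linarith)]
    calc (2 : ℝ) ^ 39 * Real.log l ≤ 2 ^ 39 * (2 * Real.sqrt l) := by gcongr
      _ = 2 ^ 40 * Real.sqrt l := by ring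
      _ ≤ Real.sqrt l * Real.sqrt l := by gcongr
      _ = l := Real.mul_self_sqrt hlpos.le
  by_contra hcon
  push Not at hcon
  -- the starting missing number
  set m := ⌊Real.exp (l / 40)⌋₊ with hm
  have hm1 : 1 ≤ m := by
    rw [hm, Nat.one_le_floor_iff]
    exact Real.one_le_exp (by positivity)
  obtain ⟨z, hzT, hmz, hz8⟩ := pow_gap hT m hm1
  have hz1 : 1 ≤ z := by omega
  have hzR : (0 : ℝ) < z := by exact_mod_cast hz1
  have hlz1 : l / 40 ≤ Real.log z := by
    rw [Real.le_log_iff_exp_le hzR]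
    have h1 : Real.exp (l / 40) < m + 1 := Nat.lt_floor_add_one _
    have h2 : (m : ℝ) + 1 ≤ z := by exact_mod_cast hmz
    linarith
  have hlz2 : Real.log z ≤ l / 10 + 3 := by
    rw [Real.log_le_iff_le_exp hzR]
    have h1 : (m : ℝ) ≤ Real.exp (l / 40) := Nat.floor_le (Real.exp_pos _).le
    have h2 : (z : ℝ) ≤ 8 * (m : ℝ) ^ 4 := by exact_mod_cast hz8
    calc (z : ℝ) ≤ 8 * (m : ℝ) ^ 4 := h2
      _ ≤ 8 * (Real.exp (l / 40)) ^ 4 := by gcongr
      _ = 8 * Real.exp (l / 10) := by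
          rw [← Real.exp_nat_mul]; congr 2; push_cast; ring
      _ ≤ Real.exp 3 * Real.exp (l / 10) := by
          gcongr
          have h3 := Real.exp_one_gt_d9
          have h4 : Real.exp 3 = Real.exp 1 ^ 3 := by rw [← Real.exp_nat_mul]; norm_num
          rw [h4]
          calc (8 : ℝ) ≤ 2 ^ 3 := by norm_num
            _ ≤ Real.exp 1 ^ 3 := by gcongr; linarith
      _ = Real.exp (l / 10 + 3) := by rw [← Real.exp_add]; ring_nf
  -- nx and W
  set nx := ⌈l⌉₊ with hnx
  have hnx1 : l ≤ nx := Nat.le_ceil _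
  have hnx2 : (nx : ℝ) ≤ l + 1 := (Nat.ceil_lt_add_one hlpos.le).le
  have hnx3 : (nx : ℝ) ≤ 2 * l := by linarith [show (1:ℝ) ≤ 2^80 by norm_num]
  set W := 4 * nx ^ 32 with hW
  have hnxpos : 0 < nx := by
    have : (0 : ℝ) < nx := by linarith
    exact_mod_cast this
  have hWpos : 1 ≤ W := by
    rw [hW]
    have : 0 < nx ^ 32 := by positivity
    omega
  have hlogW : Real.log W ≤ 33 * Real.log l := by
    have h1 : (W : ℝ) ≤ l ^ 33 := by
      rw [hW]
      push_cast
      calc 4 * (nx : ℝ) ^ 32 ≤ 4 * (2 * l) ^ 32 := by gcongr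
        _ = 2 ^ 34 * l ^ 32 := by ring
        _ ≤ l * l ^ 32 := by
            gcongr
            exact le_trans (by norm_num) hbig
        _ = l ^ 33 := by ring
    have h2 : Real.log W ≤ Real.log (l ^ 33) :=
      Real.log_le_log (by exact_mod_cast hWpos) h1
    rw [Real.log_pow] at h2
    push_cast at h2
    exact h2
  have hlogW0 : 0 < Real.log W := by
    apply Real.log_pos
    have : 1 < W := by
      rw [hW]
      have : 0 < nx ^ 32 := by positivity
      omega
    exact_mod_cast this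
  -- number of steps
  set K := ⌊(l / 3 - Real.log z) / Real.log W⌋₊ with hK
  have hnum : 2 / 9 * l ≤ l / 3 - Real.log z := by
    have : (1000 : ℝ) ≤ l := le_trans (by norm_num) hbig
    linarith
  have hKle : (K : ℝ) * Real.log W ≤ l / 3 - Real.log z := by
    have h1 : (K : ℝ) ≤ (l / 3 - Real.log z) / Real.log W := by
      apply Nat.floor_le
      apply div_nonneg _ hlogW0.le
      linarith
    rwa [le_div_iff₀ hlogW0] at h1
  have hKge : 2 / 297 * (l / Real.log l) - 1 ≤ K := by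
    have h1 : (l / 3 - Real.log z) / Real.log W < K + 1 := Nat.lt_floor_add_one _
    have h2 : 2 / 297 * (l / Real.log l) ≤ (l / 3 - Real.log z) / Real.log W := by
      calc 2 / 297 * (l / Real.log l) = (2 / 9 * l) / (33 * Real.log l) := by
            field_simp; ring
        _ ≤ (l / 3 - Real.log z) / Real.log W := by
            apply div_le_div₀ (by linarith) hnum hlogW0 hlogW
    linarith
  have hzW : ∀ k, k ≤ K → Real.log ((z * W ^ k : ℕ) : ℝ) ≤ l / 3 := by
    intro k hk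
    push_cast
    rw [Real.log_mul hzR.ne' (by positivity), Real.log_pow]
    have : (k : ℝ) * Real.log W ≤ K * Real.log W := by
      gcongr
    linarith
  have hzWexp : ∀ k, k ≤ K → ((z * W ^ k : ℕ) : ℝ) ≤ Real.exp (l / 3) := by
    intro k hk
    rw [← Real.log_le_iff_le_exp]
    · exact hzW k hk
    · have : 0 < z * W ^ k := Nat.mul_pos hz1 (by positivity)
      exact_mod_cast this
  have hstep : ∀ k < K, ∃ w, w ∉ T ∧ z * W ^ k < w ∧ w ≤ z * W ^ (k + 1) := by
    intro k hk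
    have hy1 : 1 ≤ W ^ k := Nat.one_le_pow _ _ hWpos
    obtain ⟨w, hw1, hw2, hw3⟩ := chain_step n0 hgap hT z (z * W ^ k) nx x hz1 hzT
      (Nat.le_mul_of_pos_right _ hy1)
      (by
        rw [hl0] at hll
        have : (n0 : ℝ) ≤ l / 40 := by
          have : (0 : ℝ) < 2 ^ 80 := by norm_num
          linarith
        linarith)
      (by
        have h1 := hzW k hk.le
        have : (1000 : ℝ) ≤ l := le_trans (by norm_num) hbig
        linarith)
      (by
        have h1 := hzWexp k hk.le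
        have h2 : ((4 * (z * W ^ k) ^ 2 * nx ^ 24 : ℕ) : ℝ) ≤ x := by
          have e1 : ((4 * (z * W ^ k) ^ 2 * nx ^ 24 : ℕ) : ℝ) =
              4 * (((z * W ^ k : ℕ) : ℝ)) ^ 2 * (nx : ℝ) ^ 24 := by push_cast; ring
          rw [e1]
          calc 4 * (((z * W ^ k : ℕ) : ℝ)) ^ 2 * (nx : ℝ) ^ 24 ≤
                4 * (Real.exp (l / 3)) ^ 2 * (2 * l) ^ 24 := by gcongr
            _ = (4 * 6 ^ 24 * (l / 3) ^ 24) * (Real.exp (l / 3)) ^ 2 := by ring
            _ ≤ ((l / 3) * (l / 3) ^ 24) * (Real.exp (l / 3)) ^ 2 := by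
                gcongr
                have : (3 * (4 * 6 ^ 24) : ℝ) ≤ 2 ^ 80 := by norm_num
                linarith
            _ = (l / 3) ^ 25 * (Real.exp (l / 3)) ^ 2 := by ring
            _ ≤ Real.exp (l / 3) * (Real.exp (l / 3)) ^ 2 := by
                gcongr
                apply hs0
                rw [hl0] at hll
                have : (0 : ℝ) < 2 ^ 80 := by norm_num
                linarith
            _ = Real.exp l := by
                rw [← pow_succ', ← Real.exp_nat_mul]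
                congr 1; push_cast; ring
            _ = x := hexl
        exact_mod_cast h2)
      (by
        have h1 : 1 / 200 * (l / Real.log l) ≤ l / 200 := by
          have : l / Real.log l ≤ l := div_le_self hlpos.le hlogl
          linarith
        linarith)
    refine ⟨w, hw1, hw2, ?_⟩
    calc w ≤ z * W ^ k * (4 * nx ^ 32) := hw3
      _ = z * W ^ (k + 1) := by rw [pow_succ, hW]; ring
  have hKX : z * W ^ K ≤ x := by
    have h1 := hzWexp K le_rfl
    have h2 : Real.exp (l / 3) ≤ x := by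
      rw [← hexl]
      apply Real.exp_le_exp.mpr
      linarith
    exact_mod_cast h1.trans h2
  have hfin := chain_count z W K x hWpos hKX hstep
  have hfinR : (K : ℝ) ≤ ((miss T 1 x).card : ℝ) := by exact_mod_cast hfin
  have h39 : (1000 : ℝ) ≤ l / Real.log l := le_trans (by norm_num) hratio
  linarith

end Run7.h437
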