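import Mathlib

/-!
# Two elementary facts on the divisor function

`tau n` is the number of divisors. `moment`: `∑_{d ≤ D} tau(d)^3 / d ≤ (1 + log D)^8`.
`landreau`: if `n ≤ D^3` then `tau n ≤ 4 ∑_{d ∣ n, d ≤ D} tau(d)^3`.
-/

set_option autoImplicit false

namespace Run7.h437

open Finset

/-- number of divisors -/
def tau (n : ℕ) : ℕ := n.divisors.card

lemma tau_mul_le (m n : ℕ) : tau (m * n) ≤ tau m * tau n := by
  classical
  unfold tau
  rw [Nat.divisors_mul]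
  exact Finset.card_mul_le

lemma tau_one : tau 1 = 1 := by simp [tau]

lemma tau_prime {p : ℕ} (hp : p.Prime) : tau p = 2 := by
  unfold tau
  rw [hp.divisors, Finset.card_pair hp.one_lt.ne]

lemma tau_pos {n : ℕ} (hn : 0 < n) : 1 ≤ tau n := by
  unfold tau
  exact Finset.card_pos.mpr ⟨1, by simp [hn.ne']⟩

/-- the `j`-th moment -/
noncomputable def mom (j D : ℕ) : ℝ := ∑ d ∈ Icc 1 D, (tau d : ℝ) ^ j / d

lemma mom_zero (D : ℕ) : mom 0 D ≤ 1 + Real.log D := by
  have h := harmonic_le_one_add_log D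
  unfold mom
  rw [harmonic_eq_sum_Icc] at h
  push_cast at h
  simpa using h

lemma mom_nonneg (j D : ℕ) : 0 ≤ mom j D := by
  unfold mom
  positivity

lemma mom_succ (j D : ℕ) : mom (j + 1) D ≤ mom j D ^ 2 := by
  classical
  set s : Finset (ℕ × ℕ) := (Icc 1 D ×ˢ Icc 1 D).filter (fun x => x.1 * x.2 ≤ D) with hs
  have h1 : ∀ d ∈ Icc 1 D, s.filter (fun x => x.1 * x.2 = d) = d.divisorsAntidiagonal := by
    intro d hd
    rw [mem_Icc] at hd
    ext ⟨e, f⟩
    simp only [hs, mem_filter, mem_product, mem_Icc, Nat.mem_divisorsAntidiagonal]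
    constructor
    · rintro ⟨⟨⟨⟨h1, h2⟩, h3, h4⟩, h5⟩, h6⟩
      exact ⟨h6, by omega⟩
    · rintro ⟨h1, h2⟩
      have he : 1 ≤ e := by
        rcases Nat.eq_zero_or_pos e with h | h
        · subst h; simp at h1; omega
        · exact h
      have hf : 1 ≤ f := by
        rcases Nat.eq_zero_or_pos f with h | h
        · subst h; simp at h1; omega
        · exact h
      have h7 : e ≤ d := by rw [← h1]; exact Nat.le_mul_of_pos_right _ hf
      have h8 : f ≤ d := by rw [← h1]; exact Nat.le_mul_of_pos_left _ he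
      refine ⟨⟨⟨⟨he, by omega⟩, hf, by omega⟩, by omega⟩, h1⟩
  have h2 : mom (j + 1) D = ∑ x ∈ s, (tau (x.1 * x.2) : ℝ) ^ j / ((x.1 * x.2 : ℕ) : ℝ) := by
    rw [← Finset.sum_fiberwise_of_maps_to (s := s) (t := Icc 1 D) (g := fun x => x.1 * x.2)
      (by
        intro x hx
        simp only [hs, mem_filter, mem_product, mem_Icc] at hx
        rw [mem_Icc]
        exact ⟨Nat.mul_pos hx.1.1.1 hx.1.2.1, hx.2⟩)]
    unfold mom
    apply Finset.sum_congr rfl
    intro d hd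
    rw [h1 d hd]
    have h3 : ∑ x ∈ d.divisorsAntidiagonal, (tau (x.1 * x.2) : ℝ) ^ j / ((x.1 * x.2 : ℕ) : ℝ) =
        ∑ x ∈ d.divisorsAntidiagonal, (tau d : ℝ) ^ j / (d : ℝ) := by
      apply Finset.sum_congr rfl
      intro x hx
      rw [Nat.mem_divisorsAntidiagonal] at hx
      rw [hx.1]
    rw [h3, Finset.sum_const, nsmul_eq_mul]
    have h4 : (d.divisorsAntidiagonal.card : ℝ) = (tau d : ℝ) := by
      unfold tau
      rw [← Nat.map_div_right_divisors, Finset.card_map]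
    rw [h4]
    ring
  rw [h2]
  have h5 : ∑ x ∈ s, (tau (x.1 * x.2) : ℝ) ^ j / ((x.1 * x.2 : ℕ) : ℝ) ≤
      ∑ x ∈ s, ((tau x.1 : ℝ) ^ j / x.1) * ((tau x.2 : ℝ) ^ j / x.2) := by
    apply Finset.sum_le_sum
    intro x hx
    have h6 : (tau (x.1 * x.2) : ℝ) ≤ (tau x.1 : ℝ) * tau x.2 := by
      exact_mod_cast tau_mul_le x.1 x.2
    rw [div_mul_div_comm, ← mul_pow]
    push_cast
    gcongr
  refine h5.trans ?_
  have h7 : ∑ x ∈ s, ((tau x.1 : ℝ) ^ j / x.1) * ((tau x.2 : ℝ) ^ j / x.2) ≤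
      ∑ x ∈ Icc 1 D ×ˢ Icc 1 D, ((tau x.1 : ℝ) ^ j / x.1) * ((tau x.2 : ℝ) ^ j / x.2) := by
    apply Finset.sum_le_sum_of_subset_of_nonneg (Finset.filter_subset _ _)
    intro x _ _
    positivity
  refine h7.trans (le_of_eq ?_)
  rw [Finset.sum_product, sq]
  unfold mom
  rw [Finset.sum_mul_sum]

lemma moment (D : ℕ) (hD : 1 ≤ D) : mom 3 D ≤ (1 + Real.log D) ^ 8 := by
  have h0 := mom_zero D
  have h1 := mom_succ 0 D
  have h2 := mom_succ 1 D
  have h3 := mom_succ 2 D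
  have n0 := mom_nonneg 0 D
  have n1 := mom_nonneg 1 D
  have n2 := mom_nonneg 2 D
  have hl : 0 ≤ Real.log D := Real.log_nonneg (by exact_mod_cast hD)
  have e1 : mom 1 D ≤ (1 + Real.log D) ^ 2 := h1.trans (by gcongr)
  have e2 : mom 2 D ≤ ((1 + Real.log D) ^ 2) ^ 2 := h2.trans (by gcongr)
  have e3 : mom 3 D ≤ (((1 + Real.log D) ^ 2) ^ 2) ^ 2 := h3.trans (by gcongr)
  calc mom 3 D ≤ (((1 + Real.log D) ^ 2) ^ 2) ^ 2 := e3
    _ = (1 + Real.log D) ^ 8 := by ring

/-- a divisor `d ≤ D` of `n` which is maximal -/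
lemma exists_max_divisor (n D : ℕ) (hn : 1 ≤ n) (hD : 1 ≤ D) :
    ∃ d, d ∣ n ∧ d ≤ D ∧ (d = n ∨ ∃ p m, p.Prime ∧ n = d * (p * m) ∧ D < d * p) := by
  classical
  have hne : (n.divisors.filter (fun d => d ≤ D)).Nonempty :=
    ⟨1, by simp [mem_filter]; omega⟩
  set d := (n.divisors.filter (fun d => d ≤ D)).max' hne with hd
  have hmem : d ∈ n.divisors.filter (fun d => d ≤ D) := Finset.max'_mem _ _
  have hmax : ∀ e ∈ n.divisors.filter (fun d => d ≤ D), e ≤ d := fun e he =>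
    Finset.le_max' _ e he
  rw [mem_filter, Nat.mem_divisors] at hmem
  refine ⟨d, hmem.1.1, hmem.2, ?_⟩
  obtain ⟨k, hk⟩ := hmem.1.1
  rcases Nat.lt_or_ge k 2 with h | h
  · left
    have hk0 : k ≠ 0 := by
      rintro rfl
      simp at hk
      omega
    have hk1 : k = 1 := by omega
    rw [hk1] at hk
    omega
  · right
    obtain ⟨p, hp, m, hm⟩ := Nat.exists_prime_and_dvd (show k ≠ 1 by omega)
    refine ⟨p, m, hp, by rw [hk, hm], ?_⟩
    by_contra hcon
    push Not at hcon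
    have hmem2 : d * p ∈ n.divisors.filter (fun d => d ≤ D) := by
      rw [mem_filter, Nat.mem_divisors]
      refine ⟨⟨⟨m, ?_⟩, by omega⟩, hcon⟩
      rw [hk, hm]; ring
    have h3 := hmax _ hmem2
    have hdpos : 0 < d := Nat.pos_of_dvd_of_pos hmem.1.1 (by omega)
    have := hp.two_le
    nlinarith

/-- Landreau's inequality with three factors, pointwise form. -/
lemma landreau_pt (n D : ℕ) (hn : 1 ≤ n) (hD : 1 ≤ D) (h : n ≤ D ^ 3) :
    ∃ d, d ∣ n ∧ d ≤ D ∧ tau n ≤ 4 * tau d ^ 3 := by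
  obtain ⟨d1, h1, h1D, h1c⟩ := exists_max_divisor n D hn hD
  have hd1 : 0 < d1 := Nat.pos_of_dvd_of_pos h1 hn
  have t1 := tau_pos hd1
  rcases h1c with h1c | ⟨p1, n2, hp1, hn1, hp1D⟩
  · refine ⟨d1, h1, h1D, ?_⟩
    rw [← h1c]
    have : tau d1 ≤ tau d1 ^ 3 := Nat.le_self_pow (by norm_num) _
    omega
  have hn2 : 1 ≤ n2 := by
    rcases Nat.eq_zero_or_pos n2 with h0 | h0
    · subst h0; simp at hn1; omega
    · exact h0
  have hn2D : n2 < D ^ 2 := by
    have e1 : n = (d1 * p1) * n2 := by rw [hn1]; ring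
    have e2 : D * n2 < (d1 * p1) * n2 := Nat.mul_lt_mul_of_pos_right hp1D hn2
    have e3 : D * n2 < D * D ^ 2 := by
      calc D * n2 < (d1 * p1) * n2 := e2
        _ = n := e1.symm
        _ ≤ D ^ 3 := h
        _ = D * D ^ 2 := by ring
    exact Nat.lt_of_mul_lt_mul_left e3
  have hn2n : n2 ∣ n := ⟨d1 * p1, by rw [hn1]; ring⟩
  obtain ⟨d2, h2, h2D, h2c⟩ := exists_max_divisor n2 D hn2 hD
  have hd2 : 0 < d2 := Nat.pos_of_dvd_of_pos h2 hn2
  have t2 := tau_pos hd2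
  rcases h2c with h2c | ⟨p2, n4, hp2, hn3, hp2D⟩
  · -- n = d1 * p1 * d2
    have e : tau n ≤ tau d1 * (2 * tau d2) := by
      rw [hn1, ← h2c]
      calc tau (d1 * (p1 * d2)) ≤ tau d1 * tau (p1 * d2) := tau_mul_le _ _
        _ ≤ tau d1 * (tau p1 * tau d2) := Nat.mul_le_mul_left _ (tau_mul_le _ _)
        _ = tau d1 * (2 * tau d2) := by rw [tau_prime hp1]
    rcases le_total (tau d1) (tau d2) with hle | hle
    · refine ⟨d2, h2.trans hn2n, h2D, e.trans ?_⟩
      calc tau d1 * (2 * tau d2) ≤ tau d2 * (2 * tau d2) := Nat.mul_le_mul_right _ hle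
        _ = 2 * tau d2 ^ 2 := by ring
        _ ≤ 4 * tau d2 ^ 3 := by
          have : tau d2 ^ 2 ≤ tau d2 ^ 3 := Nat.pow_le_pow_right t2 (by norm_num)
          omega
    · refine ⟨d1, h1, h1D, e.trans ?_⟩
      calc tau d1 * (2 * tau d2) ≤ tau d1 * (2 * tau d1) := by gcongr
        _ = 2 * tau d1 ^ 2 := by ring
        _ ≤ 4 * tau d1 ^ 3 := by
          have : tau d1 ^ 2 ≤ tau d1 ^ 3 := Nat.pow_le_pow_right t1 (by norm_num)
          omega
  · have hn4 : 1 ≤ n4 := by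
      rcases Nat.eq_zero_or_pos n4 with h0 | h0
      · subst h0; simp at hn3; omega
      · exact h0
    have hn4D : n4 < D := by
      have e1 : n2 = (d2 * p2) * n4 := by rw [hn3]; ring
      have e2 : D * n4 < (d2 * p2) * n4 := Nat.mul_lt_mul_of_pos_right hp2D hn4
      have e3 : D * n4 < D * D := by
        calc D * n4 < (d2 * p2) * n4 := e2
          _ = n2 := e1.symm
          _ < D ^ 2 := hn2D
          _ = D * D := by ring
      exact Nat.lt_of_mul_lt_mul_left e3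
    have hn4n : n4 ∣ n := (show n4 ∣ n2 from ⟨d2 * p2, by rw [hn3]; ring⟩).trans hn2n
    have t4 := tau_pos hn4
    have e : tau n ≤ 4 * (tau d1 * tau d2 * tau n4) := by
      rw [hn1, hn3]
      calc tau (d1 * (p1 * (d2 * (p2 * n4)))) ≤ tau d1 * tau (p1 * (d2 * (p2 * n4))) :=
            tau_mul_le _ _
        _ ≤ tau d1 * (tau p1 * tau (d2 * (p2 * n4))) := Nat.mul_le_mul_left _ (tau_mul_le _ _)
        _ ≤ tau d1 * (tau p1 * (tau d2 * tau (p2 * n4))) := by
            gcongr; exact tau_mul_le _ _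
        _ ≤ tau d1 * (tau p1 * (tau d2 * (tau p2 * tau n4))) := by
            gcongr; exact tau_mul_le _ _
        _ = 4 * (tau d1 * tau d2 * tau n4) := by rw [tau_prime hp1, tau_prime hp2]; ring
    obtain ⟨d, hd, hdD, a1, a2, a4⟩ : ∃ d, d ∣ n ∧ d ≤ D ∧ tau d1 ≤ tau d ∧ tau d2 ≤ tau d ∧
        tau n4 ≤ tau d := by
      rcases le_total (tau d1) (tau d2) with h12 | h12
      · rcases le_total (tau d2) (tau n4) with h24 | h24
        · exact ⟨n4, hn4n, hn4D.le, h12.trans h24, h24, le_rfl⟩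
        · exact ⟨d2, h2.trans hn2n, h2D, h12, le_rfl, h24⟩
      · rcases le_total (tau d1) (tau n4) with h14 | h14
        · exact ⟨n4, hn4n, hn4D.le, h14, h12.trans h14, le_rfl⟩
        · exact ⟨d1, h1, h1D, le_rfl, h12, h14⟩
    refine ⟨d, hd, hdD, e.trans ?_⟩
    calc 4 * (tau d1 * tau d2 * tau n4) ≤ 4 * (tau d * tau d * tau d) := by gcongr
      _ = 4 * tau d ^ 3 := by ring

/-- Landreau's inequality, for the odd part: the number of odd divisors. -/
lemma landreau_odd (n D : ℕ) (hn : 1 ≤ n) (hD : 1 ≤ D) (h : n ≤ D ^ 3) :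
    (n.divisors.filter (fun d => Odd d)).card ≤
      4 * ∑ d ∈ (Icc 1 D).filter (fun d => Odd d ∧ d ∣ n), tau d ^ 3 := by
  classical
  set m := ordCompl[2] n with hm
  have hmn : m ∣ n := Nat.ordCompl_dvd n 2
  have hm1 : 1 ≤ m := Nat.ordCompl_pos 2 (by omega)
  have hmle : m ≤ D ^ 3 := (Nat.le_of_dvd hn hmn).trans h
  have hmodd : ¬ 2 ∣ m := Nat.not_dvd_ordCompl Nat.prime_two (by omega)
  have hsub : n.divisors.filter (fun d => Odd d) ⊆ m.divisors := by
    intro d hd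
    rw [mem_filter, Nat.mem_divisors] at hd
    rw [Nat.mem_divisors]
    refine ⟨?_, by omega⟩
    have hcop : Nat.Coprime d (2 ^ n.factorization 2) := by
      apply Nat.Coprime.pow_right
      rw [Nat.coprime_comm, Nat.coprime_two_left]
      exact hd.2
    have : d ∣ 2 ^ n.factorization 2 * m := by
      rw [hm, Nat.ordProj_mul_ordCompl_eq_self]
      exact hd.1.1
    exact hcop.dvd_of_dvd_mul_left this
  obtain ⟨d, hd, hdD, ht⟩ := landreau_pt m D hm1 hD hmle
  have hdpos : 0 < d := Nat.pos_of_dvd_of_pos hd hm1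
  have hdodd : Odd d := by
    rw [← Nat.not_even_iff_odd, even_iff_two_dvd]
    intro h2
    exact hmodd (h2.trans hd)
  calc (n.divisors.filter (fun d => Odd d)).card ≤ m.divisors.card := Finset.card_le_card hsub
    _ = tau m := rfl
    _ ≤ 4 * tau d ^ 3 := ht
    _ ≤ 4 * ∑ d ∈ (Icc 1 D).filter (fun d => Odd d ∧ d ∣ n), tau d ^ 3 := by
      apply Nat.mul_le_mul_left
      apply Finset.single_le_sum (f := fun d => tau d ^ 3) (fun _ _ => Nat.zero_le _)
      rw [mem_filter, mem_Icc]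
      exact ⟨⟨hdpos, hdD⟩, hdodd, hd.trans hmn⟩

end Run7.h437
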