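import Pool.Agent.Run7.h437.LbKey
import Pool.Agent.H442R2.EHI.PntErr

/-!
# A long run of terms after a missing number forces many missing numbers

`gap_many`: if `μ ∉ T` is large, `n = ⌈log μ⌉`, and all of `(μ, 4 μ n^32]` lies in `T`, then more
than `n` numbers up to `4 μ² n^24` are missing from `T`.
-/

set_option autoImplicit false

namespace Run7.h437

open Finset

/-- primes in short intervals, from the prime number theorem with a strong error term -/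
lemma primes_short (U : ℕ) : ∃ C : ℝ, 0 < C ∧ ∀ A μ : ℕ, 1 ≤ μ → 4 * μ ≤ A →
    4 * (μ : ℝ) - 1 - C * (A / Real.log (A / 2 : ℝ) ^ U) ≤
      (((Ioc (A - 2 * μ) (A + 2 * μ - 1)).filter Nat.Prime).card : ℝ) * Real.log (2 * A) := by
  obtain ⟨C, hC, hth⟩ := Pool.Agent.H442R2.EHI.PntErrAux.thetaU U
  refine ⟨3 * C, by positivity, ?_⟩
  intro A μ hμ hA
  have hAR : (4 : ℝ) * μ ≤ A := by exact_mod_cast hA
  have hμR : (1 : ℝ) ≤ μ := by exact_mod_cast hμ
  set N1 := A + 2 * μ - 1 with hN1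
  set N2 := A - 2 * μ with hN2
  have h1 := hth N1 (by omega)
  have h2 := hth N2 (by omega)
  have e1 : (N1 : ℝ) = A + 2 * μ - 1 := by
    rw [hN1, Nat.cast_sub (by omega)]; push_cast; ring
  have e2 : (N2 : ℝ) = A - 2 * μ := by
    rw [hN2, Nat.cast_sub (by omega)]; push_cast; ring
  have hl0 : 0 < Real.log (A / 2 : ℝ) := Real.log_pos (by linarith)
  have b1 : (N1 : ℝ) / Real.log N1 ^ U ≤ 2 * A / Real.log (A / 2 : ℝ) ^ U := by
    have hlog : Real.log (A / 2 : ℝ) ≤ Real.log N1 :=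
      Real.log_le_log (by linarith) (by rw [e1]; linarith)
    apply div_le_div₀ (by linarith) (by rw [e1]; linarith) (by positivity)
    gcongr
  have b2 : (N2 : ℝ) / Real.log N2 ^ U ≤ A / Real.log (A / 2 : ℝ) ^ U := by
    have hlog : Real.log (A / 2 : ℝ) ≤ Real.log N2 :=
      Real.log_le_log (by linarith) (by rw [e2]; linarith)
    apply div_le_div₀ (by linarith) (by rw [e2]; linarith) (by positivity)
    gcongr
  have h3 : (4 : ℝ) * μ - 1 - 3 * C * (A / Real.log (A / 2 : ℝ) ^ U) ≤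
      Chebyshev.theta N1 - Chebyshev.theta N2 := by
    have a1 := (abs_le.mp h1).1
    have a2 := (abs_le.mp h2).2
    have a3 : C * ((N1 : ℝ) / Real.log N1 ^ U) ≤ C * (2 * A / Real.log (A / 2 : ℝ) ^ U) := by
      gcongr
    have a4 : C * ((N2 : ℝ) / Real.log N2 ^ U) ≤ C * (A / Real.log (A / 2 : ℝ) ^ U) := by
      gcongr
    have a5 : C * (2 * A / Real.log (A / 2 : ℝ) ^ U) = 2 * (C * (A / Real.log (A / 2 : ℝ) ^ U)) := by
      ring
    have a6 : 3 * C * (A / Real.log (A / 2 : ℝ) ^ U) = 3 * (C * (A / Real.log (A / 2 : ℝ) ^ U)) := by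
      ring
    rw [e1] at a1
    rw [e2] at a2
    rw [a6]
    rw [e1] at a3
    rw [e2] at a4
    have a7 : ((N1 : ℕ) : ℝ) = A + 2 * μ - 1 := e1
    rw [a7, e2]
    linarith
  refine h3.trans ?_
  have h4 : Chebyshev.theta N1 - Chebyshev.theta N2 =
      ∑ p ∈ (Ioc N2 N1).filter Nat.Prime, Real.log p := by
    unfold Chebyshev.theta
    rw [Nat.floor_natCast, Nat.floor_natCast]
    have hsplit : (Ioc 0 N1).filter Nat.Prime =
        (Ioc 0 N2).filter Nat.Prime ∪ (Ioc N2 N1).filter Nat.Prime := by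
      rw [← Finset.filter_union, Finset.Ioc_union_Ioc_eq_Ioc (by omega) (by omega)]
    have hdisj : Disjoint ((Ioc 0 N2).filter Nat.Prime) ((Ioc N2 N1).filter Nat.Prime) := by
      apply Finset.disjoint_filter_filter
      rw [Finset.disjoint_left]
      intro x hx hy
      rw [mem_Ioc] at hx hy
      omega
    rw [hsplit, Finset.sum_union hdisj]
    ring
  rw [h4, ← nsmul_eq_mul, ← Finset.sum_const]
  apply Finset.sum_le_sum
  intro p hp
  rw [mem_filter, mem_Ioc] at hp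
  apply Real.log_le_log (by exact_mod_cast hp.2.pos)
  have : (p : ℝ) ≤ N1 := by exact_mod_cast hp.1.2
  rw [e1] at this
  linarith

lemma growth : ∃ n0 : ℕ, ∀ n : ℕ, n0 ≤ n → (n : ℝ) ^ 100 ≤ Real.exp (n - 1) := by
  have h1 := Real.tendsto_pow_mul_exp_neg_atTop_nhds_zero 100
  have h2 : ∀ᶠ x : ℝ in Filter.atTop, x ^ 100 * Real.exp (-x) < Real.exp (-1) :=
    h1.eventually_lt_const (Real.exp_pos _)
  have h3 := (tendsto_natCast_atTop_atTop (R := ℝ)).eventually h2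
  obtain ⟨n0, hn0⟩ := h3.exists_forall_of_atTop
  refine ⟨n0, fun n hn => ?_⟩
  have h4 := hn0 n hn
  have h5 : (n : ℝ) ^ 100 * Real.exp (-n) * Real.exp n ≤ Real.exp (-1) * Real.exp n := by
    gcongr
  rw [mul_assoc, ← Real.exp_add, ← Real.exp_add] at h5
  simp only [neg_add_cancel, Real.exp_zero, mul_one] at h5
  calc (n : ℝ) ^ 100 ≤ Real.exp (-1 + n) := h5
    _ = Real.exp (n - 1) := by ring_nf

theorem gap_many : ∃ n0 : ℕ, ∀ T : Set ℕ, Rep T → ∀ μ n : ℕ, μ ∉ T → n0 ≤ n →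
    Real.log μ ≤ n → (n : ℝ) ≤ Real.log μ + 1 →
    (∀ t, μ < t → t ≤ 4 * μ * n ^ 32 → t ∈ T) →
    n < (miss T 1 (4 * μ ^ 2 * n ^ 24)).card := by
  obtain ⟨C, hC, hprimes⟩ := primes_short 13
  obtain ⟨n1, hn1⟩ := growth
  obtain ⟨n2, hn2⟩ := exists_nat_ge (2 ^ 14 * C)
  refine ⟨n1 + n2 + 1000, ?_⟩
  intro T hT μ n hμT hn hlog1 hlog2 hgap
  by_contra hcon
  push Not at hcon
  have hn1000 : 1000 ≤ n := by omega
  have hnR : (1000 : ℝ) ≤ n := by exact_mod_cast hn1000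
  have hnpos : (0 : ℝ) < n := by linarith
  have hg := hn1 n (by omega)
  have hμpos : 0 < μ := by
    rcases Nat.eq_zero_or_pos μ with h | h
    · subst h; simp at hlog2; linarith
    · exact h
  have hμR0 : (0 : ℝ) < μ := by exact_mod_cast hμpos
  have hμexp : Real.exp (n - 1) ≤ μ := by
    rw [← Real.le_log_iff_exp_le hμR0]; linarith
  have hμbig : (n : ℝ) ^ 100 ≤ μ := hg.trans hμexp
  have hμbigN : n ^ 100 ≤ μ := by exact_mod_cast hμbig
  have hμle : (μ : ℝ) ≤ Real.exp n := by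
    rw [← Real.log_le_iff_le_exp hμR0]; exact hlog1
  -- small powers of n
  have hn12 : 1000 * n ^ 12 ≤ n ^ 100 := by
    calc 1000 * n ^ 12 ≤ n * n ^ 12 := Nat.mul_le_mul_right _ hn1000
      _ = n ^ 13 := by ring
      _ ≤ n ^ 100 := Nat.pow_le_pow_right (by omega) (by norm_num)
  -- choice of A
  set x := μ * n ^ 12 with hx
  have hxge : 2 ≤ x := by
    have : 1000 * 1 ≤ μ := by
      calc 1000 * 1 ≤ 1000 * n ^ 12 := Nat.mul_le_mul_left _ (Nat.one_le_pow _ _ (by omega))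
        _ ≤ n ^ 100 := hn12
        _ ≤ μ := hμbigN
    have h1 : 1 ≤ n ^ 12 := Nat.one_le_pow _ _ (by omega)
    nlinarith
  have hclog : x ≤ 2 ^ Nat.clog 2 x := Nat.le_pow_clog (by norm_num) x
  have hclog2 : 2 ^ (Nat.clog 2 x - 1) < x := Nat.pow_pred_clog_lt_self (by norm_num) (by omega)
  have hcpos : 0 < Nat.clog 2 x := Nat.clog_pos (by norm_num) hxge
  obtain ⟨a, ha⟩ : ∃ a, Nat.clog 2 x = a + 1 := ⟨Nat.clog 2 x - 1, by omega⟩
  rw [ha] at hclog hclog2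
  rw [Nat.add_sub_cancel] at hclog2
  set A := 2 ^ (a + 1) with hA
  have hAlow : μ * n ^ 12 ≤ A := hclog
  have hAup : A < 2 * (μ * n ^ 12) := by
    rw [hA, pow_succ]; omega
  set V := A * n ^ 20 with hV
  set X := 4 * μ ^ 2 * n ^ 24 with hX
  set D := μ / n ^ 12 with hD
  set Lm := A / n ^ 20 + n with hLm
  have hApos : 0 < A := by positivity
  have hn12_4 : 1000 ≤ n ^ 12 := by
    calc 1000 ≤ n := hn1000
      _ = n ^ 1 := (pow_one n).symm
      _ ≤ n ^ 12 := Nat.pow_le_pow_right (by omega) (by norm_num)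
  have hn20_4 : 1000 ≤ n ^ 20 := by
    calc 1000 ≤ n := hn1000
      _ = n ^ 1 := (pow_one n).symm
      _ ≤ n ^ 20 := Nat.pow_le_pow_right (by omega) (by norm_num)
  have h4μ : 4 * μ ≤ A := by nlinarith
  -- real versions
  have hAlowR : (μ : ℝ) * n ^ 12 ≤ A := by exact_mod_cast hAlow
  have hAupR : (A : ℝ) ≤ 2 * (μ * n ^ 12) := by exact_mod_cast hAup.le
  have hn12pos : (0 : ℝ) < (n : ℝ) ^ 12 := by positivity
  have hDle : (D : ℝ) ≤ μ / n ^ 12 := by
    have : ((μ / n ^ 12 : ℕ) : ℝ) ≤ (μ : ℝ) / ((n ^ 12 : ℕ) : ℝ) := Nat.cast_div_le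
    push_cast at this
    exact this
  have hDge : (μ : ℝ) / n ^ 12 - 1 ≤ D := by
    have h1 := Nat.lt_mul_div_succ μ (show 0 < n ^ 12 by positivity)
    have h2 : (μ : ℝ) < n ^ 12 * (D + 1) := by exact_mod_cast h1
    have h3 : (μ : ℝ) / n ^ 12 < D + 1 := by
      rw [div_lt_iff₀ hn12pos]; linarith
    linarith
  have hμn13 : (n : ℝ) ^ 88 * n ^ 12 ≤ μ := by
    rw [← pow_add]; exact hμbig
  have hμdiv : (n : ℝ) ^ 88 ≤ μ / n ^ 12 := by
    rw [le_div_iff₀ hn12pos]; exact hμn13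
  have h88 : (1000 : ℝ) ≤ (n : ℝ) ^ 88 := by
    calc (1000 : ℝ) ≤ n := hnR
      _ = (n : ℝ) ^ 1 := (pow_one _).symm
      _ ≤ (n : ℝ) ^ 88 := pow_le_pow_right₀ (by linarith) (by norm_num)
  have hDhalf : (μ : ℝ) / (2 * n ^ 12) ≤ D := by
    have : (μ : ℝ) / (2 * n ^ 12) = μ / n ^ 12 / 2 := by field_simp
    rw [this]
    linarith
  have hDpos : (1 : ℝ) ≤ D := by linarith
  have hD1 : 1 ≤ D := by exact_mod_cast hDpos
  have hHD : (4 * μ) ^ 2 ≤ D ^ 3 := by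
    have h1 : (4 * (μ : ℝ)) ^ 2 ≤ (D : ℝ) ^ 3 := by
      calc (4 * (μ : ℝ)) ^ 2 = 16 * (μ : ℝ) ^ 2 := by ring
        _ ≤ ((μ : ℝ) / (2 * (n : ℝ) ^ 12)) ^ 3 := by
            have e : ((μ : ℝ) / (2 * n ^ 12)) ^ 3 = μ ^ 2 * (μ / (8 * n ^ 36)) := by
              field_simp; ring
            rw [e]
            have e2 : (16 : ℝ) ≤ (μ : ℝ) / (8 * (n : ℝ) ^ 36) := by
              rw [le_div_iff₀ (by positivity)]
              calc (16 : ℝ) * (8 * (n : ℝ) ^ 36) = 128 * (n : ℝ) ^ 36 := by ring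
                _ ≤ (n : ℝ) * (n : ℝ) ^ 36 := by gcongr; linarith
                _ = (n : ℝ) ^ 37 := by ring
                _ ≤ (n : ℝ) ^ 100 := pow_le_pow_right₀ (by linarith) (by norm_num)
                _ ≤ μ := hμbig
            nlinarith [sq_nonneg (μ : ℝ)]
        _ ≤ (D : ℝ) ^ 3 := by gcongr
    exact_mod_cast h1
  have hVpos : 0 < V := by positivity
  have hAV : A ^ 2 / V = A / n ^ 20 := by
    rw [hV, sq, Nat.mul_div_mul_left _ _ hApos]
  have hX2 : A ^ 2 ≤ X := by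
    have h1 : A ^ 2 ≤ (2 * (μ * n ^ 12)) ^ 2 := Nat.pow_le_pow_left hAup.le 2
    have h2 : (2 * (μ * n ^ 12)) ^ 2 = X := by rw [hX]; ring
    omega
  set P := (Ioc (A - 2 * μ) (A + 2 * μ - 1)).filter Nat.Prime with hP
  have hPprop : ∀ p ∈ P, p.Prime ∧ Odd p ∧ A < p + 2 * μ ∧ p < A + 2 * μ := by
    intro p hp
    rw [hP, mem_filter, mem_Ioc] at hp
    refine ⟨hp.2, ?_, by omega, by omega⟩
    apply hp.2.odd_of_ne_two
    omega
  have hAn : n ≤ A / 4 := by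
    have : 4 * n ≤ A := by
      have h1 : 1 * n ^ 12 ≤ μ * n ^ 12 := Nat.mul_le_mul_right _ hμpos
      have h2 : n ^ 2 ≤ n ^ 12 := Nat.pow_le_pow_right (by omega) (by norm_num)
      nlinarith
    omega
  have hA20 : A / n ^ 20 ≤ A / 4 := Nat.div_le_div_left (by omega) (by norm_num)
  have hkey := key hT a A μ V X n Lm D hA hμpos hμT h4μ (by rw [hV]; nlinarith)
    (by
      intro t ht1 ht2
      apply hgap t ht1
      have : 2 * V ≤ 4 * μ * n ^ 32 := by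
        rw [hV]
        calc 2 * (A * n ^ 20) ≤ 2 * (2 * (μ * n ^ 12) * n ^ 20) := by gcongr
          _ = 4 * μ * n ^ 32 := by ring
      omega) hX2 hcon
    (by
      have : n * μ < μ * n ^ 12 := by
        have h2 : n < n ^ 12 := by
          calc n = n ^ 1 := (pow_one n).symm
            _ < n ^ 12 := Nat.pow_lt_pow_right (by omega) (by norm_num)
        rw [mul_comm]
        exact Nat.mul_lt_mul_of_pos_left h2 hμpos
      omega)
    (by rw [hAV]) (by omega) hD1 hHD P hPprop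
  -- bound for the hyperbola term
  have hT1 : (((4 * μ) ^ 2 / (2 * A) + 1 : ℕ) : ℝ) ≤ 8 * μ / n ^ 12 + 1 := by
    push_cast
    have h1 : (((4 * μ) ^ 2 / (2 * A) : ℕ) : ℝ) ≤ ((4 * μ) ^ 2 : ℕ) / ((2 * A : ℕ) : ℝ) :=
      Nat.cast_div_le
    push_cast at h1
    have h2 : (4 * (μ : ℝ)) ^ 2 / (2 * A) ≤ 8 * μ / n ^ 12 := by
      rw [div_le_div_iff₀ (by positivity) hn12pos]
      nlinarith
    linarith
  have hmom : mom 3 D ≤ 256 * (n : ℝ) ^ 8 := by
    refine (moment D hD1).trans ?_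
    have hl : Real.log D ≤ n := by
      refine le_trans (Real.log_le_log (by linarith) ?_) hlog1
      refine hDle.trans ?_
      apply div_le_self hμR0.le
      exact_mod_cast (show 1 ≤ n ^ 12 by omega)
    have hl0 : 0 ≤ Real.log D := Real.log_nonneg hDpos
    calc (1 + Real.log D) ^ 8 ≤ (2 * (n : ℝ)) ^ 8 := by gcongr; linarith
      _ = 256 * (n : ℝ) ^ 8 := by ring
  have hpos12 : (0 : ℝ) < (μ : ℝ) / n ^ 12 := by positivity
  have hterm1 : (n : ℝ) * (16 * (2 * (((4 * μ) ^ 2 / (2 * A) + 1 : ℕ) : ℝ) + D) * mom 3 D) ≤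
      77824 * (μ / n ^ 3) := by
    have h1 : (2 * (((4 * μ) ^ 2 / (2 * A) + 1 : ℕ) : ℝ) + D) ≤ 19 * (μ / n ^ 12) := by
      have e : 8 * (μ : ℝ) / n ^ 12 = 8 * (μ / n ^ 12) := by ring
      rw [e] at hT1
      linarith
    have h0 : (0 : ℝ) ≤ (2 * (((4 * μ) ^ 2 / (2 * A) + 1 : ℕ) : ℝ) + D) := by positivity
    calc (n : ℝ) * (16 * (2 * (((4 * μ) ^ 2 / (2 * A) + 1 : ℕ) : ℝ) + D) * mom 3 D) ≤
          n * (16 * (19 * (μ / n ^ 12)) * (256 * (n : ℝ) ^ 8)) := by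
          have := mom_nonneg 3 D
          gcongr
      _ = 77824 * (μ / n ^ 3) := by
          field_simp; ring
  have ha4 : ((a : ℝ) + 2) ≤ 4 * n := by
    have h1 : (A : ℝ) ≤ Real.exp (2 * n) := by
      calc (A : ℝ) ≤ 2 * (μ * n ^ 12) := hAupR
        _ = (2 * n ^ 12) * μ := by ring
        _ ≤ μ * μ := by
            gcongr
            calc (2 : ℝ) * n ^ 12 ≤ n * n ^ 12 := by gcongr; linarith
              _ = (n : ℝ) ^ 13 := by ring
              _ ≤ (n : ℝ) ^ 100 := pow_le_pow_right₀ (by linarith) (by norm_num)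
              _ ≤ μ := hμbig
        _ ≤ Real.exp n * Real.exp n := by gcongr
        _ = Real.exp (2 * n) := by rw [← Real.exp_add]; ring_nf
    have h2 : Real.log A ≤ 2 * n := by
      rw [Real.log_le_iff_le_exp (by exact_mod_cast hApos)]
      exact h1
    have h3 : Real.log A = (a + 1) * Real.log 2 := by
      rw [hA]; push_cast; rw [Real.log_pow]; push_cast; ring
    rw [h3] at h2
    have h4 := Real.log_two_gt_d9
    have h5 : (0 : ℝ) ≤ a := by positivity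
    nlinarith
  have hLmle : (Lm : ℝ) ≤ 3 * (μ / n ^ 8) := by
    have h1 : ((A / n ^ 20 : ℕ) : ℝ) ≤ (A : ℝ) / ((n ^ 20 : ℕ) : ℝ) := Nat.cast_div_le
    have h2 : (A : ℝ) / ((n ^ 20 : ℕ) : ℝ) ≤ 2 * (μ / n ^ 8) := by
      push_cast
      rw [div_le_iff₀ (by positivity)]
      calc (A : ℝ) ≤ 2 * (μ * n ^ 12) := hAupR
        _ = 2 * (μ / n ^ 8) * n ^ 20 := by field_simp
    have h3 : (n : ℝ) ≤ μ / n ^ 8 := by
      rw [le_div_iff₀ (by positivity)]
      calc (n : ℝ) * n ^ 8 = (n : ℝ) ^ 9 := by ring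
        _ ≤ (n : ℝ) ^ 100 := pow_le_pow_right₀ (by linarith) (by norm_num)
        _ ≤ μ := hμbig
    rw [hLm]
    push_cast at h1 h2 ⊢
    linarith
  have hterm2 : (n : ℝ) ^ 2 * ((a + 2) * Lm) ≤ 12 * (μ / n ^ 3) := by
    have h0 : (0 : ℝ) ≤ μ / n ^ 8 := by positivity
    have hs1 : ((a : ℝ) + 2) * Lm ≤ (4 * (n : ℝ)) * (3 * ((μ : ℝ) / (n : ℝ) ^ 8)) :=
      mul_le_mul ha4 hLmle (by positivity) (by positivity)
    have hs2 : (n : ℝ) ^ 2 * (((a : ℝ) + 2) * Lm) ≤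
        (n : ℝ) ^ 2 * ((4 * (n : ℝ)) * (3 * ((μ : ℝ) / (n : ℝ) ^ 8))) :=
      mul_le_mul_of_nonneg_left hs1 (by positivity)
    have hs3 : (n : ℝ) ^ 2 * ((4 * (n : ℝ)) * (3 * ((μ : ℝ) / (n : ℝ) ^ 8))) =
        12 * ((μ : ℝ) / (n : ℝ) ^ 5) := by field_simp; ring
    have hs4 : 12 * ((μ : ℝ) / (n : ℝ) ^ 5) ≤ 12 * ((μ : ℝ) / (n : ℝ) ^ 3) := by
      have h35 : (n : ℝ) ^ 3 ≤ (n : ℝ) ^ 5 := pow_le_pow_right₀ (by linarith) (by norm_num)
      gcongr
    linarith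
  have hterm0 : (n : ℝ) ≤ μ / n ^ 3 := by
    rw [le_div_iff₀ (by positivity)]
    calc (n : ℝ) * n ^ 3 = (n : ℝ) ^ 4 := by ring
      _ ≤ (n : ℝ) ^ 100 := pow_le_pow_right₀ (by linarith) (by norm_num)
      _ ≤ μ := hμbig
  have hup : (P.card : ℝ) ≤ 77837 * (μ / n ^ 3) := by
    have := hkey
    push_cast at this hterm1
    linarith
  -- lower bound
  have hlow := hprimes A μ hμpos h4μ
  have hlogA : (n : ℝ) / 2 ≤ Real.log (A / 2 : ℝ) := by
    have h1 : Real.log μ ≤ Real.log (A / 2 : ℝ) := by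
      apply Real.log_le_log hμR0
      have : (4 : ℝ) * μ ≤ A := by exact_mod_cast h4μ
      linarith
    linarith
  have herr : C * (A / Real.log (A / 2 : ℝ) ^ 13) ≤ μ := by
    have h1 : C * (A / Real.log (A / 2 : ℝ) ^ 13) ≤ C * (2 * (μ * n ^ 12) / ((n : ℝ) / 2) ^ 13) := by
      gcongr
    refine h1.trans ?_
    have h2 : C * (2 * (μ * (n : ℝ) ^ 12) / ((n : ℝ) / 2) ^ 13) = (2 ^ 14 * C) * (μ / n) := by
      field_simp
    rw [h2]
    have h3 : (2 : ℝ) ^ 14 * C ≤ n := by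
      refine hn2.trans ?_
      exact_mod_cast (by omega : n2 ≤ n)
    calc (2 : ℝ) ^ 14 * C * (μ / n) ≤ n * (μ / n) := by gcongr
      _ = μ := by field_simp
  have hlog2A : Real.log (2 * A) ≤ 2 * n := by
    rw [Real.log_le_iff_le_exp (by positivity)]
    calc (2 * A : ℝ) ≤ 2 * (2 * (μ * n ^ 12)) := by gcongr
      _ = (4 * n ^ 12) * μ := by ring
      _ ≤ μ * μ := by
          gcongr
          calc (4 : ℝ) * n ^ 12 ≤ n * n ^ 12 := by gcongr; linarith
            _ = (n : ℝ) ^ 13 := by ring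
            _ ≤ (n : ℝ) ^ 100 := pow_le_pow_right₀ (by linarith) (by norm_num)
            _ ≤ μ := hμbig
      _ ≤ Real.exp n * Real.exp n := by gcongr
      _ = Real.exp (2 * n) := by rw [← Real.exp_add]; ring_nf
  have hμ1R : (1 : ℝ) ≤ μ := by exact_mod_cast hμpos
  have h6 : 2 * (μ : ℝ) ≤ (P.card : ℝ) * (2 * n) := by
    calc 2 * (μ : ℝ) ≤ 4 * (μ : ℝ) - 1 - C * (A / Real.log (A / 2 : ℝ) ^ 13) := by linarith
      _ ≤ (P.card : ℝ) * Real.log (2 * A) := hlow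
      _ ≤ (P.card : ℝ) * (2 * n) := by gcongr
  have h7 : 2 * (μ : ℝ) ≤ 77837 * (μ / n ^ 3) * (2 * n) := h6.trans (by gcongr)
  have h8 : 77837 * ((μ : ℝ) / n ^ 3) * (2 * n) = 2 * (77837 * μ / n ^ 2) := by
    field_simp
  rw [h8] at h7
  have h9 : 77837 * (μ : ℝ) / n ^ 2 < μ := by
    rw [div_lt_iff₀ (by positivity)]
    have h10 : (1000000 : ℝ) ≤ (n : ℝ) ^ 2 := by
      have h11 : (1000 : ℝ) * 1000 ≤ (n : ℝ) * n := mul_le_mul hnR hnR (by norm_num) hnpos.le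
      rw [sq]; linarith
    have h12 : (μ : ℝ) * 1000000 ≤ μ * (n : ℝ) ^ 2 := mul_le_mul_of_nonneg_left h10 hμR0.le
    linarith
  linarith

end Run7.h437
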