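import Pool.Agent.Run7.h437.LbDiv

/-!
# Points of a modular hyperbola in a box, modulus a power of two

`hyp_count`: the number of `(x, y)`, `|x|, |y| ≤ H`, of opposite parity, with
`x y ≡ 2 M (mod 2 A)`, `A = 2^(a+1)`, `0 < M < A`.
-/

set_option autoImplicit false

namespace Run7.h437

open Finset

/-- a finite set of integers in an interval, all congruent modulo `d` -/
lemma card_le_of_dvd_sub (S : Finset ℤ) (lo hi d : ℤ) (hd : 0 < d) (hlh : lo ≤ hi)
    (hS : ∀ x ∈ S, lo ≤ x ∧ x ≤ hi) (hdiv : ∀ x ∈ S, ∀ y ∈ S, d ∣ x - y) :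
    (S.card : ℤ) ≤ (hi - lo) / d + 1 := by
  classical
  have h0 : 0 ≤ (hi - lo) / d := Int.ediv_nonneg (by omega) hd.le
  have hcard : S.card ≤ (Finset.Icc (0 : ℤ) ((hi - lo) / d)).card := by
    apply Finset.card_le_card_of_injOn (fun x => (x - lo) / d)
    · intro x hx
      have := hS x hx
      simp only [Finset.coe_Icc, Set.mem_Icc]
      exact ⟨Int.ediv_nonneg (by omega) hd.le, Int.ediv_le_ediv hd (by omega)⟩
    · intro x hx y hy hxy
      simp only at hxy
      have e1 := Int.mul_ediv_add_emod (x - lo) d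
      have e2 := Int.mul_ediv_add_emod (y - lo) d
      have m1 := Int.emod_nonneg (x - lo) hd.ne'
      have m2 := Int.emod_nonneg (y - lo) hd.ne'
      have l1 := Int.emod_lt_of_pos (x - lo) hd
      have l2 := Int.emod_lt_of_pos (y - lo) hd
      obtain ⟨k, hk⟩ := hdiv x hx y hy
      rw [hxy] at e1
      have e3 : (x - lo) % d - (y - lo) % d = d * k := by linarith
      have hk0 : k = 0 := by
        by_contra hne
        rcases lt_or_gt_of_ne hne with h | h
        · have : d * k ≤ -d := by nlinarith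
          omega
        · have : d ≤ d * k := by nlinarith
          omega
      rw [hk0] at hk
      linarith
  have : ((Finset.Icc (0 : ℤ) ((hi - lo) / d)).card : ℤ) = (hi - lo) / d + 1 := by
    rw [Int.card_Icc]
    omega
  have h2 : (S.card : ℤ) ≤ ((Finset.Icc (0 : ℤ) ((hi - lo) / d)).card : ℤ) := by
    exact_mod_cast hcard
  omega

/-- the number in the progression -/
def nt (A M : ℕ) (t : ℤ) : ℤ := 2 * (M : ℤ) + 2 * (A : ℤ) * t

lemma nt_ne {A M : ℕ} (h0 : 0 < M) (h : M < A) (t : ℤ) : nt A M t ≠ 0 := by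
  unfold nt
  intro hc
  have h1 : (M : ℤ) = A * (-t) := by linarith
  have h2 : (0 : ℤ) < M := by exact_mod_cast h0
  have h3 : (M : ℤ) < A := by exact_mod_cast h
  have hA : (0 : ℤ) < A := by omega
  have h4 : 0 < -t := by
    by_contra hcon
    push Not at hcon
    nlinarith
  nlinarith

lemma count_t (a A M d T : ℕ) (hA : A = 2 ^ (a + 1)) (hd : Odd d) :
    (((Icc (-(T : ℤ)) T).filter (fun t => d ∣ (nt A M t).natAbs)).card : ℤ) ≤
      (2 * T : ℤ) / d + 1 := by
  have hd0 : 0 < d := by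
    rcases Nat.eq_zero_or_pos d with h | h
    · subst h; simp at hd
    · exact h
  have h := card_le_of_dvd_sub ((Icc (-(T : ℤ)) T).filter (fun t => d ∣ (nt A M t).natAbs))
    (-(T : ℤ)) T d (by exact_mod_cast hd0) (by omega)
    (by
      intro x hx
      rw [mem_filter, mem_Icc] at hx
      exact hx.1)
    (by
      intro x hx y hy
      rw [mem_filter] at hx hy
      have h1 : (d : ℤ) ∣ nt A M x := Int.natCast_dvd.mpr hx.2
      have h2 : (d : ℤ) ∣ nt A M y := Int.natCast_dvd.mpr hy.2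
      have h3 : (d : ℤ) ∣ (2 ^ (a + 2) : ℤ) * (x - y) := by
        have : (2 ^ (a + 2) : ℤ) * (x - y) = nt A M x - nt A M y := by
          unfold nt
          rw [hA]
          push_cast
          ring
        rw [this]
        exact dvd_sub h1 h2
      have hcop : IsCoprime (d : ℤ) (2 ^ (a + 2) : ℤ) := by
        have : Nat.Coprime d (2 ^ (a + 2)) := by
          apply Nat.Coprime.pow_right
          rw [Nat.coprime_comm, Nat.coprime_two_left]
          exact hd
        have := Nat.isCoprime_iff_coprime.mpr this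
        push_cast at this
        exact this
      exact hcop.dvd_of_dvd_mul_left h3)
  have e : ((T : ℤ) - -(T : ℤ)) = 2 * T := by ring
  rw [e] at h
  exact h

lemma count_y (n : ℤ) (hn : n ≠ 0) (H : ℕ) :
    ((Icc (-(H : ℤ)) H).filter (fun y => Odd y ∧ y ∣ n)).card ≤
      2 * (n.natAbs.divisors.filter (fun d => Odd d)).card := by
  classical
  set O := n.natAbs.divisors.filter (fun d => Odd d) with hO
  have hsub : (Icc (-(H : ℤ)) H).filter (fun y => Odd y ∧ y ∣ n) ⊆
      O.image (fun d : ℕ => (d : ℤ)) ∪ O.image (fun d : ℕ => -(d : ℤ)) := by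
    intro y hy
    rw [mem_filter] at hy
    have hmem : y.natAbs ∈ O := by
      rw [hO, mem_filter, Nat.mem_divisors]
      refine ⟨⟨Int.natAbs_dvd_natAbs.mpr hy.2.2, by simpa using hn⟩, ?_⟩
      exact Int.natAbs_odd.mpr hy.2.1
    rw [mem_union, mem_image, mem_image]
    rcases Int.natAbs_eq y with h | h
    · left; exact ⟨y.natAbs, hmem, h.symm⟩
    · right; exact ⟨y.natAbs, hmem, h.symm⟩
  calc _ ≤ (O.image (fun d : ℕ => (d : ℤ)) ∪ O.image (fun d : ℕ => -(d : ℤ))).card :=
        Finset.card_le_card hsub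
    _ ≤ (O.image (fun d : ℕ => (d : ℤ))).card + (O.image (fun d : ℕ => -(d : ℤ))).card :=
        Finset.card_union_le _ _
    _ ≤ O.card + O.card := Nat.add_le_add Finset.card_image_le Finset.card_image_le
    _ = 2 * O.card := by ring

/-- half of the box points: the second coordinate is odd -/
noncomputable def R1 (A M H : ℕ) : Finset (ℤ × ℤ) :=
  (Icc (-(H : ℤ)) H ×ˢ Icc (-(H : ℤ)) H).filter
    (fun x => Odd x.2 ∧ (2 * A : ℤ) ∣ x.1 * x.2 - 2 * M)

lemma card_R1 (a A M H D : ℕ) (hA : A = 2 ^ (a + 1)) (h0 : 0 < M) (hM : M < A)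
    (hD : 1 ≤ D) (hHD : H ^ 2 ≤ D ^ 3) :
    ((R1 A M H).card : ℝ) ≤ 8 * (2 * ((H ^ 2 / (2 * A) + 1 : ℕ) : ℝ) + D) * mom 3 D := by
  classical
  set T : ℕ := H ^ 2 / (2 * A) + 1 with hT
  have hApos : 0 < A := by omega
  have hAZ : (0 : ℤ) < A := by exact_mod_cast hApos
  -- the target set
  set f : ℤ → Finset ℤ := fun t =>
    if (nt A M t).natAbs ≤ H ^ 2 then (Icc (-(H : ℤ)) H).filter (fun y => Odd y ∧ y ∣ nt A M t)
    else ∅ with hf
  have hcard1 : (R1 A M H).card ≤ ((Icc (-(T : ℤ)) T).sigma f).card := by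
    apply Finset.card_le_card_of_injOn
      (fun x => (⟨(x.1 * x.2 - 2 * M) / (2 * A), x.2⟩ : (_ : ℤ) × ℤ))
    · intro x hx
      rw [Finset.mem_coe, R1, mem_filter, mem_product, mem_Icc, mem_Icc] at hx
      obtain ⟨⟨⟨a1, a2⟩, a3, a4⟩, hodd, hdvd⟩ := hx
      obtain ⟨t, ht⟩ := hdvd
      have e1 : (x.1 * x.2 - 2 * M) / (2 * A) = t := by
        rw [ht]; exact Int.mul_ediv_cancel_left _ (by omega)
      have e2 : nt A M t = x.1 * x.2 := by unfold nt; linarith
      have habs : |x.1 * x.2| ≤ (H : ℤ) ^ 2 := by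
        rw [abs_mul, sq]
        exact mul_le_mul (abs_le.mpr ⟨a1, a2⟩) (abs_le.mpr ⟨a3, a4⟩) (abs_nonneg _) (by omega)
      rw [Finset.mem_coe, Finset.mem_sigma]
      simp only
      rw [e1]
      constructor
      · rw [mem_Icc]
        have h1 := abs_le.mp habs
        have hM' : (M : ℤ) < A := by exact_mod_cast hM
        have hM0 : (0 : ℤ) < M := by exact_mod_cast h0
        have hq : (H : ℤ) ^ 2 < (2 * A) * (T : ℤ) := by
          have := Nat.lt_mul_div_succ (H ^ 2) (show 0 < 2 * A by omega)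
          rw [hT]
          exact_mod_cast this
        constructor
        · by_contra hcon
          push Not at hcon
          have : t ≤ -(T : ℤ) - 1 := by omega
          have h5 : 2 * (A : ℤ) * t ≤ 2 * A * (-(T : ℤ) - 1) :=
            mul_le_mul_of_nonneg_left this (by omega)
          nlinarith
        · by_contra hcon
          push Not at hcon
          have : (T : ℤ) + 1 ≤ t := by omega
          have h5 : 2 * (A : ℤ) * (T + 1) ≤ 2 * A * t :=
            mul_le_mul_of_nonneg_left this (by omega)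
          nlinarith
      · have hle : (nt A M t).natAbs ≤ H ^ 2 := by
          rw [e2]
          have : ((x.1 * x.2).natAbs : ℤ) ≤ ((H ^ 2 : ℕ) : ℤ) := by
            rw [Int.natCast_natAbs]; push_cast; exact habs
          exact_mod_cast this
        rw [hf]
        simp only
        rw [if_pos hle, mem_filter, mem_Icc]
        exact ⟨⟨a3, a4⟩, hodd, ⟨x.1, by rw [e2]; ring⟩⟩
    · intro x hx y hy hxy
      rw [Finset.mem_coe, R1, mem_filter] at hx hy
      simp only [Sigma.mk.injEq, heq_eq_eq] at hxy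
      obtain ⟨h1, h2⟩ := hxy
      obtain ⟨t, ht⟩ := hx.2.2
      obtain ⟨t', ht'⟩ := hy.2.2
      have e1 : (x.1 * x.2 - 2 * M) / (2 * A) = t := by
        rw [ht]; exact Int.mul_ediv_cancel_left _ (by omega)
      have e1' : (y.1 * y.2 - 2 * M) / (2 * A) = t' := by
        rw [ht']; exact Int.mul_ediv_cancel_left _ (by omega)
      have htt : t = t' := by rw [← e1, ← e1', h1]
      have h3 : x.1 * x.2 = y.1 * x.2 := by
        rw [← h2, ← htt] at ht'
        linarith
      have hne : x.2 ≠ 0 := by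
        intro h0
        have := hx.2.1
        rw [h0] at this
        exact absurd this (by decide)
      have h4 : x.1 = y.1 := mul_right_cancel₀ hne h3
      exact Prod.ext h4 h2
  have hcard2 : ((Icc (-(T : ℤ)) T).sigma f).card ≤
      ∑ t ∈ Icc (-(T : ℤ)) T, 8 * ∑ d ∈ (Icc 1 D).filter
        (fun d => Odd d ∧ d ∣ (nt A M t).natAbs), tau d ^ 3 := by
    rw [Finset.card_sigma]
    apply Finset.sum_le_sum
    intro t _
    rw [hf]
    simp only
    split_ifs with hle
    · have h1 := count_y (nt A M t) (nt_ne h0 hM t) H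
      have h2 := landreau_odd (nt A M t).natAbs D
        (Int.natAbs_pos.mpr (nt_ne h0 hM t)) hD (hle.trans hHD)
      omega
    · simp
  have hcard3 : (∑ t ∈ Icc (-(T : ℤ)) T, 8 * ∑ d ∈ (Icc 1 D).filter
        (fun d => Odd d ∧ d ∣ (nt A M t).natAbs), tau d ^ 3) =
      8 * ∑ d ∈ (Icc 1 D).filter (fun d => Odd d),
        tau d ^ 3 * ((Icc (-(T : ℤ)) T).filter (fun t => d ∣ (nt A M t).natAbs)).card := by
    rw [← Finset.mul_sum]
    congr 1
    have e1 : ∀ t : ℤ, ∑ d ∈ (Icc 1 D).filter (fun d => Odd d ∧ d ∣ (nt A M t).natAbs), tau d ^ 3 =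
        ∑ d ∈ (Icc 1 D).filter (fun d => Odd d), if d ∣ (nt A M t).natAbs then tau d ^ 3 else 0 := by
      intro t
      rw [← Finset.sum_filter, Finset.filter_filter]
    simp_rw [e1]
    rw [Finset.sum_comm]
    apply Finset.sum_congr rfl
    intro d _
    rw [← Finset.sum_filter, Finset.sum_const, smul_eq_mul, mul_comm]
  have hfin : ((8 * ∑ d ∈ (Icc 1 D).filter (fun d => Odd d),
        tau d ^ 3 * ((Icc (-(T : ℤ)) T).filter (fun t => d ∣ (nt A M t).natAbs)).card : ℕ) : ℝ) ≤
      8 * (2 * (T : ℝ) + D) * mom 3 D := by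
    push_cast
    rw [mul_assoc]
    apply mul_le_mul_of_nonneg_left _ (by norm_num)
    unfold mom
    rw [Finset.mul_sum]
    refine le_trans (Finset.sum_le_sum (g := fun d : ℕ => (2 * (T : ℝ) + D) * ((tau d : ℝ) ^ 3 / d)) ?_)
      (Finset.sum_le_sum_of_subset_of_nonneg (Finset.filter_subset _ _) ?_)
    · intro d hd
      rw [mem_filter, mem_Icc] at hd
      obtain ⟨⟨hd1, hdD⟩, hodd⟩ := hd
      have hc := count_t a A M d T hA hodd
      have hdR : (0 : ℝ) < d := by exact_mod_cast hd1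
      have hc2 : (((Icc (-(T : ℤ)) T).filter (fun t => d ∣ (nt A M t).natAbs)).card : ℝ) ≤
          (2 * (T : ℝ) + D) / d := by
        have h1 : (((Icc (-(T : ℤ)) T).filter (fun t => d ∣ (nt A M t).natAbs)).card : ℤ) * d ≤
            2 * T + d := by
          have h2 : (2 * T : ℤ) / d * d ≤ 2 * T := Int.ediv_mul_le _ (by omega)
          nlinarith
        have h3 : (((Icc (-(T : ℤ)) T).filter (fun t => d ∣ (nt A M t).natAbs)).card : ℝ) * d ≤
            2 * T + d := by exact_mod_cast h1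
        rw [le_div_iff₀ hdR]
        have : (d : ℝ) ≤ D := by exact_mod_cast hdD
        linarith
      calc (tau d : ℝ) ^ 3 *
            (((Icc (-(T : ℤ)) T).filter (fun t => d ∣ (nt A M t).natAbs)).card : ℝ) ≤
            (tau d : ℝ) ^ 3 * ((2 * (T : ℝ) + D) / d) := by gcongr
        _ = (2 * (T : ℝ) + D) * ((tau d : ℝ) ^ 3 / d) := by ring
    · intro d _ _
      positivity
  calc ((R1 A M H).card : ℝ) ≤ ((∑ t ∈ Icc (-(T : ℤ)) T, 8 * ∑ d ∈ (Icc 1 D).filter
        (fun d => Odd d ∧ d ∣ (nt A M t).natAbs), tau d ^ 3 : ℕ) : ℝ) := by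
        exact_mod_cast hcard1.trans hcard2
    _ ≤ 8 * (2 * (T : ℝ) + D) * mom 3 D := by
        rw [hcard3]
        exact hfin

/-- the box points -/
noncomputable def RR (A M H : ℕ) : Finset (ℤ × ℤ) :=
  (Icc (-(H : ℤ)) H ×ˢ Icc (-(H : ℤ)) H).filter
    (fun x => Odd (x.1 + x.2) ∧ (2 * A : ℤ) ∣ x.1 * x.2 - 2 * M)

lemma hyp_count (a A M H D : ℕ) (hA : A = 2 ^ (a + 1)) (h0 : 0 < M) (hM : M < A)
    (hD : 1 ≤ D) (hHD : H ^ 2 ≤ D ^ 3) :
    ((RR A M H).card : ℝ) ≤ 16 * (2 * ((H ^ 2 / (2 * A) + 1 : ℕ) : ℝ) + D) * mom 3 D := by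
  classical
  have h1 := card_R1 a A M H D hA h0 hM hD hHD
  have hsub : RR A M H ⊆ R1 A M H ∪ (R1 A M H).image Prod.swap := by
    intro x hx
    rw [RR, mem_filter, mem_product] at hx
    obtain ⟨⟨hx1, hx2⟩, hodd, hdvd⟩ := hx
    rw [mem_union]
    rcases Int.even_or_odd x.2 with h | h
    · right
      rw [mem_image]
      refine ⟨(x.2, x.1), ?_, rfl⟩
      rw [R1, mem_filter, mem_product]
      refine ⟨⟨hx2, hx1⟩, ?_, ?_⟩
      · simp only
        rcases Int.even_or_odd x.1 with h' | h'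
        · exact absurd (h'.add h) (Int.not_even_iff_odd.mpr hodd)
        · exact h'
      · simp only
        rw [mul_comm x.2 x.1]
        exact hdvd
    · left
      rw [R1, mem_filter, mem_product]
      exact ⟨⟨hx1, hx2⟩, h, hdvd⟩
  have hc : (RR A M H).card ≤ 2 * (R1 A M H).card := by
    calc (RR A M H).card ≤ (R1 A M H ∪ (R1 A M H).image Prod.swap).card :=
          Finset.card_le_card hsub
      _ ≤ (R1 A M H).card + ((R1 A M H).image Prod.swap).card := Finset.card_union_le _ _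
      _ ≤ (R1 A M H).card + (R1 A M H).card :=
          Nat.add_le_add_left Finset.card_image_le _
      _ = 2 * (R1 A M H).card := by ring
  have hc' : ((RR A M H).card : ℝ) ≤ 2 * (R1 A M H).card := by exact_mod_cast hc
  calc ((RR A M H).card : ℝ) ≤ 2 * (R1 A M H).card := hc'
    _ ≤ 2 * (8 * (2 * ((H ^ 2 / (2 * A) + 1 : ℕ) : ℝ) + D) * mom 3 D) := by gcongr
    _ = _ := by ring

end Run7.h437
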