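import Pool.Agent.Run7.h437.LbTwo

/-!
# Sets in which every element is a sum of consecutive elements: the counting inequality

`Rep T`: every element `≥ 3` of `T` is the sum of all elements of `T` in an interval `[u, v]` whose
ends `u < v` belong to `T`. If `μ ∉ T` and all of `μ+1, …, 2V` belong to `T`, where `V ≥ 2A`,
`A = 2^(a+1) ≥ 4μ`, then the numbers `2^a p`, `p` a prime with `|p - A| < 2μ`, are mostly not in `T`.
-/

set_option autoImplicit false

namespace Run7.h437

open Finset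

open Classical in
/-- the numbers of `[u, v]` outside `T` -/
noncomputable def miss (T : Set ℕ) (u v : ℕ) : Finset ℕ := (Icc u v).filter (fun z => z ∉ T)

open Classical in
/-- the elements of `T` in `[u, v]` -/
noncomputable def elts (T : Set ℕ) (u v : ℕ) : Finset ℕ := (Icc u v).filter (fun z => z ∈ T)

lemma mem_miss {T : Set ℕ} {u v z : ℕ} : z ∈ miss T u v ↔ (u ≤ z ∧ z ≤ v) ∧ z ∉ T := by
  classical
  unfold miss
  rw [mem_filter, mem_Icc]

lemma mem_elts {T : Set ℕ} {u v z : ℕ} : z ∈ elts T u v ↔ (u ≤ z ∧ z ≤ v) ∧ z ∈ T := by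
  classical
  unfold elts
  rw [mem_filter, mem_Icc]

/-- every element `≥ 3` of `T` is a sum of at least two consecutive elements of `T` -/
structure Rep (T : Set ℕ) : Prop where
  zero : 0 ∉ T
  rep : ∀ N ∈ T, 3 ≤ N → ∃ u v : ℕ, u ∈ T ∧ v ∈ T ∧ u < v ∧ ∑ t ∈ elts T u v, t = N

lemma gauss (u v : ℕ) (h : u ≤ v) : 2 * ∑ t ∈ Icc u v, t = (v + 1 - u) * (u + v) := by
  induction v, h using Nat.le_induction with
  | base => simp; ring
  | succ n hn ih =>
    rw [Finset.sum_Icc_succ_top (by omega), mul_add, ih]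
    obtain ⟨k, rfl⟩ := Nat.exists_eq_add_of_le hn
    have e1 : u + k + 1 - u = k + 1 := by omega
    have e2 : u + k + 1 + 1 - u = k + 2 := by omega
    rw [e1, e2]
    ring

lemma elts_add_miss (T : Set ℕ) (u v : ℕ) :
    ∑ t ∈ elts T u v, t + ∑ t ∈ miss T u v, t = ∑ t ∈ Icc u v, t := by
  classical
  unfold elts miss
  exact Finset.sum_filter_add_sum_filter_not _ _ _

lemma card_elts_add_miss (T : Set ℕ) (u v : ℕ) :
    (elts T u v).card + (miss T u v).card = v + 1 - u := by
  classical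
  have h := Finset.card_filter_add_card_filter_not (s := Icc u v) (fun z => z ∈ T)
  rw [Nat.card_Icc] at h
  exact h

lemma window (T : Set ℕ) (u v : ℕ) (h : u ≤ v) :
    (v + 1 - u) * (u + v) = 2 * ∑ t ∈ elts T u v, t + 2 * ∑ t ∈ miss T u v, t := by
  rw [← gauss u v h, ← elts_add_miss T u v]
  ring

/-- a window containing all of `(V, 2V]` has a large sum -/
lemma big_window (T : Set ℕ) (u v V : ℕ) (hgap : ∀ t, V < t → t ≤ 2 * V → t ∈ T) (hu : u ≤ V)
    (hv : 2 * V ≤ v) : V * V ≤ ∑ t ∈ elts T u v, t := by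
  have hsub : Icc (V + 1) (2 * V) ⊆ elts T u v := by
    intro t ht
    rw [mem_Icc] at ht
    rw [mem_elts]
    exact ⟨⟨by omega, by omega⟩, hgap t (by omega) ht.2⟩
  calc V * V = ∑ _t ∈ Icc (V + 1) (2 * V), V := by
        rw [Finset.sum_const, Nat.card_Icc, smul_eq_mul]
        congr 1
        omega
    _ ≤ ∑ t ∈ Icc (V + 1) (2 * V), t := by
        apply Finset.sum_le_sum
        intro t ht
        rw [mem_Icc] at ht
        omega
    _ ≤ ∑ t ∈ elts T u v, t := Finset.sum_le_sum_of_subset hsub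

lemma factor (a p L K : ℕ) (hp : p.Prime) (h : L * K = 2 ^ (a + 1) * p) (hodd : Odd (L + K))
    (h2 : 2 ≤ L) (hLK : L < K) : (L = 2 ^ (a + 1) ∧ K = p) ∨ (L = p ∧ K = 2 ^ (a + 1)) := by
  have hpd : p ∣ L * K := by rw [h]; exact Dvd.intro_left _ rfl
  rcases (Nat.Prime.dvd_mul hp).mp hpd with hd | hd
  · right
    obtain ⟨l, hl⟩ := hd
    have h3 : l * K = 2 ^ (a + 1) := by
      rw [hl] at h
      have : p * (l * K) = p * 2 ^ (a + 1) := by rw [← mul_assoc, h]; ring
      exact Nat.eq_of_mul_eq_mul_left hp.pos this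
    obtain ⟨i, _, hi⟩ := (Nat.dvd_prime_pow Nat.prime_two).mp (⟨l, by rw [← h3]; ring⟩ :
      K ∣ 2 ^ (a + 1))
    obtain ⟨j, _, hj⟩ := (Nat.dvd_prime_pow Nat.prime_two).mp (⟨K, by rw [← h3]⟩ :
      l ∣ 2 ^ (a + 1))
    have hi1 : i ≠ 0 := by rintro rfl; simp at hi; omega
    have hKe : Even K := by
      rw [hi]
      exact (Nat.even_pow.mpr ⟨even_two, hi1⟩)
    have hLo : Odd L := by
      rcases Nat.even_or_odd L with h' | h'
      · exact absurd (h'.add hKe) (Nat.not_even_iff_odd.mpr hodd)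
      · exact h'
    have hlo : Odd l := by
      rw [hl] at hLo
      exact (Nat.odd_mul.mp hLo).2
    have hj0 : j = 0 := by
      by_contra hne
      have : Even l := by rw [hj]; exact Nat.even_pow.mpr ⟨even_two, hne⟩
      exact absurd this (Nat.not_even_iff_odd.mpr hlo)
    rw [hj0] at hj
    simp at hj
    subst hj
    constructor
    · rw [hl]; ring
    · rw [← h3]; ring
  · left
    obtain ⟨k, hk⟩ := hd
    have h3 : L * k = 2 ^ (a + 1) := by
      rw [hk] at h
      have : p * (L * k) = p * 2 ^ (a + 1) := by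
        calc p * (L * k) = L * (p * k) := by ring
          _ = p * 2 ^ (a + 1) := by rw [h]; ring
      exact Nat.eq_of_mul_eq_mul_left hp.pos this
    obtain ⟨i, _, hi⟩ := (Nat.dvd_prime_pow Nat.prime_two).mp (⟨k, by rw [← h3]⟩ :
      L ∣ 2 ^ (a + 1))
    obtain ⟨j, _, hj⟩ := (Nat.dvd_prime_pow Nat.prime_two).mp (⟨L, by rw [← h3]; ring⟩ :
      k ∣ 2 ^ (a + 1))
    have hi1 : i ≠ 0 := by rintro rfl; simp at hi; omega
    have hLe : Even L := by
      rw [hi]
      exact (Nat.even_pow.mpr ⟨even_two, hi1⟩)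
    have hKo : Odd K := by
      rcases Nat.even_or_odd K with h' | h'
      · exact absurd (hLe.add h') (Nat.not_even_iff_odd.mpr hodd)
      · exact h'
    have hko : Odd k := by
      rw [hk] at hKo
      exact (Nat.odd_mul.mp hKo).2
    have hj0 : j = 0 := by
      by_contra hne
      have : Even k := by rw [hj]; exact Nat.even_pow.mpr ⟨even_two, hne⟩
      exact absurd this (Nat.not_even_iff_odd.mpr hko)
    rw [hj0] at hj
    simp at hj
    subst hj
    constructor
    · rw [← h3]; ring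
    · rw [hk]; ring

lemma miss_mono {T : Set ℕ} {u v u' v' : ℕ} (hu : u' ≤ u) (hv : v ≤ v') :
    miss T u v ⊆ miss T u' v' := by
  intro z hz
  rw [mem_miss] at hz ⊢
  exact ⟨⟨by omega, by omega⟩, hz.2⟩

lemma sum_miss_pos {T : Set ℕ} {u v : ℕ} (hu : 1 ≤ u) (h : ∑ t ∈ miss T u v, t = 0) :
    miss T u v = ∅ := by
  rw [Finset.eq_empty_iff_forall_notMem]
  intro z hz
  have h1 := Finset.sum_eq_zero_iff.mp h z hz
  rw [mem_miss] at hz
  omega

/-- the covering of the candidates -/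
theorem cover {T : Set ℕ} (hT : Rep T) (a A μ V X h Lm : ℕ) (hA : A = 2 ^ (a + 1))
    (hμ1 : 1 ≤ μ) (hμT : μ ∉ T) (hμA : 4 * μ ≤ A) (hV : 2 * A ≤ V)
    (hgap : ∀ t, μ < t → t ≤ 2 * V → t ∈ T) (hX : A ^ 2 ≤ X)
    (hh : (miss T 1 X).card ≤ h) (hLm : A ^ 2 / V + h ≤ Lm)
    (p : ℕ) (hp : p.Prime) (h1 : A < p + 2 * μ) (h2 : p < A + 2 * μ)
    (hN : 2 ^ a * p ∈ T) :
    (∃ z ∈ miss T 1 μ, ∃ L K : ℕ, L * K = A * p + 2 * ∑ t ∈ miss T z μ, t ∧ L < K ∧
        K < L + 2 * μ ∧ Odd (L + K)) ∨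
    (∃ z1 ∈ miss T 1 X, ∃ z2 ∈ miss T 1 X, ∃ L K : ℕ,
        L * K = A * p + 2 * ∑ t ∈ miss T z1 z2, t ∧ 1 ≤ L ∧ L ≤ Lm ∧ 2 * z1 < K + L ∧
        K < 2 * z1 + L) := by
  have hA2 : A = 2 * 2 ^ a := by rw [hA]; ring
  set N := 2 ^ a * p with hNdef
  have hAN : A * p = 2 * N := by rw [hA2, hNdef]; ring
  have hNA : N < A ^ 2 := by
    have : 2 * N < 2 * A ^ 2 := by
      rw [← hAN]
      nlinarith
    omega
  have hNlow : 2 * μ * μ < N := by
    have : 2 * (2 * μ * μ) < A * p := by nlinarith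
    omega
  have hN3 : 3 ≤ N := by
    by_contra hcon
    push Not at hcon
    have : A * p ≤ 4 := by omega
    have hp2 := hp.two_le
    have : 4 ≤ A := by omega
    nlinarith
  obtain ⟨u, v, hu, hv, huv, hsum⟩ := hT.rep N hN hN3
  have hu1 : 1 ≤ u := by
    rcases Nat.eq_zero_or_pos u with h0 | h0
    · exact absurd (h0 ▸ hu) hT.zero
    · exact h0
  have hvN : v ≤ N := by
    rw [← hsum]
    exact Finset.single_le_sum (f := fun t => t) (fun _ _ => Nat.zero_le _)
      (mem_elts.mpr ⟨⟨huv.le, le_rfl⟩, hv⟩)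
  have hw := window T u v huv.le
  rw [hsum] at hw
  obtain ⟨k, rfl⟩ := Nat.exists_eq_add_of_le huv.le
  have eL : u + k + 1 - u = k + 1 := by omega
  rw [eL] at hw
  have hgap' : ∀ t, V < t → t ≤ 2 * V → t ∈ T := fun t ht1 ht2 => hgap t (by omega) ht2
  have hbig : ¬ (u ≤ V ∧ 2 * V ≤ u + k) := by
    rintro ⟨b1, b2⟩
    have := big_window T u (u + k) V hgap' b1 b2
    rw [hsum] at this
    nlinarith
  rcases Nat.lt_or_ge μ u with hcase | hcase
  · -- u > μ
    right
    have hne : (miss T u (u + k)).Nonempty := by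
      by_contra hcon
      rw [Finset.not_nonempty_iff_eq_empty] at hcon
      rw [hcon, Finset.sum_empty] at hw
      have h3 : (k + 1) * (u + (u + k)) = 2 ^ (a + 1) * p := by
        rw [hw, ← hA, hAN]; ring
      have hk1 : 1 ≤ k := by omega
      rcases factor a p (k + 1) (u + (u + k)) hp h3 ⟨u + k, by ring⟩ (by omega) (by omega) with
        ⟨e1, e2⟩ | ⟨e1, e2⟩
      · rw [← hA] at e1; omega
      · rw [← hA] at e2; omega
    set z1 := (miss T u (u + k)).min' hne with hz1
    set z2 := (miss T u (u + k)).max' hne with hz2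
    have m1 : z1 ∈ miss T u (u + k) := Finset.min'_mem _ _
    have m2 : z2 ∈ miss T u (u + k) := Finset.max'_mem _ _
    have hmin : ∀ z ∈ miss T u (u + k), z1 ≤ z := fun z hz => Finset.min'_le _ _ hz
    have hmax : ∀ z ∈ miss T u (u + k), z ≤ z2 := fun z hz => Finset.le_max' _ _ hz
    have hsubX : miss T u (u + k) ⊆ miss T 1 X := miss_mono hu1 (by omega)
    have heq : miss T z1 z2 = miss T u (u + k) := by
      apply Finset.Subset.antisymm
      · apply miss_mono
        · exact (mem_miss.mp m1).1.1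
        · exact (mem_miss.mp m2).1.2
      · intro z hz
        rw [mem_miss]
        exact ⟨⟨hmin z hz, hmax z hz⟩, (mem_miss.mp hz).2⟩
    have hz1V : 2 * V < z1 := by
      by_contra hcon
      push Not at hcon
      have := mem_miss.mp m1
      exact this.2 (hgap z1 (by omega) hcon)
    have hz1m := mem_miss.mp m1
    have huV : V < u := by
      by_contra hcon
      push Not at hcon
      exact hbig ⟨hcon, by omega⟩
    refine ⟨z1, hsubX m1, z2, hsubX m2, k + 1, u + (u + k), ?_, by omega, ?_, by omega, by omega⟩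
    · rw [heq, hw, hAN]
    · -- length bound
      have hc := card_elts_add_miss T u (u + k)
      rw [eL] at hc
      have hcm : (miss T u (u + k)).card ≤ h := (Finset.card_le_card hsubX).trans hh
      have hce : (elts T u (u + k)).card * V ≤ A ^ 2 := by
        have : (elts T u (u + k)).card * V ≤ ∑ t ∈ elts T u (u + k), t := by
          rw [← smul_eq_mul, ← Finset.sum_const]
          apply Finset.sum_le_sum
          intro t ht
          have := mem_elts.mp ht
          omega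
        rw [hsum] at this
        omega
      have hVpos : 0 < V := by omega
      have hce2 : (elts T u (u + k)).card ≤ A ^ 2 / V := (Nat.le_div_iff_mul_le hVpos).mpr hce
      omega
  · left
    have hvμ : μ < u + k := by
      by_contra hcon
      push Not at hcon
      have h5 : (k + 1) * (u + (u + k)) ≤ 2 * μ * μ := by
        have a1 : k + 1 ≤ μ := by omega
        have a2 : u + (u + k) ≤ 2 * μ := by omega
        calc (k + 1) * (u + (u + k)) ≤ μ * (2 * μ) := Nat.mul_le_mul a1 a2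
          _ = 2 * μ * μ := by ring
      omega
    have hvV : u + k ≤ 2 * V := by
      by_contra hcon
      push Not at hcon
      exact hbig ⟨by omega, hcon.le⟩
    have heq0 : miss T u (u + k) = miss T u μ := by
      apply Finset.Subset.antisymm
      · intro z hz
        have hz' := mem_miss.mp hz
        rw [mem_miss]
        refine ⟨⟨hz'.1.1, ?_⟩, hz'.2⟩
        by_contra hcon
        push Not at hcon
        exact hz'.2 (hgap z hcon (by omega))
      · exact miss_mono le_rfl hvμ.le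
    have hμm : μ ∈ miss T u μ := mem_miss.mpr ⟨⟨hcase, le_rfl⟩, hμT⟩
    have hne : (miss T u μ).Nonempty := ⟨μ, hμm⟩
    set z := (miss T u μ).min' hne with hz
    have m1 : z ∈ miss T u μ := Finset.min'_mem _ _
    have hmin : ∀ w ∈ miss T u μ, z ≤ w := fun w hw => Finset.min'_le _ _ hw
    have heq : miss T z μ = miss T u μ := by
      apply Finset.Subset.antisymm
      · exact miss_mono (mem_miss.mp m1).1.1 le_rfl
      · intro w hw
        rw [mem_miss]
        exact ⟨⟨hmin w hw, (mem_miss.mp hw).1.2⟩, (mem_miss.mp hw).2⟩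
    refine ⟨z, miss_mono hu1 le_rfl m1, k + 1, u + (u + k), ?_, by omega, by omega,
      ⟨u + k, by ring⟩⟩
    rw [heq, ← heq0, hw, hAN]

/-- The counting inequality. -/
theorem key {T : Set ℕ} (hT : Rep T) (a A μ V X h Lm D : ℕ) (hA : A = 2 ^ (a + 1))
    (hμ1 : 1 ≤ μ) (hμT : μ ∉ T) (hμA : 4 * μ ≤ A) (hV : 2 * A ≤ V)
    (hgap : ∀ t, μ < t → t ≤ 2 * V → t ∈ T) (hX : A ^ 2 ≤ X)
    (hh : (miss T 1 X).card ≤ h) (hhμ : h * μ < A) (hLm : A ^ 2 / V + h ≤ Lm)
    (h2L : 2 * Lm ≤ A) (hD : 1 ≤ D) (hHD : (4 * μ) ^ 2 ≤ D ^ 3)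
    (P : Finset ℕ) (hP : ∀ p ∈ P, p.Prime ∧ Odd p ∧ A < p + 2 * μ ∧ p < A + 2 * μ) :
    (P.card : ℝ) ≤ h +
      h * (16 * (2 * (((4 * μ) ^ 2 / (2 * A) + 1 : ℕ) : ℝ) + D) * mom 3 D) +
      h ^ 2 * ((a + 2) * Lm) := by
  classical
  have hA2 : A = 2 * 2 ^ a := by rw [hA]; ring
  have hApos : 0 < A := by omega
  have hμX : μ ≤ X := by nlinarith
  set P0 := P.filter (fun p => 2 ^ a * p ∉ T) with hP0
  set Q1 : ℕ → Finset ℕ := fun z => P.filter (fun p => ∃ L K : ℕ,
    L * K = A * p + 2 * ∑ t ∈ miss T z μ, t ∧ L < K ∧ K < L + 2 * μ ∧ Odd (L + K)) with hQ1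
  set Q2 : ℕ × ℕ → Finset ℕ := fun z => P.filter (fun p => ∃ L K : ℕ,
        L * K = A * p + 2 * ∑ t ∈ miss T z.1 z.2, t ∧ 1 ≤ L ∧ L ≤ Lm ∧ 2 * z.1 < K + L ∧
        K < 2 * z.1 + L) with hQ2
  have hcov : P ⊆ (P0 ∪ (miss T 1 μ).biUnion Q1) ∪ (miss T 1 X ×ˢ miss T 1 X).biUnion Q2 := by
    intro p hp
    obtain ⟨b1, b2, b3, b4⟩ := hP p hp
    by_cases hN : 2 ^ a * p ∈ T
    · rcases cover hT a A μ V X h Lm hA hμ1 hμT hμA hV hgap hX hh hLm p b1 b3 b4 hN with
        ⟨z, hz, hLK⟩ | ⟨z1, hz1, z2, hz2, hLK⟩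
      · apply mem_union_left
        apply mem_union_right
        rw [mem_biUnion]
        exact ⟨z, hz, mem_filter.mpr ⟨hp, hLK⟩⟩
      · apply mem_union_right
        rw [mem_biUnion]
        exact ⟨(z1, z2), mem_product.mpr ⟨hz1, hz2⟩, mem_filter.mpr ⟨hp, hLK⟩⟩
    · apply mem_union_left
      apply mem_union_left
      exact mem_filter.mpr ⟨hp, hN⟩
  have c0 : P0.card ≤ h := by
    refine le_trans ?_ hh
    apply Finset.card_le_card_of_injOn (fun p => 2 ^ a * p)
    · intro p hp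
      rw [Finset.mem_coe, hP0, mem_filter] at hp
      obtain ⟨b1, b2, b3, b4⟩ := hP p hp.1
      rw [Finset.mem_coe, mem_miss]
      refine ⟨⟨?_, ?_⟩, hp.2⟩
      · exact Nat.mul_pos (by positivity) b1.pos
      · have : 2 * (2 ^ a * p) ≤ 2 * A ^ 2 := by
          rw [← mul_assoc, ← hA2]
          nlinarith
        have h9 : 2 ^ a * p ≤ X := by omega
        exact h9
    · intro p _ q _ hpq
      simp only at hpq
      exact Nat.eq_of_mul_eq_mul_left (by positivity) hpq
  have c1 : (((miss T 1 μ).biUnion Q1).card : ℝ) ≤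
      h * (16 * (2 * (((4 * μ) ^ 2 / (2 * A) + 1 : ℕ) : ℝ) + D) * mom 3 D) := by
    have e1 : (((miss T 1 μ).biUnion Q1).card : ℝ) ≤ ∑ z ∈ miss T 1 μ, ((Q1 z).card : ℝ) := by
      exact_mod_cast Finset.card_biUnion_le
    refine e1.trans ?_
    have e2 : ∑ z ∈ miss T 1 μ, ((Q1 z).card : ℝ) ≤
        ∑ _z ∈ miss T 1 μ, (16 * (2 * (((4 * μ) ^ 2 / (2 * A) + 1 : ℕ) : ℝ) + D) * mom 3 D) := by
      apply Finset.sum_le_sum
      intro z hz
      have hz' := mem_miss.mp hz
      have hμm : μ ∈ miss T z μ := mem_miss.mpr ⟨⟨hz'.1.2, le_rfl⟩, hμT⟩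
      apply one_count a A (∑ t ∈ miss T z μ, t) μ D hA ?_ ?_ hμA hμ1 hD hHD
      · intro p hp
        rw [hQ1, mem_filter] at hp
        obtain ⟨b1, b2, b3, b4⟩ := hP p hp.1
        exact ⟨b3, b4, b2, hp.2⟩
      · have : μ ≤ ∑ t ∈ miss T z μ, t :=
          Finset.single_le_sum (f := fun t => t) (fun _ _ => Nat.zero_le _) hμm
        omega
      · have h3 : ∑ t ∈ miss T z μ, t ≤ (miss T z μ).card * μ := by
          rw [← smul_eq_mul, ← Finset.sum_const]
          apply Finset.sum_le_sum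
          intro t ht
          exact (mem_miss.mp ht).1.2
        have h4 : (miss T z μ).card ≤ h :=
          (Finset.card_le_card (miss_mono hz'.1.1 hμX)).trans hh
        have h5 : (miss T z μ).card * μ ≤ h * μ := Nat.mul_le_mul_right _ h4
        omega
    refine e2.trans ?_
    rw [Finset.sum_const, nsmul_eq_mul]
    have h6 : ((miss T 1 μ).card : ℝ) ≤ h := by
      exact_mod_cast (Finset.card_le_card (miss_mono le_rfl hμX)).trans hh
    apply mul_le_mul_of_nonneg_right h6
    have := mom_nonneg 3 D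
    positivity
  have c2 : (((miss T 1 X ×ˢ miss T 1 X).biUnion Q2).card : ℝ) ≤ h ^ 2 * ((a + 2) * Lm) := by
    have e1 : ((miss T 1 X ×ˢ miss T 1 X).biUnion Q2).card ≤
        ∑ z ∈ miss T 1 X ×ˢ miss T 1 X, (Q2 z).card := Finset.card_biUnion_le
    have e2 : ∑ z ∈ miss T 1 X ×ˢ miss T 1 X, (Q2 z).card ≤
        ∑ _z ∈ miss T 1 X ×ˢ miss T 1 X, (a + 2) * Lm := by
      apply Finset.sum_le_sum
      intro z _
      apply two_count a A (∑ t ∈ miss T z.1 z.2, t) z.1 Lm hA h2L
      intro p hp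
      rw [hQ2, mem_filter] at hp
      exact hp.2
    rw [Finset.sum_const, smul_eq_mul, Finset.card_product] at e2
    have e3 : (miss T 1 X).card * (miss T 1 X).card * ((a + 2) * Lm) ≤
        h ^ 2 * ((a + 2) * Lm) := by
      apply Nat.mul_le_mul_right
      rw [sq]
      exact Nat.mul_le_mul hh hh
    exact_mod_cast e1.trans (e2.trans e3)
  have hc : P.card ≤ (P0.card + ((miss T 1 μ).biUnion Q1).card) +
      ((miss T 1 X ×ˢ miss T 1 X).biUnion Q2).card := by
    calc P.card ≤ _ := Finset.card_le_card hcov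
      _ ≤ (P0 ∪ (miss T 1 μ).biUnion Q1).card +
          ((miss T 1 X ×ˢ miss T 1 X).biUnion Q2).card := Finset.card_union_le _ _
      _ ≤ _ := by
          gcongr
          exact Finset.card_union_le _ _
  have hc' : (P.card : ℝ) ≤ (P0.card + (((miss T 1 μ).biUnion Q1).card : ℝ)) +
      (((miss T 1 X ×ˢ miss T 1 X).biUnion Q2).card : ℝ) := by exact_mod_cast hc
  have c0' : (P0.card : ℝ) ≤ h := by exact_mod_cast c0
  linarith

end Run7.h437
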