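import Pool.Agent.Run7.h437.LbHyp

/-!
# Short windows near a given number
-/

set_option autoImplicit false

namespace Run7.h437

open Finset

lemma gcd_le_sum (a L : ℕ) :
    Nat.gcd L (2 ^ (a + 1)) ≤ ∑ j ∈ range (a + 2), if 2 ^ j ∣ L then 2 ^ j else 0 := by
  obtain ⟨i, hi, he⟩ := (Nat.dvd_prime_pow Nat.prime_two).mp (Nat.gcd_dvd_right L (2 ^ (a + 1)))
  rw [he]
  have hdvd : 2 ^ i ∣ L := by rw [← he]; exact Nat.gcd_dvd_left _ _
  have h := Finset.single_le_sum (f := fun j => if 2 ^ j ∣ L then 2 ^ j else 0)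
    (s := range (a + 2)) (fun _ _ => Nat.zero_le _) (mem_range.mpr (show i < a + 2 by omega))
  simp only [hdvd, if_true] at h
  exact h

lemma sum_gcd (a Lm : ℕ) : ∑ L ∈ Icc 1 Lm, Nat.gcd L (2 ^ (a + 1)) ≤ (a + 2) * Lm := by
  calc ∑ L ∈ Icc 1 Lm, Nat.gcd L (2 ^ (a + 1)) ≤
        ∑ L ∈ Icc 1 Lm, ∑ j ∈ range (a + 2), (if 2 ^ j ∣ L then 2 ^ j else 0) :=
        Finset.sum_le_sum (fun L _ => gcd_le_sum a L)
    _ = ∑ j ∈ range (a + 2), ∑ L ∈ Icc 1 Lm, (if 2 ^ j ∣ L then 2 ^ j else 0) :=
        Finset.sum_comm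
    _ ≤ ∑ j ∈ range (a + 2), Lm := by
        apply Finset.sum_le_sum
        intro j _
        rw [← Finset.sum_filter, Finset.sum_const, smul_eq_mul]
        have h1 : ((Icc 1 Lm).filter (fun L => 2 ^ j ∣ L)).card = Lm / 2 ^ j := by
          have := Nat.Ioc_filter_dvd_card_eq_div Lm (2 ^ j)
          rw [← this]
          rfl
        rw [h1]
        exact Nat.div_mul_le_self _ _
    _ = (a + 2) * Lm := by simp

lemma count_K (a A M z L : ℕ) (hA : A = 2 ^ (a + 1)) (hL1 : 1 ≤ L) (hL : 2 * L ≤ A) :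
    ((Icc (2 * (z : ℤ) - L + 1) (2 * z + L - 1)).filter
      (fun K => (A : ℤ) ∣ L * K - 2 * M)).card ≤ Nat.gcd L A := by
  have hApos : 0 < A := by omega
  have hg : 0 < Nat.gcd L A := Nat.gcd_pos_of_pos_right _ hApos
  obtain ⟨l, m, hcop, hLl, hAm⟩ := Nat.exists_coprime L A
  set g := Nat.gcd L A with hgdef
  have hm : 0 < m := by
    rcases Nat.eq_zero_or_pos m with h | h
    · subst h; simp at hAm; omega
    · exact h
  have h := card_le_of_dvd_sub ((Icc (2 * (z : ℤ) - L + 1) (2 * z + L - 1)).filter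
      (fun K => (A : ℤ) ∣ L * K - 2 * M)) (2 * (z : ℤ) - L + 1) (2 * z + L - 1) m
      (by exact_mod_cast hm) (by omega)
      (by
        intro x hx
        rw [mem_filter, mem_Icc] at hx
        exact hx.1)
      (by
        intro x hx y hy
        rw [mem_filter] at hx hy
        have h1 : (A : ℤ) ∣ L * (x - y) := by
          have := dvd_sub hx.2 hy.2
          have e : ((L : ℤ) * x - 2 * M) - (L * y - 2 * M) = L * (x - y) := by ring
          rwa [e] at this
        have h2 : (g : ℤ) * m ∣ g * (l * (x - y)) := by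
          have e1 : (g : ℤ) * m = A := by
            conv_rhs => rw [hAm]
            push_cast; ring
          have e2 : (g : ℤ) * (l * (x - y)) = L * (x - y) := by
            conv_rhs => rw [hLl]
            push_cast; ring
          rw [e1, e2]
          exact h1
        have h3 : (m : ℤ) ∣ l * (x - y) :=
          (mul_dvd_mul_iff_left (by exact_mod_cast hg.ne')).mp h2
        have hc : IsCoprime (m : ℤ) (l : ℤ) := Nat.isCoprime_iff_coprime.mpr hcop.symm
        exact hc.dvd_of_dvd_mul_left h3)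
  have h4 : (2 * (z : ℤ) + L - 1 - (2 * z - L + 1)) / m < g := by
    apply Int.ediv_lt_of_lt_mul (by exact_mod_cast hm)
    have e1 : (g : ℤ) * m = A := by
      conv_rhs => rw [hAm]
      push_cast; ring
    rw [e1]
    have : (2 : ℤ) * L ≤ A := by exact_mod_cast hL
    omega
  have h5 : (((Icc (2 * (z : ℤ) - L + 1) (2 * z + L - 1)).filter
      (fun K => (A : ℤ) ∣ L * K - 2 * M)).card : ℤ) ≤ g := by omega
  exact Int.ofNat_le.mp h5

/-- few primes (indeed few numbers) `p` are served by short windows near `z` -/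
lemma two_count (a A M z Lm : ℕ) (hA : A = 2 ^ (a + 1)) (hL : 2 * Lm ≤ A) (P : Finset ℕ)
    (hP : ∀ p ∈ P, ∃ L K : ℕ, L * K = A * p + 2 * M ∧ 1 ≤ L ∧ L ≤ Lm ∧ 2 * z < K + L ∧
      K < 2 * z + L) : P.card ≤ (a + 2) * Lm := by
  classical
  have hApos : 0 < A := by rw [hA]; positivity
  set f : ℕ → Finset ℤ := fun L => (Icc (2 * (z : ℤ) - L + 1) (2 * z + L - 1)).filter
      (fun K => (A : ℤ) ∣ L * K - 2 * M) with hf
  choose! L K h1 h2 h3 h4 h5 using hP
  have hcard : P.card ≤ ((Icc 1 Lm).sigma f).card := by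
    apply Finset.card_le_card_of_injOn (fun p => (⟨L p, (K p : ℤ)⟩ : (_ : ℕ) × ℤ))
    · intro p hp
      have a1 := h1 p hp
      have a2 := h2 p hp
      have a3 := h3 p hp
      have a4 := h4 p hp
      have a5 := h5 p hp
      rw [Finset.mem_coe, Finset.mem_sigma]
      simp only [hf, mem_Icc, mem_filter]
      refine ⟨⟨a2, a3⟩, ⟨by omega, by omega⟩, ⟨(p : ℤ), ?_⟩⟩
      have : ((L p : ℤ)) * (K p : ℤ) = A * p + 2 * M := by exact_mod_cast a1
      linarith
    · intro p hp q hq hpq
      simp only [Sigma.mk.injEq, heq_eq_eq, Nat.cast_inj] at hpq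
      have a1 := h1 p hp
      have a2 := h1 q hq
      rw [hpq.1, hpq.2] at a1
      have : A * p = A * q := by omega
      exact Nat.eq_of_mul_eq_mul_left hApos this
  calc P.card ≤ ((Icc 1 Lm).sigma f).card := hcard
    _ = ∑ L ∈ Icc 1 Lm, (f L).card := Finset.card_sigma _ _
    _ ≤ ∑ L ∈ Icc 1 Lm, Nat.gcd L (2 ^ (a + 1)) := by
        apply Finset.sum_le_sum
        intro L hLm
        rw [mem_Icc] at hLm
        rw [← hA]
        exact count_K a A M z L hA hLm.1 (by omega)
    _ ≤ (a + 2) * Lm := sum_gcd a Lm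

/-- few numbers are served by windows with both ends near `A` -/
lemma one_count (a A M μ D : ℕ) (hA : A = 2 ^ (a + 1)) (h0 : 0 < M) (hM : M < A)
    (hμ : 4 * μ ≤ A) (hμ1 : 1 ≤ μ)
    (hD : 1 ≤ D) (hHD : (4 * μ) ^ 2 ≤ D ^ 3) (P : Finset ℕ)
    (hP : ∀ p ∈ P, A < p + 2 * μ ∧ p < A + 2 * μ ∧ Odd p ∧
      ∃ L K : ℕ, L * K = A * p + 2 * M ∧ L < K ∧ K < L + 2 * μ ∧ Odd (L + K)) :
    (P.card : ℝ) ≤ 16 * (2 * (((4 * μ) ^ 2 / (2 * A) + 1 : ℕ) : ℝ) + D) * mom 3 D := by
  classical
  refine le_trans ?_ (hyp_count a A M (4 * μ) D hA h0 hM hD hHD)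
  have hApos : 0 < A := by rw [hA]; positivity
  choose! hp1 hp2 hp3 L K h1 h2 h3 h4 using hP
  have hcard : P.card ≤ (RR A M (4 * μ)).card := by
    apply Finset.card_le_card_of_injOn (fun p => ((L p : ℤ) - A, (K p : ℤ) - A))
    · intro p hp
      have b1 : (A : ℤ) < p + 2 * μ := by exact_mod_cast hp1 p hp
      have b2 : (p : ℤ) < A + 2 * μ := by exact_mod_cast hp2 p hp
      have a1 : (L p : ℤ) * K p = A * p + 2 * M := by exact_mod_cast h1 p hp
      have a2 : (L p : ℤ) < K p := by exact_mod_cast h2 p hp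
      have a3 : (K p : ℤ) < L p + 2 * μ := by exact_mod_cast h3 p hp
      have hMZ : (M : ℤ) < A := by exact_mod_cast hM
      have hM0 : (0 : ℤ) < M := by exact_mod_cast h0
      have hμZ : 4 * (μ : ℤ) ≤ A := by exact_mod_cast hμ
      have hμ1Z : (1 : ℤ) ≤ μ := by exact_mod_cast hμ1
      have hL0 : (0 : ℤ) ≤ L p := by positivity
      have hAZ : (0 : ℤ) < A := by exact_mod_cast hApos
      -- upper bound for L
      have c1 : (L p : ℤ) < A + 2 * μ := by
        by_contra hcon
        push Not at hcon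
        have e1 : ((A : ℤ) + 2 * μ) * (A + 2 * μ) ≤ L p * K p :=
          mul_le_mul hcon (by omega) (by positivity) hL0
        have e2 : (A : ℤ) * p ≤ A * (A + 2 * μ - 1) := mul_le_mul_of_nonneg_left (by omega) hAZ.le
        nlinarith
      have c2 : (A : ℤ) - 2 * μ < K p := by
        by_contra hcon
        push Not at hcon
        have e1 : (L p : ℤ) * K p ≤ (A - 2 * μ) * (A - 2 * μ) :=
          mul_le_mul (by omega) hcon (by positivity) (by omega)
        have e2 : (A : ℤ) * (A - 2 * μ + 1) ≤ A * p := mul_le_mul_of_nonneg_left (by omega) hAZ.le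
        nlinarith
      have hodd := h4 p hp
      have hoddp := hp3 p hp
      rw [Finset.mem_coe, RR, mem_filter, mem_product, mem_Icc, mem_Icc]
      have hsumodd : Odd (((L p : ℤ) - A) + ((K p : ℤ) - A)) := by
        have e : ((L p : ℤ) - A) + ((K p : ℤ) - A) = ((L p + K p : ℕ) : ℤ) - 2 * A := by
          push_cast; ring
        rw [e]
        exact Odd.sub_even ((Int.odd_coe_nat _).mpr hodd) (even_two_mul _)
      refine ⟨⟨⟨?_, ?_⟩, ?_, ?_⟩, hsumodd, ?_⟩
      · push_cast; omega
      · push_cast; omega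
      · push_cast; omega
      · push_cast; omega
      · -- divisibility
        simp only
        have hodd2 : Odd ((p : ℤ) - A + A) := by
          rw [sub_add_cancel]
          exact (Int.odd_coe_nat _).mpr hoddp
        have e : ((L p : ℤ) - A) * ((K p : ℤ) - A) - 2 * M =
            A * ((p : ℤ) - (((L p : ℤ) - A) + ((K p : ℤ) - A)) - A) := by
          linear_combination a1
        rw [e]
        have heven : Even ((p : ℤ) - (((L p : ℤ) - A) + ((K p : ℤ) - A)) - A) := by
          have hAe : Even (A : ℤ) := by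
            rw [hA]
            push_cast
            exact ⟨2 ^ a, by ring⟩
          exact (((Int.odd_coe_nat _).mpr hoddp).sub_odd hsumodd).sub hAe
        obtain ⟨k, hk⟩ := heven
        exact ⟨k, by rw [hk]; ring⟩
    · intro p hp q hq hpq
      simp only [Prod.mk.injEq] at hpq
      have a1 : (L p : ℤ) * K p = A * p + 2 * M := by exact_mod_cast h1 p hp
      have a2 : (L q : ℤ) * K q = A * q + 2 * M := by exact_mod_cast h1 q hq
      have e1 : (L p : ℤ) = L q := by omega
      have e2 : (K p : ℤ) = K q := by omega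
      rw [e1, e2] at a1
      have h5 : (A : ℤ) * p = A * q := by linarith
      have h6 : (p : ℤ) = q := mul_left_cancel₀ (by exact_mod_cast hApos.ne') h5
      exact_mod_cast h6
  exact_mod_cast hcard

end Run7.h437
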