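import Pool.Agent.Run7.h437.RegularLog
import Pool.Agent.Run7.h437.Collision

/-!
# The two regimes of the final induction
-/

set_option autoImplicit false

namespace Run7.h437

open Finset

variable {b : ℕ → ℕ}

lemma Closed.S_bound (hb : Closed b) {C θ : ℝ} (hθ : 0 ≤ θ) {n : ℕ}
    (ih : ∀ k < n, (b k : ℝ) ≤ C * ((k : ℝ) + 1) ^ θ) {P : ℕ} (hP : P ≤ n) :
    (S b P : ℝ) ≤ C * (P : ℝ) ^ (1 + θ) := by
  rcases Nat.eq_zero_or_pos P with h0 | h0
  · subst h0
    simp only [S_zero, Nat.cast_zero]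
    rw [Real.zero_rpow (by linarith)]
    simp
  · obtain ⟨m, rfl⟩ : ∃ m, P = m + 1 := ⟨P - 1, by omega⟩
    have h1 : S b (m + 1) ≤ (m + 1) * b m := hb.S_le _ _ le_rfl
    have h2 := ih m (by omega)
    have h3 : (S b (m + 1) : ℝ) ≤ ((m : ℝ) + 1) * b m := by exact_mod_cast h1
    have hm : (0 : ℝ) < (m : ℝ) + 1 := by positivity
    push_cast
    calc (S b (m + 1) : ℝ) ≤ ((m : ℝ) + 1) * b m := h3
      _ ≤ ((m : ℝ) + 1) * (C * ((m : ℝ) + 1) ^ θ) := by gcongr
      _ = C * (((m : ℝ) + 1) ^ (1 : ℝ) * ((m : ℝ) + 1) ^ θ) := by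
          rw [Real.rpow_one]; ring
      _ = C * ((m : ℝ) + 1) ^ (1 + θ) := by rw [← Real.rpow_add hm]

/-- `P ≤ K` from a size comparison -/
lemma le_of_exp_le {J M : ℕ} {l w : ℝ} (hl : Real.exp l = (J : ℝ) + 1) (hl20 : 20 ≤ l)
    (hM2 : 2 * M ≤ J + 1) (hw : w ≤ l - 2) : ⌊Real.exp w⌋₊ ≤ J - M := by
  have h1 : Real.exp w ≤ Real.exp l * (1 / 4) := by
    calc Real.exp w ≤ Real.exp (l - 2) := Real.exp_le_exp.mpr hw
      _ = Real.exp l * Real.exp (-2) := by rw [← Real.exp_add]; ring_nf
      _ ≤ Real.exp l * (1 / 4) := by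
          have h2 : (4 : ℝ) ≤ Real.exp 2 := by
            have h3 : (2 : ℝ) ≤ Real.exp 1 := by
              have := Real.add_one_le_exp (1 : ℝ)
              linarith
            calc (4 : ℝ) = 2 * 2 := by norm_num
              _ ≤ Real.exp 1 * Real.exp 1 := by gcongr
              _ = Real.exp 2 := by rw [← Real.exp_add]; norm_num
          have h4 : Real.exp (-2) ≤ 1 / 4 := by
            rw [Real.exp_neg, inv_eq_one_div]
            exact one_div_le_one_div_of_le (by norm_num) h2
          gcongr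
  have h2 : (⌊Real.exp w⌋₊ : ℝ) ≤ Real.exp w := Nat.floor_le (Real.exp_pos _).le
  have h3 : (3 : ℝ) ≤ (J : ℝ) := by
    have := Real.add_one_le_exp l
    linarith
  have h3' : 3 ≤ J := by exact_mod_cast h3
  have h4 : (⌊Real.exp w⌋₊ : ℝ) * 4 ≤ (J : ℝ) + 1 := by
    rw [hl] at h1
    linarith
  have h5 : ⌊Real.exp w⌋₊ * 4 ≤ J + 1 := by exact_mod_cast h4
  omega

lemma exp_rpow' (w r : ℝ) : (Real.exp w) ^ r = Real.exp (w * r) := by
  rw [Real.rpow_def_of_pos (Real.exp_pos _), Real.log_exp]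

/-- the regime where the trivial bound for coincidences is used -/
lemma Closed.regimeT (hb : Closed b) {C θ δ l u : ℝ} (hC : 0 < C) (hθ1 : 1 ≤ θ)
    (hθ2 : θ < 2) (hδ : 0 ≤ δ) {n J M : ℕ}
    (ih : ∀ k < n, (b k : ℝ) ≤ C * ((k : ℝ) + 1) ^ θ) (hJn : J < n) (hSJ : S b J < b n)
    (hM1 : 1 ≤ M) (hM2 : 2 * M ≤ J + 1)
    (hl : Real.exp l = (J : ℝ) + 1) (hl20 : 20 ≤ l)
    (hM : Real.exp ((1 - 2 * δ) * l) ≤ M)
    (hbK : C * Real.exp (u - 4 * δ * l) ≤ b (J - M))
    (hn : (n : ℝ) + 1 < Real.exp ((l + u) / θ)) (hu : u ≤ θ * l)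
    (hcond : (2 + θ) * (l + u) + θ * (2 + θ) * Real.log 2 ≤
      θ * (2 + θ) * ((1 - 2 * δ) * l) + θ * ((1 - 6 * δ) * l + u - Real.log 2)) : False := by
  have hlog2 : 0 < Real.log 2 := Real.log_pos (by norm_num)
  have hθ0 : 0 < θ := by linarith
  set w := ((1 - 6 * δ) * l + u - Real.log 2) / (2 + θ) with hw
  have hwmul : w * (2 + θ) = (1 - 6 * δ) * l + u - Real.log 2 := by
    rw [hw]; field_simp
  set P := ⌊Real.exp w⌋₊ with hP
  have hPle : (P : ℝ) ≤ Real.exp w := Nat.floor_le (Real.exp_pos _).le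
  have hPlt : Real.exp w < (P : ℝ) + 1 := Nat.lt_floor_add_one _
  have hPK : P ≤ J - M := by
    apply le_of_exp_le hl hl20 hM2
    have h1 : w * (2 + θ) ≤ (l - 2) * (2 + θ) := by
      rw [hwmul]
      nlinarith [mul_nonneg hδ (by linarith : (0 : ℝ) ≤ l)]
    exact le_of_mul_le_mul_right h1 (by linarith)
  have hKM : J - M + M = J := by omega
  have hSP : (S b P : ℝ) ≤ C * (P : ℝ) ^ (1 + θ) := hb.S_bound (by linarith) ih (by omega)
  have h1 : 2 * (P * S b P) ≤ M * b (J - M) := by
    have : (2 : ℝ) * (P * S b P) ≤ M * b (J - M) := by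
      calc (2 : ℝ) * (P * S b P) ≤ 2 * (Real.exp w * (C * (Real.exp w) ^ (1 + θ))) := by
            have h2 : (P : ℝ) ^ (1 + θ) ≤ (Real.exp w) ^ (1 + θ) := by
              apply Real.rpow_le_rpow (Nat.cast_nonneg _) hPle (by linarith)
            have h3 : (S b P : ℝ) ≤ C * (Real.exp w) ^ (1 + θ) := by
              calc (S b P : ℝ) ≤ C * (P : ℝ) ^ (1 + θ) := hSP
                _ ≤ C * (Real.exp w) ^ (1 + θ) := by gcongr
            gcongr
        _ = C * (2 * Real.exp (w * (2 + θ))) := by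
            rw [exp_rpow']
            have : Real.exp (w * (2 + θ)) = Real.exp w * Real.exp (w * (1 + θ)) := by
              rw [← Real.exp_add]; ring_nf
            rw [this]; ring
        _ = C * Real.exp ((1 - 6 * δ) * l + u) := by
            rw [hwmul, Real.exp_sub, Real.exp_log (by norm_num)]
            ring
        _ = Real.exp ((1 - 2 * δ) * l) * (C * Real.exp (u - 4 * δ * l)) := by
            have : Real.exp ((1 - 6 * δ) * l + u) =
                Real.exp ((1 - 2 * δ) * l) * Real.exp (u - 4 * δ * l) := by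
              rw [← Real.exp_add]; ring_nf
            rw [this]; ring
        _ ≤ M * b (J - M) := by gcongr
    exact_mod_cast this
  have h2 : 2 * (n + 1) ≤ M * (P + 1) := by
    have : (2 : ℝ) * ((n : ℝ) + 1) ≤ M * ((P : ℝ) + 1) := by
      calc (2 : ℝ) * ((n : ℝ) + 1) ≤ 2 * Real.exp ((l + u) / θ) := by gcongr
        _ = Real.exp (Real.log 2 + (l + u) / θ) := by
            rw [Real.exp_add, Real.exp_log (by norm_num)]
        _ ≤ Real.exp ((1 - 2 * δ) * l + w) := by
            apply Real.exp_le_exp.mpr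
            have h3 : (Real.log 2 + (l + u) / θ) * (θ * (2 + θ)) ≤
                ((1 - 2 * δ) * l + w) * (θ * (2 + θ)) := by
              have e1 : (Real.log 2 + (l + u) / θ) * (θ * (2 + θ)) =
                  (2 + θ) * (l + u) + θ * (2 + θ) * Real.log 2 := by
                field_simp
                ring
              have e2 : ((1 - 2 * δ) * l + w) * (θ * (2 + θ)) =
                  θ * (2 + θ) * ((1 - 2 * δ) * l) + θ * (w * (2 + θ)) := by ring
              rw [e1, e2, hwmul]
              exact hcond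
            exact le_of_mul_le_mul_right h3 (by positivity)
        _ = Real.exp ((1 - 2 * δ) * l) * Real.exp w := Real.exp_add _ _
        _ ≤ M * ((P : ℝ) + 1) := by gcongr
    exact_mod_cast this
  have h3 := hb.term_le_trivial (J - M) M P n hPK h1 h2
  rw [hKM] at h3
  omega

/-- the regime where the incidence bound is used -/
lemma Closed.regimeI (hb : Closed b) {C θ δ l u : ℝ} (hC : 0 < C) (hθ1 : 1 ≤ θ)
    (hθ2 : θ < 2) (hδ : 0 ≤ δ) (hδ1 : δ ≤ 1 / 4) {n J M : ℕ}
    (ih : ∀ k < n, (b k : ℝ) ≤ C * ((k : ℝ) + 1) ^ θ) (hJn : J < n) (hSJ : S b J < b n)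
    (hM1 : 1 ≤ M) (hM2 : 2 * M ≤ J + 1)
    (hl : Real.exp l = (J : ℝ) + 1) (hl20 : 20 ≤ l)
    (hM : Real.exp ((1 - 2 * δ) * l) ≤ M)
    (hbK : C * Real.exp (u - 4 * δ * l) ≤ b (J - M))
    (hn : (n : ℝ) + 1 < Real.exp ((l + u) / θ)) (hu : u ≤ θ * l)
    (hcond1 : (1 + θ) * (2 * ((1 - 2 * δ) * l / 3)) ≤
      (1 - 2 * δ) * l / 3 + u - 4 * δ * l - Real.log 20)
    (hcond2 : (1 + θ) * (l + u) + θ * (1 + θ) * Real.log 16 ≤
      θ * (1 + θ) * ((1 - 2 * δ) * l) +
        θ * ((1 - 2 * δ) * l / 3 + u - 4 * δ * l - Real.log 20)) : False := by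
  have hlog20 : 0 < Real.log 20 := Real.log_pos (by norm_num)
  have hθ0 : 0 < θ := by linarith
  set a := (1 - 2 * δ) * l / 3 with ha
  have ha0 : 0 ≤ a := by
    have : 0 ≤ (1 - 2 * δ) * l := mul_nonneg (by linarith) (by linarith)
    rw [ha]; linarith
  set w := (a + u - 4 * δ * l - Real.log 20) / (1 + θ) with hw
  have hwmul : w * (1 + θ) = a + u - 4 * δ * l - Real.log 20 := by
    rw [hw]; field_simp
  set t := ⌊Real.exp a⌋₊ with ht
  have htle : (t : ℝ) ≤ Real.exp a := Nat.floor_le (Real.exp_pos _).le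
  have htlt : Real.exp a < (t : ℝ) + 1 := Nat.lt_floor_add_one _
  have ht1 : 1 ≤ t := by
    rw [ht]
    apply Nat.le_floor
    rw [Nat.cast_one]
    exact Real.one_le_exp ha0
  have ht1' : (1 : ℝ) ≤ (t : ℝ) := by exact_mod_cast ht1
  have hthalf : Real.exp a * (1 / 2) ≤ (t : ℝ) := by linarith
  have hexp3 : Real.exp a * Real.exp a * Real.exp a = Real.exp ((1 - 2 * δ) * l) := by
    rw [← Real.exp_add, ← Real.exp_add]
    congr 1
    rw [ha]; ring
  have ht3 : t * t * t ≤ M := by
    have : (t : ℝ) * t * t ≤ M := by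
      calc (t : ℝ) * t * t ≤ Real.exp a * Real.exp a * Real.exp a := by gcongr
        _ = Real.exp ((1 - 2 * δ) * l) := hexp3
        _ ≤ M := hM
    exact_mod_cast this
  set P := ⌊Real.exp w⌋₊ with hP
  have hPle : (P : ℝ) ≤ Real.exp w := Nat.floor_le (Real.exp_pos _).le
  have hPlt : Real.exp w < (P : ℝ) + 1 := Nat.lt_floor_add_one _
  have hδl : 0 ≤ δ * l := mul_nonneg hδ (by linarith)
  have hPK : P ≤ J - M := by
    apply le_of_exp_le hl hl20 hM2
    have h1 : w * (1 + θ) ≤ (l - 2) * (1 + θ) := by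
      rw [hwmul]
      have e1 : a ≤ l / 3 := by
        rw [ha]
        have : (1 - 2 * δ) * l = l - 2 * (δ * l) := by ring
        rw [this]
        linarith
      have e2 : (l - 2) * (1 + θ) = l + θ * l - 2 - 2 * θ := by ring
      rw [e2]
      have e3 : 4 * δ * l = 4 * (δ * l) := by ring
      rw [e3]
      linarith
    exact le_of_mul_le_mul_right h1 (by linarith)
  have hKK : J - M ≤ J - t * t * t := by omega
  have hKM : J - t * t * t + t * t * t = J := by omega
  have htP : t * t ≤ P := by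
    have h1 : Real.exp a * Real.exp a ≤ Real.exp w := by
      rw [← Real.exp_add]
      apply Real.exp_le_exp.mpr
      have : (a + a) * (1 + θ) ≤ w * (1 + θ) := by
        rw [hwmul]
        linarith
      exact le_of_mul_le_mul_right this (by linarith)
    have h2 : (t : ℝ) * t < (P : ℝ) + 1 := by
      calc (t : ℝ) * t ≤ Real.exp a * Real.exp a := by gcongr
        _ ≤ Real.exp w := h1
        _ < (P : ℝ) + 1 := hPlt
    have h3 : t * t < P + 1 := by exact_mod_cast h2
    omega
  have hSP : (S b P : ℝ) ≤ C * (P : ℝ) ^ (1 + θ) := hb.S_bound (by linarith) ih (by omega)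
  have hbK' : (b (J - M) : ℝ) ≤ b (J - t * t * t) := by
    exact_mod_cast hb.mono.monotone hKK
  have h1 : 10 * S b P ≤ t * b (J - t * t * t) := by
    have : (10 : ℝ) * S b P ≤ t * b (J - t * t * t) := by
      calc (10 : ℝ) * S b P ≤ 10 * (C * (Real.exp w) ^ (1 + θ)) := by
            have h2 : (P : ℝ) ^ (1 + θ) ≤ (Real.exp w) ^ (1 + θ) := by
              apply Real.rpow_le_rpow (Nat.cast_nonneg _) hPle (by linarith)
            have h3 : (S b P : ℝ) ≤ C * (Real.exp w) ^ (1 + θ) := by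
              calc (S b P : ℝ) ≤ C * (P : ℝ) ^ (1 + θ) := hSP
                _ ≤ C * (Real.exp w) ^ (1 + θ) := by gcongr
            gcongr
        _ = C * (10 * (Real.exp (a + u - 4 * δ * l) / 20)) := by
            rw [exp_rpow', hwmul, Real.exp_sub _ (Real.log 20), Real.exp_log (by norm_num)]
            ring
        _ = (Real.exp a * (1 / 2)) * (C * Real.exp (u - 4 * δ * l)) := by
            have : Real.exp (a + u - 4 * δ * l) =
                Real.exp a * Real.exp (u - 4 * δ * l) := by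
              rw [← Real.exp_add]; ring_nf
            rw [this]; ring
        _ ≤ t * b (J - M) := by gcongr
        _ ≤ t * b (J - t * t * t) := by gcongr
    exact_mod_cast this
  have h2 : 2 * (n + 1) ≤ t * t * t * (P + 1) := by
    have : (2 : ℝ) * ((n : ℝ) + 1) ≤ t * t * t * ((P : ℝ) + 1) := by
      have e0 : Real.log 16 = Real.log 2 + Real.log 8 := by
        rw [← Real.log_mul (by norm_num) (by norm_num)]
        norm_num
      calc (2 : ℝ) * ((n : ℝ) + 1) ≤ 2 * Real.exp ((l + u) / θ) := by gcongr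
        _ = Real.exp (Real.log 2 + (l + u) / θ) := by
            rw [Real.exp_add, Real.exp_log (by norm_num)]
        _ ≤ Real.exp ((1 - 2 * δ) * l - Real.log 8 + w) := by
            apply Real.exp_le_exp.mpr
            have h3 : (Real.log 2 + (l + u) / θ) * (θ * (1 + θ)) ≤
                ((1 - 2 * δ) * l - Real.log 8 + w) * (θ * (1 + θ)) := by
              have e1 : (Real.log 2 + (l + u) / θ) * (θ * (1 + θ)) =
                  (1 + θ) * (l + u) + θ * (1 + θ) * Real.log 2 := by
                field_simp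
                ring
              have e2 : ((1 - 2 * δ) * l - Real.log 8 + w) * (θ * (1 + θ)) =
                  θ * (1 + θ) * ((1 - 2 * δ) * l) - θ * (1 + θ) * Real.log 8
                    + θ * (w * (1 + θ)) := by ring
              rw [e1, e2, hwmul]
              rw [e0] at hcond2
              linarith
            exact le_of_mul_le_mul_right h3 (by positivity)
        _ = Real.exp ((1 - 2 * δ) * l) * (1 / 8) * Real.exp w := by
            rw [Real.exp_add, Real.exp_sub, Real.exp_log (by norm_num)]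
            ring
        _ = (Real.exp a * (1 / 2)) * (Real.exp a * (1 / 2)) * (Real.exp a * (1 / 2))
              * Real.exp w := by
            rw [← hexp3]; ring
        _ ≤ t * t * t * ((P : ℝ) + 1) := by gcongr
    exact_mod_cast this
  have h3 := hb.term_le_inc (J - t * t * t) t P n ht1 htP (by omega) h1 h2
  rw [hKM] at h3
  omega

end Run7.h437
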