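import Pool.Agent.Run7.h437.Apriori

/-!
# Regularity: at every scale many terms are not much smaller than `b J`
-/

set_option autoImplicit false

namespace Run7.h437

open Finset

variable {b : ℕ → ℕ}

lemma Closed.window_le (hb : Closed b) (K l q : ℕ) (hq : q + l ≤ K + 1) :
    S b (q + l) ≤ S b q + l * b K := by
  induction l with
  | zero => simp
  | succ l ih =>
    rw [← Nat.add_assoc, S_succ, Nat.succ_mul]
    have h1 := ih (by omega)
    have : b (q + l) ≤ b K := hb.mono.monotone (by omega)
    omega

/-- A block of windows of length `l`, all of whose sums are below `b J`, pushes `b (J - m)` up. -/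
lemma Closed.block (hb : Closed b) (J i0 m l y : ℕ) (hm : 1 ≤ m) (hmJ : m ≤ J) (hl : 1 ≤ l)
    (hup : S b (i0 + (m - 1) + l) < b J + S b (i0 + (m - 1)))
    (hy : y + S b i0 ≤ S b (i0 + l)) : y ≤ b (J - m) := by
  by_contra hcon
  push Not at hcon
  -- the windows
  have hw : ∀ a, a < m → y + S b (i0 + a) ≤ S b (i0 + a + l) ∧
      S b (i0 + a + l) < b J + S b (i0 + a) := by
    intro a ha
    constructor
    · rcases Nat.eq_zero_or_pos a with h0 | h0
      · subst h0; simpa using hy
      · have := hb.window_lt l hl (show i0 < i0 + a by omega)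
        omega
    · rcases Nat.eq_or_lt_of_le (show a ≤ m - 1 by omega) with h0 | h0
      · rw [h0]; exact hup
      · have := hb.window_lt l hl (show i0 + a < i0 + (m - 1) by omega)
        omega
  have hcard : (range m).card ≤ ((Ioo (J - m) J).image b).card := by
    apply card_le_card_of_injOn (fun a => S b (i0 + a + l) - S b (i0 + a))
    · intro a ha
      have ha' := mem_range.mp (mem_coe.mp ha)
      obtain ⟨h1, h2⟩ := hw a ha'
      obtain ⟨k, hk⟩ := hb.closed (i0 + a) (i0 + a + l) (by omega)
      rw [mem_coe, mem_image]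
      refine ⟨k, ?_, hk⟩
      rw [mem_Ioo]
      have h3 : b k < b J := by omega
      have h4 : b (J - m) < b k := by omega
      exact ⟨hb.mono.lt_iff_lt.mp h4, hb.mono.lt_iff_lt.mp h3⟩
    · intro a ha a' ha' h
      have h' : S b (i0 + a + l) - S b (i0 + a) = S b (i0 + a' + l) - S b (i0 + a') := h
      have m1 := hb.S_mono (show i0 + a ≤ i0 + a + l by omega)
      have m2 := hb.S_mono (show i0 + a' ≤ i0 + a' + l by omega)
      rcases lt_trichotomy a a' with h1 | h1 | h1
      · have := hb.window_lt l hl (show i0 + a < i0 + a' by omega)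
        omega
      · exact h1
      · have := hb.window_lt l hl (show i0 + a' < i0 + a by omega)
        omega
  have h2 := card_image_le (s := Ioo (J - m) J) (f := b)
  rw [Nat.card_Ioo] at h2
  rw [card_range] at hcard
  omega

/-- **Regularity lemma.** -/
theorem Closed.regular (hb : Closed b) (J : ℕ) (hJ : 1 ≤ J) :
    ∃ M, 1 ≤ M ∧ 2 * M ≤ J + 1 ∧ J ≤ 2 * M * (Nat.log 2 (b J) + 1) ∧
      (b J ≤ 4 * b (J - M) ∨
        J * J ≤ 4 * b (J - M) * ((Nat.log 2 (b J) + 1) * (Nat.log 2 (b J) + 1))) := by
  set E := Nat.log 2 (b J) with hE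
  have hbJ := hb.b_pos J
  have hE1 : 2 ^ E ≤ b J := Nat.pow_log_le_self 2 hbJ.ne'
  have hE2 : b J < 2 ^ (E + 1) := Nat.lt_pow_succ_log_self (by norm_num) _
  let e : ℕ → ℕ := fun j => Nat.log 2 (b j)
  have he : ∀ j ∈ range J, e j ∈ range (E + 1) := by
    intro j hj
    have h1 := mem_range.mp hj
    rw [mem_range]
    have : e j ≤ E := Nat.log_mono_right (hb.mono.monotone h1.le)
    omega
  -- pigeonhole
  obtain ⟨e0, he0, hcard⟩ : ∃ e0 ∈ range (E + 1),
      J ≤ ((range J).filter (fun j => e j = e0)).card * (E + 1) := by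
    by_contra hcon
    push Not at hcon
    have h1 := card_eq_sum_card_fiberwise (f := e) (s := range J) (t := range (E + 1))
      (fun j hj => mem_coe.mpr (he j (mem_coe.mp hj)))
    rw [card_range] at h1
    have h2 : J * (E + 1) < (range (E + 1)).card * J := by
      calc J * (E + 1) = (∑ x ∈ range (E + 1), ((range J).filter (fun j => e j = x)).card)
            * (E + 1) := by rw [← h1]
        _ = ∑ x ∈ range (E + 1), ((range J).filter (fun j => e j = x)).card * (E + 1) := by
            rw [sum_mul]
        _ < ∑ _x ∈ range (E + 1), J := by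
            apply sum_lt_sum_of_nonempty
            · exact ⟨0, by simp⟩
            · intro x hx
              exact hcon x hx
        _ = (range (E + 1)).card * J := by simp
    rw [card_range] at h2
    have : J * (E + 1) = (E + 1) * J := Nat.mul_comm _ _
    omega
  set Fb := (range J).filter (fun j => e j = e0) with hFb
  set n0 := Fb.card with hn0
  have hn0pos : 1 ≤ n0 := by
    by_contra hcon
    have : n0 = 0 := by omega
    rw [this] at hcard
    omega
  have hne : Fb.Nonempty := card_pos.mp (by omega)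
  set i0 := Fb.min' hne with hi0
  set i1 := Fb.max' hne with hi1
  have hi0F := mem_filter.mp (Fb.min'_mem hne)
  have hi1F := mem_filter.mp (Fb.max'_mem hne)
  rw [← hi0] at hi0F
  rw [← hi1] at hi1F
  have hi1J : i1 < J := mem_range.mp hi1F.1
  have hcnt : n0 ≤ i1 - i0 + 1 := by
    have : Fb ⊆ Icc i0 i1 := by
      intro x hx
      rw [mem_Icc]
      exact ⟨Fb.min'_le x hx, Fb.le_max' x hx⟩
    have := card_le_card this
    rw [Nat.card_Icc] at this
    have h01 : i0 ≤ i1 := Fb.min'_le _ (Fb.max'_mem hne)
    omega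
  have h01 : i0 ≤ i1 := Fb.min'_le _ (Fb.max'_mem hne)
  have hlow : 2 ^ e0 ≤ b i0 := by
    have h1 : e i0 = e0 := hi0F.2
    rw [← h1]
    exact Nat.pow_log_le_self 2 (hb.b_pos _).ne'
  have hhigh : b i1 < 2 ^ (e0 + 1) := by
    have h1 : e i1 = e0 := hi1F.2
    rw [← h1]
    exact Nat.lt_pow_succ_log_self (by norm_num) _
  have he0' : e0 ≤ E := by
    have := mem_range.mp he0
    omega
  set M := (n0 + 1) / 2 with hM
  have hM1 : 1 ≤ M := by omega
  have hM2 : 2 * M ≤ n0 + 1 := by omega
  have hM3 : n0 ≤ 2 * M := by omega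
  have hn0J : n0 ≤ J := by
    have := card_le_card (filter_subset (fun j => e j = e0) (range J))
    rw [card_range] at this
    exact this
  have hMJ : M ≤ J := by omega
  refine ⟨M, hM1, by omega, ?_, ?_⟩
  · calc J ≤ n0 * (E + 1) := hcard
      _ ≤ 2 * M * (E + 1) := by gcongr
  · rcases Nat.eq_or_lt_of_le he0' with hcase | hcase
    · -- top block
      left
      have h1 : b i0 ≤ b (J - M) := by
        apply hb.mono.monotone
        omega
      rw [hcase] at hlow
      have : 2 ^ (E + 1) = 2 * 2 ^ E := by ring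
      omega
    · -- lower block
      set q := b J / 2 ^ (e0 + 1) with hq
      have hpow : 0 < 2 ^ (e0 + 1) := by positivity
      have hq1 : 1 ≤ q := by
        apply Nat.div_pos _ hpow
        calc 2 ^ (e0 + 1) ≤ 2 ^ E := Nat.pow_le_pow_right (by norm_num) hcase
          _ ≤ b J := hE1
      have hq2 : q * 2 ^ (e0 + 1) ≤ b J := Nat.div_mul_le_self _ _
      have hq3 : b J < q * 2 ^ (e0 + 1) + 2 ^ (e0 + 1) := Nat.lt_div_mul_add hpow
      have hpow2 : 2 ^ (e0 + 1) = 2 * 2 ^ e0 := by ring
      -- application of the block lemma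
      have key : ∀ l, 1 ≤ l → l ≤ q → l ≤ M → l * 2 ^ e0 ≤ b (J - M) := by
        intro l hl1 hl2 hl3
        apply hb.block J i0 M l _ hM1 hMJ hl1
        · have h1 := hb.window_le i1 l (i0 + (M - 1)) (by omega)
          have h2 : l * b i1 < l * 2 ^ (e0 + 1) := by
            apply Nat.mul_lt_mul_of_pos_left hhigh
            omega
          have h3 : l * 2 ^ (e0 + 1) ≤ q * 2 ^ (e0 + 1) := by gcongr
          omega
        · have h1 := hb.le_window i0 l i0 le_rfl
          have h2 : l * 2 ^ e0 ≤ l * b i0 := by gcongr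
          omega
      rcases Nat.le_total q M with hqM | hqM
      · left
        have h1 := key q hq1 le_rfl hqM
        have h2 : 2 ^ (e0 + 1) ≤ q * 2 ^ (e0 + 1) := Nat.le_mul_of_pos_left _ (by omega)
        have h3 : q * 2 ^ (e0 + 1) = 2 * (q * 2 ^ e0) := by rw [hpow2]; ring
        omega
      · right
        have h1 := key M hM1 hqM le_rfl
        have h2 : n0 ≤ 2 * 2 ^ e0 := by
          have h3 := hb.lt_b i1
          omega
        have h4 : n0 * n0 ≤ 4 * b (J - M) := by
          calc n0 * n0 ≤ (2 * M) * (2 * 2 ^ e0) := by gcongr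
            _ = 4 * (M * 2 ^ e0) := by ring
            _ ≤ 4 * b (J - M) := by gcongr
        calc J * J ≤ (n0 * (E + 1)) * (n0 * (E + 1)) := by gcongr
          _ = (n0 * n0) * ((E + 1) * (E + 1)) := by ring
          _ ≤ (4 * b (J - M)) * ((E + 1) * (E + 1)) := by gcongr

end Run7.h437
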