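import Pool.Agent.Run7.h437.Regular

/-!
# Regularity, logarithmic form
-/

set_option autoImplicit false

namespace Run7.h437

open Finset

variable {b : ℕ → ℕ}

theorem Closed.regular_log (hb : Closed b) (δ : ℝ) (hδ : 0 < δ) (hδ1 : δ ≤ 1) :
    ∃ l1 : ℝ, ∀ J : ℕ, l1 ≤ Real.log ((J : ℝ) + 1) →
      ∃ M : ℕ, 1 ≤ M ∧ 2 * M ≤ J + 1 ∧
        Real.exp ((1 - 2 * δ) * Real.log ((J : ℝ) + 1)) ≤ M ∧
        (b J : ℝ) * Real.exp (-(4 * δ * Real.log ((J : ℝ) + 1))) ≤ b (J - M) := by
  obtain ⟨C, hC1, hC⟩ := hb.apriori δ hδ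
  have hlogC : 0 ≤ Real.log C := Real.log_nonneg hC1
  refine ⟨max (max 1 (24 / δ ^ 2)) (max ((1 + 2 * Real.log C) / 6) (Real.log (16 * C) / δ)), ?_⟩
  intro J hJ
  set l := Real.log ((J : ℝ) + 1) with hl
  have hl1 : 1 ≤ l := le_trans (le_trans (le_max_left _ _) (le_max_left _ _)) hJ
  have hl2 : 24 / δ ^ 2 ≤ l := le_trans (le_trans (le_max_right _ _) (le_max_left _ _)) hJ
  have hl3 : (1 + 2 * Real.log C) / 6 ≤ l :=
    le_trans (le_trans (le_max_left _ _) (le_max_right _ _)) hJ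
  have hl4 : Real.log (16 * C) / δ ≤ l :=
    le_trans (le_trans (le_max_right _ _) (le_max_right _ _)) hJ
  have hJ0 : (0 : ℝ) ≤ (J : ℝ) := Nat.cast_nonneg J
  have hexpl : Real.exp l = (J : ℝ) + 1 := by
    rw [hl, Real.exp_log (by linarith)]
  have hJ1 : 1 ≤ J := by
    by_contra hcon
    have : J = 0 := by omega
    rw [this] at hl
    simp at hl
    linarith
  have hJ1' : (1 : ℝ) ≤ (J : ℝ) := by exact_mod_cast hJ1
  set X := Real.exp (δ * l) with hX
  have hXpos : 0 < X := Real.exp_pos _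
  -- `X ≥ 16 C`
  have hX1 : 16 * C ≤ X := by
    have h1 : Real.log (16 * C) ≤ δ * l := by
      have := (div_le_iff₀ hδ).mp hl4
      linarith
    calc 16 * C = Real.exp (Real.log (16 * C)) := (Real.exp_log (by linarith)).symm
      _ ≤ X := Real.exp_le_exp.mpr h1
  have hX16 : 16 ≤ X := by linarith
  -- `E + 1 ≤ X`
  have hbJpos : (0 : ℝ) < b J := by exact_mod_cast hb.b_pos J
  have hE : ((Nat.log 2 (b J) : ℕ) : ℝ) + 1 ≤ X := by
    have h1 : (2 : ℝ) ^ (Nat.log 2 (b J)) ≤ b J := by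
      exact_mod_cast Nat.pow_log_le_self 2 (hb.b_pos J).ne'
    have h2 : (Nat.log 2 (b J) : ℝ) * Real.log 2 ≤ Real.log (b J) := by
      have := Real.log_le_log (by positivity) h1
      rwa [Real.log_pow] at this
    have h3 : Real.log (b J) ≤ Real.log C + (2 + δ) * l := by
      have := Real.log_le_log hbJpos (hC J)
      rwa [Real.log_mul (by linarith) (by positivity), Real.log_rpow (by linarith)] at this
    have h4 : (0.5 : ℝ) ≤ Real.log 2 := by
      have := Real.log_two_gt_d9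
      linarith
    have h5 : (Nat.log 2 (b J) : ℝ) * 0.5 ≤ Real.log C + (2 + δ) * l := by
      have : (0 : ℝ) ≤ (Nat.log 2 (b J) : ℝ) := Nat.cast_nonneg _
      nlinarith
    have h6 : (2 + δ) * l ≤ 3 * l := by nlinarith
    have h7 : 1 + δ * l + (δ * l) ^ 2 / 2 ≤ X := Real.quadratic_le_exp_of_nonneg (by positivity)
    have h8 : 12 * l ≤ (δ * l) ^ 2 / 2 := by
      have := (div_le_iff₀ (by positivity : (0 : ℝ) < δ ^ 2)).mp hl2
      nlinarith
    have h9 : 0 < δ * l := by positivity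
    linarith
  obtain ⟨M, hM1, hM2, hM3, hM4⟩ := hb.regular J hJ1
  set E := Nat.log 2 (b J) with hEdef
  have hE0 : (0 : ℝ) ≤ (E : ℝ) + 1 := by positivity
  refine ⟨M, hM1, hM2, ?_, ?_⟩
  · have h1 : (J : ℝ) ≤ 2 * M * ((E : ℝ) + 1) := by exact_mod_cast hM3
    have h2 : (J : ℝ) ≤ 2 * M * X := by
      calc (J : ℝ) ≤ 2 * M * ((E : ℝ) + 1) := h1
        _ ≤ 2 * M * X := by gcongr
    have h3 : Real.exp l ≤ 4 * M * X := by
      rw [hexpl]; linarith
    have h4 : Real.exp ((1 - 2 * δ) * l) * (X * X) = Real.exp l := by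
      rw [hX, ← Real.exp_add, ← Real.exp_add]
      congr 1
      ring
    have h5 : Real.exp ((1 - 2 * δ) * l) * (X * X) ≤ M * (X * X) := by
      rw [h4]
      have hM0 : (0 : ℝ) ≤ M := Nat.cast_nonneg M
      calc Real.exp l ≤ 4 * M * X := h3
        _ ≤ X * M * X := by gcongr; linarith
        _ = M * (X * X) := by ring
    exact le_of_mul_le_mul_right h5 (by positivity)
  · have hexp4 : Real.exp (-(4 * δ * l)) * X ^ 4 = 1 := by
      rw [hX, ← Real.exp_nat_mul, ← Real.exp_add]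
      have : -(4 * δ * l) + ((4 : ℕ) : ℝ) * (δ * l) = 0 := by push_cast; ring
      rw [this, Real.exp_zero]
    have hgoal : (b J : ℝ) ≤ b (J - M) * X ^ 4 := by
      have hbK0 : (0 : ℝ) ≤ b (J - M) := Nat.cast_nonneg _
      rcases hM4 with h | h
      · have h' : (b J : ℝ) ≤ 4 * b (J - M) := by exact_mod_cast h
        have h2 : (4 : ℝ) ≤ X ^ 4 := by
          calc (4 : ℝ) ≤ 16 ^ 4 := by norm_num
            _ ≤ X ^ 4 := by gcongr
        calc (b J : ℝ) ≤ 4 * b (J - M) := h'
          _ ≤ X ^ 4 * b (J - M) := by gcongr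
          _ = b (J - M) * X ^ 4 := by ring
      · have h' : (J : ℝ) * J ≤ 4 * b (J - M) * (((E : ℝ) + 1) * ((E : ℝ) + 1)) := by
          exact_mod_cast h
        have h2 : (J : ℝ) * J ≤ 4 * b (J - M) * (X * X) := by
          calc (J : ℝ) * J ≤ 4 * b (J - M) * (((E : ℝ) + 1) * ((E : ℝ) + 1)) := h'
            _ ≤ 4 * b (J - M) * (X * X) := by gcongr
        have h3 : Real.exp l * Real.exp l ≤ 16 * b (J - M) * (X * X) := by
          rw [hexpl]
          nlinarith
        have h4 : (b J : ℝ) ≤ C * X * (Real.exp l * Real.exp l) := by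
          have h5 := hC J
          rw [Real.rpow_def_of_pos (by linarith), ← hl] at h5
          have h6 : Real.exp (l * (2 + δ)) = X * (Real.exp l * Real.exp l) := by
            rw [hX, ← Real.exp_add, ← Real.exp_add]
            congr 1
            ring
          rw [h6] at h5
          linarith
        calc (b J : ℝ) ≤ C * X * (Real.exp l * Real.exp l) := h4
          _ ≤ C * X * (16 * b (J - M) * (X * X)) := by gcongr
          _ = (16 * C) * (b (J - M) * X ^ 3) := by ring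
          _ ≤ X * (b (J - M) * X ^ 3) := by gcongr
          _ = b (J - M) * X ^ 4 := by ring
    calc (b J : ℝ) * Real.exp (-(4 * δ * l))
        ≤ (b (J - M) * X ^ 4) * Real.exp (-(4 * δ * l)) := by
          gcongr
      _ = b (J - M) * (Real.exp (-(4 * δ * l)) * X ^ 4) := by ring
      _ = b (J - M) := by rw [hexp4, mul_one]

end Run7.h437
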