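import Pool.Agent.Run7.h437.Regimes

/-!
# The upper bound `b k ≪ k^θ` for every `θ > (1 + √10)/3`
-/

set_option autoImplicit false

namespace Run7.h437

open Finset

variable {b : ℕ → ℕ}

lemma Closed.b_le_S (hb : Closed b) (n : ℕ) (hn : 2 ≤ n) : b n ≤ S b n := by
  obtain ⟨k, hk⟩ := hb.closed 0 n (by omega)
  rw [S_zero, Nat.sub_zero] at hk
  have h1 : S b n = S b (n - 1) + b (n - 1) := by
    have := S_succ (b := b) (n - 1)
    rwa [show n - 1 + 1 = n by omega] at this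
  have h2 : S b 0 < S b (n - 1) := hb.S_strictMono (by omega)
  rw [S_zero] at h2
  have h3 : b (n - 1) < b k := by omega
  have h4 : n - 1 < k := hb.mono.lt_iff_lt.mp h3
  calc b n ≤ b k := hb.mono.monotone (by omega)
    _ = S b n := hk

/-- the last index with `S J < b n` -/
lemma Closed.exists_J (hb : Closed b) (n : ℕ) (hn : 2 ≤ n) :
    ∃ J, J < n ∧ S b J < b n ∧ b n ≤ S b (J + 1) := by
  classical
  have hex : ∃ q, b n ≤ S b q := ⟨n, hb.b_le_S n hn⟩
  have h1 := Nat.find_spec hex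
  have h2 := Nat.find_le (h := hex) (hb.b_le_S n hn)
  have h3 : Nat.find hex ≠ 0 := by
    intro h0
    rw [h0, S_zero] at h1
    have := hb.b_pos n
    omega
  refine ⟨Nat.find hex - 1, by omega, ?_, ?_⟩
  · have := Nat.find_min hex (m := Nat.find hex - 1) (by omega)
    omega
  · rw [show Nat.find hex - 1 + 1 = Nat.find hex by omega]
    exact h1

/-- the linear inequality behind the first regime -/
lemma condT {θ δ σ ψ l u : ℝ} (hθ1 : 1 ≤ θ) (hθ2 : θ < 2) (hδ : 100 * δ = σ)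
    (hs : 200 ≤ σ * l) (hψ : 2 * σ ≤ θ ^ 2 + 2 * θ - 2 - 2 * ψ) (hl : 0 ≤ l)
    (hu : u ≤ ψ * l) (hlog : Real.log 2 ≤ 1) :
    (2 + θ) * (l + u) + θ * (2 + θ) * Real.log 2 ≤
      θ * (2 + θ) * ((1 - 2 * δ) * l) + θ * ((1 - 6 * δ) * l + u - Real.log 2) := by
  have hD : 100 * (δ * l) = σ * l := by rw [← hδ]; ring
  set D := δ * l with hDdef
  have hD0 : 0 ≤ D := by linarith
  have h1 : 2 * (σ * l) ≤ (θ ^ 2 + 2 * θ - 2) * l - 2 * (ψ * l) := by
    have := mul_le_mul_of_nonneg_right hψ hl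
    linarith
  have h2 : (2 * θ ^ 2 + 10 * θ) * D ≤ 28 * D := by
    have : 2 * θ ^ 2 + 10 * θ ≤ 28 := by nlinarith
    exact mul_le_mul_of_nonneg_right this hD0
  have h3 : (θ ^ 2 + 3 * θ) * Real.log 2 ≤ 10 := by
    have h4 : θ ^ 2 + 3 * θ ≤ 10 := by nlinarith
    calc (θ ^ 2 + 3 * θ) * Real.log 2 ≤ (θ ^ 2 + 3 * θ) * 1 := by
          apply mul_le_mul_of_nonneg_left hlog (by positivity)
      _ ≤ 10 := by linarith
  have e : θ * (2 + θ) * ((1 - 2 * δ) * l) + θ * ((1 - 6 * δ) * l + u - Real.log 2) -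
      ((2 + θ) * (l + u) + θ * (2 + θ) * Real.log 2) =
      (θ ^ 2 + 2 * θ - 2) * l - 2 * u - (2 * θ ^ 2 + 10 * θ) * D
        - (θ ^ 2 + 3 * θ) * Real.log 2 := by
    rw [hDdef]; ring
  linarith

lemma condI1 {θ δ σ l u : ℝ} (hθ1 : 1 ≤ θ) (hδ : 100 * δ = σ)
    (hs : 200 ≤ σ * l)
    (hu : ((1 + 2 * θ) / 3 + σ) * l ≤ u) (hlog : Real.log 20 ≤ 19) :
    (1 + θ) * (2 * ((1 - 2 * δ) * l / 3)) ≤
      (1 - 2 * δ) * l / 3 + u - 4 * δ * l - Real.log 20 := by
  have hD : 100 * (δ * l) = σ * l := by rw [← hδ]; ring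
  set D := δ * l with hDdef
  have hD0 : 0 ≤ D := by linarith
  have h2 : 0 ≤ θ * D := by positivity
  have e : (1 - 2 * δ) * l / 3 + u - 4 * δ * l - Real.log 20 -
      (1 + θ) * (2 * ((1 - 2 * δ) * l / 3)) =
      (u - ((1 + 2 * θ) / 3) * l) + (2 / 3) * D + (4 / 3) * (θ * D) - 4 * D - Real.log 20 := by
    rw [hDdef]; ring
  have h3 : σ * l ≤ u - ((1 + 2 * θ) / 3) * l := by linarith
  linarith

lemma condI2 {θ δ σ l u : ℝ} (hθ1 : 1 ≤ θ) (hθ2 : θ < 2) (hδ : 100 * δ = σ)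
    (hs : 200 ≤ σ * l) (hσ : σ ≤ θ ^ 2 - 2 / 3 * θ - 1) (hl : 0 ≤ l)
    (hu : u ≤ θ * l) (hlog : Real.log 20 ≤ 19) (hlog' : Real.log 16 ≤ 15) :
    (1 + θ) * (l + u) + θ * (1 + θ) * Real.log 16 ≤
      θ * (1 + θ) * ((1 - 2 * δ) * l) +
        θ * ((1 - 2 * δ) * l / 3 + u - 4 * δ * l - Real.log 20) := by
  have hD : 100 * (δ * l) = σ * l := by rw [← hδ]; ring
  set D := δ * l with hDdef
  have hD0 : 0 ≤ D := by linarith
  have h1 : σ * l ≤ (θ ^ 2 - 2 / 3 * θ - 1) * l := mul_le_mul_of_nonneg_right hσ hl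
  have h2 : (2 * θ ^ 2 + 20 / 3 * θ) * D ≤ 22 * D := by
    have : 2 * θ ^ 2 + 20 / 3 * θ ≤ 22 := by nlinarith
    exact mul_le_mul_of_nonneg_right this hD0
  have h3 : θ * (1 + θ) * Real.log 16 ≤ 90 := by
    have h4 : θ * (1 + θ) ≤ 6 := by nlinarith
    calc θ * (1 + θ) * Real.log 16 ≤ 6 * 15 := by gcongr
      _ = 90 := by norm_num
  have h5 : θ * Real.log 20 ≤ 38 := by
    calc θ * Real.log 20 ≤ 2 * 19 := by gcongr
      _ = 38 := by norm_num
  have e : θ * (1 + θ) * ((1 - 2 * δ) * l) +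
        θ * ((1 - 2 * δ) * l / 3 + u - 4 * δ * l - Real.log 20) -
      ((1 + θ) * (l + u) + θ * (1 + θ) * Real.log 16) =
      (θ ^ 2 - 2 / 3 * θ - 1) * l + (θ * l - u) - (2 * θ ^ 2 + 20 / 3 * θ) * D
        - θ * (1 + θ) * Real.log 16 - θ * Real.log 20 := by
    rw [hDdef]; ring
  linarith

/-- **Upper bound**, for exponents below `2`. -/
theorem Closed.upper_lt_two (hb : Closed b) (θ : ℝ) (hθ : (1 + Real.sqrt 10) / 3 < θ)
    (hθ2 : θ < 2) : ∃ C : ℝ, 1 ≤ C ∧ ∀ k : ℕ, (b k : ℝ) ≤ C * ((k : ℝ) + 1) ^ θ := by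
  have hsq : Real.sqrt 10 * Real.sqrt 10 = 10 := Real.mul_self_sqrt (by norm_num)
  have hsq3 : 3 ≤ Real.sqrt 10 := Real.le_sqrt_of_sq_le (by norm_num)
  have hθ43 : 4 / 3 < θ := by linarith
  have hθ1 : 1 ≤ θ := by linarith
  have hθ0 : 0 < θ := by linarith
  have hs3 : 0 < θ ^ 2 - 2 / 3 * θ - 1 := by
    have h1 : Real.sqrt 10 < 3 * θ - 1 := by linarith
    nlinarith
  have hs1 : 0 < 3 * θ ^ 2 + 2 * θ - 8 := by nlinarith
  set σ := min (min ((3 * θ ^ 2 + 2 * θ - 8) / 12) (θ ^ 2 - 2 / 3 * θ - 1)) 1 with hσ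
  have hσ1 : σ ≤ (3 * θ ^ 2 + 2 * θ - 8) / 12 := le_trans (min_le_left _ _) (min_le_left _ _)
  have hσ2 : σ ≤ θ ^ 2 - 2 / 3 * θ - 1 := le_trans (min_le_left _ _) (min_le_right _ _)
  have hσ3 : σ ≤ 1 := min_le_right _ _
  have hσ0 : 0 < σ := lt_min (lt_min (by linarith) hs3) one_pos
  set δ := σ / 100 with hδ
  have hδ100 : 100 * δ = σ := by rw [hδ]; ring
  have hδ0 : 0 < δ := by positivity
  have hδ1 : δ ≤ 1 / 100 := by rw [hδ]; linarith
  set ψ := (1 + 2 * θ) / 3 + σ with hψ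
  have hψ' : 2 * σ ≤ θ ^ 2 + 2 * θ - 2 - 2 * ψ := by
    rw [hψ]; linarith
  obtain ⟨l1, hreg⟩ := hb.regular_log δ hδ0 (by linarith)
  set l0 := max (max l1 20) (200 / σ) with hl0
  have hl0a : l1 ≤ l0 := le_trans (le_max_left _ _) (le_max_left _ _)
  have hl0b : 20 ≤ l0 := le_trans (le_max_right _ _) (le_max_left _ _)
  have hl0c : 200 / σ ≤ l0 := le_max_right _ _
  set N := ⌈Real.exp (2 * l0)⌉₊ with hN
  have hN1 : Real.exp (2 * l0) ≤ N := Nat.le_ceil _
  have hN2 : 2 ≤ N := by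
    have h1 : (2 : ℝ) ≤ N := by
      have := Real.add_one_le_exp (2 * l0)
      linarith
    exact_mod_cast h1
  refine ⟨max 1 (b N : ℝ), le_max_left _ _, ?_⟩
  set C := max 1 (b N : ℝ) with hCdef
  have hC1 : 1 ≤ C := le_max_left _ _
  have hC2 : (b N : ℝ) ≤ C := le_max_right _ _
  have hC0 : 0 < C := by linarith
  intro n
  induction n using Nat.strong_induction_on with
  | _ n ih =>
    have hn1 : (1 : ℝ) ≤ (n : ℝ) + 1 := by
      have : (0 : ℝ) ≤ (n : ℝ) := Nat.cast_nonneg n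
      linarith
    by_cases hnN : n ≤ N
    · have h1 : (b n : ℝ) ≤ b N := by exact_mod_cast hb.mono.monotone hnN
      have h2 : (1 : ℝ) ≤ ((n : ℝ) + 1) ^ θ := Real.one_le_rpow hn1 (by positivity)
      calc (b n : ℝ) ≤ C := by linarith
        _ = C * 1 := by ring
        _ ≤ C * ((n : ℝ) + 1) ^ θ := by gcongr
    · push Not at hnN
      by_contra hcon
      push Not at hcon
      obtain ⟨J, hJn, hSJ, hSJ1⟩ := hb.exists_J n (by omega)
      have hJpos : (0 : ℝ) < (J : ℝ) + 1 := by positivity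
      have hbJ : (0 : ℝ) < b J := by exact_mod_cast hb.b_pos J
      set l := Real.log ((J : ℝ) + 1) with hl
      have hexpl : Real.exp l = (J : ℝ) + 1 := by rw [hl, Real.exp_log hJpos]
      set u := Real.log ((b J : ℝ) / C) with hu
      have hexpu : C * Real.exp u = b J := by
        rw [hu, Real.exp_log (by positivity)]
        field_simp
      have huθ : u ≤ θ * l := by
        have h1 := ih J hJn
        have h2 : (b J : ℝ) / C ≤ ((J : ℝ) + 1) ^ θ := by
          rw [div_le_iff₀ hC0]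
          linarith
        have h3 := Real.log_le_log (by positivity) h2
        rwa [Real.log_rpow hJpos] at h3
      -- upper bound for `b n`
      have hbn : (b n : ℝ) ≤ Real.exp l * (C * Real.exp u) := by
        rw [hexpl, hexpu]
        have h1 : b n ≤ (J + 1) * b J := le_trans hSJ1 (hb.S_le _ _ le_rfl)
        exact_mod_cast h1
      have hnlog : θ * Real.log ((n : ℝ) + 1) < l + u := by
        have h1 : ((n : ℝ) + 1) ^ θ < Real.exp (l + u) := by
          have h2 : C * ((n : ℝ) + 1) ^ θ < C * Real.exp (l + u) := by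
            calc C * ((n : ℝ) + 1) ^ θ < b n := hcon
              _ ≤ Real.exp l * (C * Real.exp u) := hbn
              _ = C * Real.exp (l + u) := by rw [Real.exp_add]; ring
          exact lt_of_mul_lt_mul_left h2 hC0.le
        have h3 := Real.log_lt_log (by positivity) h1
        rwa [Real.log_exp, Real.log_rpow (by positivity)] at h3
      have hnexp : (n : ℝ) + 1 < Real.exp ((l + u) / θ) := by
        rw [← Real.log_lt_iff_lt_exp (by positivity), lt_div_iff₀ hθ0]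
        linarith
      have hl0l : l0 ≤ l := by
        have h1 : 2 * l0 ≤ Real.log ((n : ℝ) + 1) := by
          rw [Real.le_log_iff_exp_le (by positivity)]
          have h2 : (N : ℝ) ≤ (n : ℝ) := by exact_mod_cast hnN.le
          linarith
        have h2 : θ * (2 * l0) ≤ θ * Real.log ((n : ℝ) + 1) := by gcongr
        have h3 : θ * (2 * l0) < (1 + θ) * l := by linarith
        have h4 : (1 + θ) * l0 ≤ θ * (2 * l0) := by nlinarith
        have h5 : (1 + θ) * l0 < (1 + θ) * l := by linarith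
        exact (lt_of_mul_lt_mul_left h5 (by linarith)).le
      obtain ⟨M, hM1, hM2, hM3, hM4⟩ := hreg J (le_trans hl0a hl0l)
      have hl20 : 20 ≤ l := by linarith
      have hbK : C * Real.exp (u - 4 * δ * l) ≤ b (J - M) := by
        have h1 : C * Real.exp (u - 4 * δ * l) = (b J : ℝ) * Real.exp (-(4 * δ * l)) := by
          rw [← hexpu, sub_eq_add_neg, Real.exp_add]; ring
        rw [h1]
        exact hM4
      have hσl : 200 ≤ σ * l := by
        have h1 := (div_le_iff₀ hσ0).mp (le_trans hl0c hl0l)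
        linarith
      have hlog2 : Real.log 2 ≤ 1 := by
        have := Real.log_le_sub_one_of_pos (show (0 : ℝ) < 2 by norm_num)
        linarith
      have hlog20 : Real.log 20 ≤ 19 := by
        have := Real.log_le_sub_one_of_pos (show (0 : ℝ) < 20 by norm_num)
        linarith
      have hlog16 : Real.log 16 ≤ 15 := by
        have := Real.log_le_sub_one_of_pos (show (0 : ℝ) < 16 by norm_num)
        linarith
      rcases le_total u (ψ * l) with hcase | hcase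
      · exact hb.regimeT hC0 hθ1 hθ2 hδ0.le ih hJn hSJ hM1 hM2 hexpl hl20 hM3 hbK hnexp huθ
          (condT hθ1 hθ2 hδ100 hσl hψ' (by linarith) hcase hlog2)
      · exact hb.regimeI hC0 hθ1 hθ2 hδ0.le (by linarith) ih hJn hSJ hM1 hM2 hexpl hl20 hM3 hbK
          hnexp huθ (condI1 hθ1 hδ100 hσl hcase hlog20)
          (condI2 hθ1 hθ2 hδ100 hσl hσ2 (by linarith) huθ hlog20 hlog16)

/-- **Upper bound.** -/
theorem Closed.upper (hb : Closed b) (θ : ℝ) (hθ : (1 + Real.sqrt 10) / 3 < θ) :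
    ∃ C : ℝ, 1 ≤ C ∧ ∀ k : ℕ, (b k : ℝ) ≤ C * ((k : ℝ) + 1) ^ θ := by
  rcases lt_or_ge θ 2 with h | h
  · exact hb.upper_lt_two θ hθ h
  · have hsq4 : Real.sqrt 10 < 4 := by
      rw [Real.sqrt_lt' (by norm_num)]
      norm_num
    obtain ⟨C, hC1, hC⟩ := hb.upper_lt_two (11 / 6) (by linarith) (by norm_num)
    refine ⟨C, hC1, fun k => le_trans (hC k) ?_⟩
    have hk : (1 : ℝ) ≤ (k : ℝ) + 1 := by
      have : (0 : ℝ) ≤ (k : ℝ) := Nat.cast_nonneg k
      linarith
    have : ((k : ℝ) + 1) ^ (11 / 6 : ℝ) ≤ ((k : ℝ) + 1) ^ θ :=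
      Real.rpow_le_rpow_of_exponent_le hk (by linarith)
    gcongr

end Run7.h437
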